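import Pool.Agent.Lib.MP_5499ac_co.Main

/-! Finer peeling tools for intersecting families of subspaces. -/

namespace Pool.Agent.Lib.MP_e960f8_co

open Module Finset Pool.Agent.Lib.MP_5499ac_co

universe u v

variable {K : Type u} [Field K] {V : Type v} [AddCommGroup V] [Module K V]

open Classical in
/-- points of a subspace -/
noncomputable def pts [Finite V] (G : Submodule K V) : Finset (Submodule K V) :=
  (Gr K V 1).filter (· ≤ G)

lemma mem_pts [Finite V] {G P : Submodule K V} : P ∈ pts G ↔ finrank K P = 1 ∧ P ≤ G := by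
  classical
  simp [pts]

lemma card_pts [Fintype K] [Finite V] (G : Submodule K V) :
    #(pts G) = br (Fintype.card K) (finrank K G) := by
  have := card_points_le G
  unfold pts
  convert this

open Classical in
/-- points of degree above `c` -/
noncomputable def high [Finite V] (F : Finset (Submodule K V)) (c : ℕ) : Finset (Submodule K V) :=
  (Gr K V 1).filter (fun P => c < deg F P)

lemma mem_high [Finite V] {F : Finset (Submodule K V)} {c : ℕ} {P : Submodule K V} :
    P ∈ high F c ↔ finrank K P = 1 ∧ c < deg F P := by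
  classical
  simp [high]

lemma pt_ne_bot {P : Submodule K V} (hP : finrank K P = 1) : P ≠ ⊥ := by
  rintro rfl
  simp at hP

lemma pt_eq [Finite V] {P Q : Submodule K V} (hP : finrank K P = 1) (hQ : finrank K Q = 1)
    (h : P ≤ Q) : P = Q := Submodule.eq_of_le_of_finrank_le h (by omega)

lemma pt_inf_bot [Finite V] {P G : Submodule K V} (hP : finrank K P = 1) (h : ¬ P ≤ G) :
    P ⊓ G = ⊥ := by
  by_contra hne
  obtain ⟨X, hX1, hX⟩ := exists_point_le hne
  exact h (pt_eq hX1 hP (hX.trans inf_le_left) ▸ hX.trans inf_le_right)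

lemma pt_le_of_inf [Finite V] {P G : Submodule K V} (hP : finrank K P = 1) (h : P ⊓ G ≠ ⊥) :
    P ≤ G := by
  by_contra hn
  exact h (pt_inf_bot hP hn)

lemma deg_mono {W W' : Finset (Submodule K V)} (h : W ⊆ W') (U : Submodule K V) :
    deg W U ≤ deg W' U := by
  classical
  unfold deg
  apply card_le_card
  intro A hA
  simp only [mem_filter] at hA ⊢
  exact ⟨h hA.1, hA.2⟩

lemma deg_le_sum [Finite V] (W : Finset (Submodule K V)) (U : Submodule K V)
    (I : Finset (Submodule K V)) (h : ∀ A ∈ W, U ≤ A → ∃ X ∈ I, X ≤ A) :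
    deg W U ≤ ∑ X ∈ I, deg W (U ⊔ X) := by
  classical
  have hsub : W.filter (U ≤ ·) ⊆ I.biUnion (fun X => W.filter (U ⊔ X ≤ ·)) := by
    intro A hA
    rw [mem_filter] at hA
    obtain ⟨X, hX, hXA⟩ := h A hA.1 hA.2
    exact mem_biUnion.mpr ⟨X, hX, mem_filter.mpr ⟨hA.1, sup_le hA.2 hXA⟩⟩
  have := (card_le_card hsub).trans card_biUnion_le
  unfold deg
  convert this

lemma deg_step [Fintype K] [Finite V] (W : Finset (Submodule K V)) (U G : Submodule K V) (D : ℕ)
    (hWG : ∀ A ∈ W, A ⊓ G ≠ ⊥)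
    (hD : ∀ X : Submodule K V, finrank K X = 1 → X ≤ G → deg W (U ⊔ X) ≤ D) :
    deg W U ≤ br (Fintype.card K) (finrank K G) * D := by
  have h1 := deg_le_sum W U (pts G) (fun A hA _ => by
    obtain ⟨X, hX1, hX⟩ := exists_point_le (hWG A hA)
    exact ⟨X, mem_pts.2 ⟨hX1, hX.trans inf_le_right⟩, hX.trans inf_le_left⟩)
  refine h1.trans ((sum_le_card_nsmul _ _ D fun X hX => ?_).trans ?_)
  · exact hD X (mem_pts.1 hX).1 (mem_pts.1 hX).2
  · rw [card_pts, smul_eq_mul]

lemma deg_le_one [Finite V] (W : Finset (Submodule K V)) (i : ℕ) (hW : ∀ A ∈ W, finrank K A = i)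
    (U : Submodule K V) (hU : i ≤ finrank K U) : deg W U ≤ 1 := by
  classical
  rw [deg, Finset.card_le_one]
  intro A hA B hB
  rw [mem_filter] at hA hB
  have h1 : U = A := Submodule.eq_of_le_of_finrank_le hA.2 (by rw [hW A hA.1]; omega)
  have h2 : U = B := Submodule.eq_of_le_of_finrank_le hB.2 (by rw [hW B hB.1]; omega)
  rw [← h1, ← h2]

lemma exists_max [Finite V] (i : ℕ) (T : Finset (Submodule K V)) (hT : MP_5499ac_co.Inter T)
    (hd : ∀ A ∈ T, finrank K A ≤ i) :
    ∃ S : Finset (Submodule K V), T ⊆ S ∧ MP_5499ac_co.Inter S ∧ (∀ A ∈ S, finrank K A ≤ i) ∧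
      ∀ U : Submodule K V, finrank K U ≤ i → U ≠ ⊥ → U ∉ S → ∃ G ∈ S, U ⊓ G = ⊥ := by
  classical
  let C : Set (Finset (Submodule K V)) :=
    {S | T ⊆ S ∧ MP_5499ac_co.Inter S ∧ ∀ A ∈ S, finrank K A ≤ i}
  obtain ⟨S, hS⟩ := (Set.toFinite C).exists_maximal ⟨T, Finset.Subset.refl _, hT, hd⟩
  obtain ⟨hTS, hSI, hSd⟩ := hS.prop
  refine ⟨S, hTS, hSI, hSd, fun U hU hU0 hUS => ?_⟩
  by_contra hUG
  push Not at hUG
  have hC : insert U S ∈ C := by
    refine ⟨hTS.trans (subset_insert _ _), ?_, ?_⟩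
    · intro A hA B hB
      rw [mem_insert] at hA hB
      rcases hA with rfl | hA
      · rcases hB with rfl | hB
        · simpa using hU0
        · exact hUG B hB
      · rcases hB with rfl | hB
        · rw [inf_comm]; exact hUG A hA
        · exact hSI A hA B hB
    · intro A hA
      rw [mem_insert] at hA
      rcases hA with rfl | hA
      · exact hU
      · exact hSd A hA
  exact hUS (hS.le_of_ge hC (subset_insert U S) (mem_insert_self U S))

lemma peel2 [Fintype K] [Finite V] (i : ℕ) (T : Finset (Submodule K V)) (hT : MP_5499ac_co.Inter T)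
    (hd : ∀ A ∈ T, finrank K A ≤ i) :
    ∃ T' W : Finset (Submodule K V), MP_5499ac_co.Inter T' ∧ (∀ A ∈ T', finrank K A < i) ∧ Layer i W ∧
      (∀ A ∈ W, ∀ B ∈ T', A ⊓ B ≠ ⊥ ∧ ¬ B ≤ A) ∧ ∀ A ∈ T, A ∈ W ∨ ∃ B ∈ T', B ≤ A := by
  classical
  obtain ⟨S, hTS, hSI, hSd, hmax⟩ := exists_max i T hT hd
  let W := S.filter (fun A : Submodule K V => finrank K A = i ∧ ∀ U : Submodule K V, U < A → U ∉ S)
  have hWS : W ⊆ S := filter_subset _ _
  refine ⟨S.filter (fun A : Submodule K V => finrank K A < i), W, ?_, ?_, ⟨?_, ?_, ?_⟩, ?_, ?_⟩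
  · intro A hA B hB
    exact hSI A (mem_filter.mp hA).1 B (mem_filter.mp hB).1
  · intro A hA
    exact (mem_filter.mp hA).2
  · intro A hA B hB
    exact hSI A (hWS hA) B (hWS hB)
  · intro A hA
    exact (mem_filter.mp hA).2.1
  · intro U
    refine deg_spread i S W hSd (fun A hA => (mem_filter.mp hA).2.1)
      (fun A hA G hG => hSI A (hWS hA) G hG) ?_ _ U rfl
    intro A hA U hU
    by_cases hU0 : U = ⊥
    · exact ⟨A, hWS hA, by rw [hU0]; simp⟩
    have h1 := (mem_filter.mp hA).2
    refine hmax U ?_ hU0 (h1.2 U hU)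
    have := Submodule.finrank_lt_finrank_of_lt hU
    omega
  · intro A hA B hB
    have h1 := (mem_filter.mp hA).2
    have h2 := mem_filter.mp hB
    refine ⟨hSI A (hWS hA) B h2.1, fun hBA => h1.2 B (lt_of_le_of_ne hBA ?_) h2.1⟩
    rintro rfl
    omega
  · intro A hA
    have hAS := hTS hA
    by_cases h1 : finrank K A < i
    · exact Or.inr ⟨A, mem_filter.mpr ⟨hAS, h1⟩, le_rfl⟩
    have h2 : finrank K A = i := by have := hSd A hAS; omega
    by_cases h3 : ∀ U : Submodule K V, U < A → U ∉ S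
    · exact Or.inl (mem_filter.mpr ⟨hAS, h2, h3⟩)
    push Not at h3
    obtain ⟨U, hU, hUS⟩ := h3
    refine Or.inr ⟨U, mem_filter.mpr ⟨hUS, ?_⟩, hU.le⟩
    have := Submodule.finrank_lt_finrank_of_lt hU
    omega

/-- a layer all of whose members meet a smaller space has smaller degrees -/
lemma layer_ref [Fintype K] [Finite V] (i g : ℕ) (W : Finset (Submodule K V)) (hW : Layer i W)
    (G : Submodule K V) (hG : finrank K G ≤ g) (hWG : ∀ A ∈ W, A ⊓ G ≠ ⊥) :
    #W ≤ br (Fintype.card K) g * br (Fintype.card K) i ^ (i - 1) ∧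
    ∀ P : Submodule K V, finrank K P = 1 → ¬ P ≤ G →
      deg W P ≤ br (Fintype.card K) g * br (Fintype.card K) i ^ (i - 2) := by
  constructor
  · rw [card_eq_deg_bot]
    refine (deg_step W ⊥ G _ hWG fun X hX _ => ?_).trans (Nat.mul_le_mul_right _ (br_mono hG))
    have := hW.2.2 X
    rw [hX] at this
    rwa [bot_sup_eq]
  · intro P hP hPG
    refine (deg_step W P G _ hWG fun X hX hXG => ?_).trans (Nat.mul_le_mul_right _ (br_mono hG))
    have h1 : ¬ X ≤ P := fun h => hPG (pt_eq hX hP h ▸ hXG)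
    have := hW.2.2 (P ⊔ X)
    rwa [finrank_sup_point hX h1, hP] at this

lemma star_exact [Fintype K] [Finite V] (k : ℕ) (F : Finset (Submodule K V)) (hF : MP_5499ac_co.Inter F)
    (hd : ∀ A ∈ F, finrank K A = k) (E P G : Submodule K V) (hE : finrank K E = 1)
    (hP : finrank K P = 1) (hG : G ∈ F) (hEG : ¬ E ≤ G) (hPG : ¬ P ≤ G ⊔ E) :
    deg F (E ⊔ P) ≤ br (Fintype.card K) k * cc K (finrank K V) k 3 := by
  have := deg_step F (E ⊔ P) G (cc K (finrank K V) k 3) (fun A hA => hF A hA G hG)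
    (fun X hX hXG => by
      have h3 := finrank_sup_point (U := X) hE (fun h => hEG (h.trans hXG))
      have h4 := finrank_sup_point (U := X ⊔ E) hP
        (fun h => hPG (h.trans (sup_le_sup_right hXG E)))
      have h5 := deg_le_cc k F hd (X ⊔ E ⊔ P)
      rw [h4, h3, hX] at h5
      rwa [sup_comm, ← sup_assoc])
  rwa [hd G hG] at this

lemma high_star [Fintype K] [Finite V] (k : ℕ) (F : Finset (Submodule K V))
    (hd : ∀ A ∈ F, finrank K A = k) (E : Submodule K V) (hE : finrank K E = 1)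
    (h : ∀ A ∈ F, E ≤ A) : #(high F (cc K (finrank K V) k 2)) ≤ 1 := by
  have hsub : high F (cc K (finrank K V) k 2) ⊆ {E} := by
    intro P hP
    rw [mem_high] at hP
    rw [mem_singleton]
    by_contra hPE
    have h1 : ¬ E ≤ P := fun h => hPE (pt_eq hE hP.1 h).symm
    have h2 := finrank_sup_point hE h1
    have h3 := deg_le_cc k F hd (P ⊔ E)
    have h4 := deg_le_sum F P {E} (fun A hA _ => ⟨E, mem_singleton_self E, h A hA⟩)
    rw [sum_singleton] at h4
    rw [h2, hP.1] at h3
    have := hP.2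
    norm_num at h3
    omega
  simpa using card_le_card hsub

open Classical in
lemma final_exact [Fintype K] [Finite V] (k : ℕ) (hn : 2 * k + 1 ≤ finrank K V)
    (F : Finset (Submodule K V)) (hF : MP_5499ac_co.Inter F)
    (hd : ∀ A ∈ F, finrank K A = k) (E : Submodule K V) (hE : finrank K E = 1)
    (Z : Finset (Submodule K V)) (hZ : #Z ≤ Fintype.card K ^ k)
    (h : ∀ P : Submodule K V, finrank K P = 1 → P ∉ Z →
      deg (F.filter (fun A => ¬ E ≤ A)) P + br (Fintype.card K) k * cc K (finrank K V) k 3 ≤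
        cc K (finrank K V) k 2) :
    #(high F (cc K (finrank K V) k 2)) ≤ br (Fintype.card K) (k + 1) := by
  set 𝒢 := F.filter (fun A => ¬ E ≤ A) with h𝒢
  by_cases hne : 𝒢.Nonempty
  swap
  · refine (high_star k F hd E hE fun A hA => ?_).trans (br_pos (by omega))
    by_contra hEA
    exact hne ⟨A, mem_filter.mpr ⟨hA, hEA⟩⟩
  let Y : Submodule K V := 𝒢.inf (fun G => G ⊔ E)
  have hY : ∀ P : Submodule K V, P ≤ Y ↔ ∀ G ∈ 𝒢, P ≤ G ⊔ E := by
    intro P
    exact Finset.le_inf_iff
  have hGE : ∀ G ∈ 𝒢, finrank K (G ⊔ E : Submodule K V) = k + 1 := by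
    intro G hG
    rw [mem_filter] at hG
    rw [finrank_sup_point hE hG.2, hd G hG.1]
  have hstar : ∀ P : Submodule K V, finrank K P = 1 → ¬ P ≤ Y →
      2 * deg F (E ⊔ P) ≤ cc K (finrank K V) k 2 ∧
      deg F (E ⊔ P) ≤ br (Fintype.card K) k * cc K (finrank K V) k 3 := by
    intro P hP hPY
    rw [hY] at hPY
    push Not at hPY
    obtain ⟨G, hG, hPG⟩ := hPY
    rw [mem_filter] at hG
    exact ⟨star_part k hn F hF hd E P G hE hP hG.1 hG.2 hPG,
      star_exact k F hF hd E P G hE hP hG.1 hG.2 hPG⟩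
  have hYk : finrank K Y ≤ k + 1 := by
    obtain ⟨G, hG⟩ := hne
    rw [← hGE G hG]
    exact Submodule.finrank_mono ((hY Y).mp le_rfl G hG)
  by_cases hdim : finrank K Y = k + 1
  · have hsub : high F (cc K (finrank K V) k 2) ⊆ pts Y := by
      intro P hP
      rw [mem_high] at hP
      refine mem_pts.2 ⟨hP.1, ?_⟩
      by_contra hPY
      have h1 := (hstar P hP.1 hPY).1
      have h2 := deg_le_split F E P
      have h3 : deg 𝒢 P = 0 := by
        unfold deg
        rw [card_eq_zero, filter_eq_empty_iff]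
        intro G hG hPG
        have h4 : Y = G ⊔ E := Submodule.eq_of_le_of_finrank_le ((hY Y).mp le_rfl G hG)
          (by rw [hGE G hG, hdim])
        exact hPY (h4 ▸ hPG.trans le_sup_left)
      rw [← h𝒢, h3] at h2
      have := hP.2
      omega
    rw [← hdim, ← card_pts]
    exact card_le_card hsub
  · have hsub : high F (cc K (finrank K V) k 2) ⊆ pts Y ∪ Z := by
      intro P hP
      rw [mem_high] at hP
      rw [mem_union, mem_pts]
      by_contra hcon
      push Not at hcon
      have h1 := (hstar P hP.1 (hcon.1 hP.1)).2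
      have h2 := deg_le_split F E P
      have h3 := h P hP.1 hcon.2
      rw [← h𝒢] at h2
      have := hP.2
      omega
    have h1 := (card_le_card hsub).trans (card_union_le _ _)
    rw [card_pts] at h1
    have h2 : br (Fintype.card K) (finrank K Y) ≤ br (Fintype.card K) k := br_mono (by omega)
    rw [br_succ]
    omega

open Classical in
/-- points on the lines of the layer two -/
noncomputable def cov [Finite V] (W : Finset (Submodule K V)) : Finset (Submodule K V) :=
  (Gr K V 1).filter (fun P => deg W P ≠ 0)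

lemma mem_cov [Finite V] {W : Finset (Submodule K V)} {P : Submodule K V} :
    P ∈ cov W ↔ finrank K P = 1 ∧ deg W P ≠ 0 := by
  classical
  simp [cov]

lemma card_cov [Fintype K] [Finite V] (W : Finset (Submodule K V)) (hW : Layer 2 W) :
    #(cov W) ≤ br (Fintype.card K) 2 ^ 3 := by
  classical
  have h3 := hW.2.2 ⊥
  rw [← card_eq_deg_bot, finrank_bot, Nat.sub_zero] at h3
  have hsub : cov W ⊆ W.biUnion pts := by
    intro P hP
    rw [mem_cov] at hP
    obtain ⟨A, hA⟩ := card_ne_zero.mp hP.2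
    rw [mem_filter] at hA
    exact mem_biUnion.mpr ⟨A, hA.1, mem_pts.2 ⟨hP.1, hA.2⟩⟩
  refine ((card_le_card hsub).trans card_biUnion_le).trans ?_
  have h4 : ∀ A ∈ W, #(pts A) ≤ br (Fintype.card K) 2 := by
    intro A hA
    rw [card_pts A, hW.2.1 A hA]
  refine (sum_le_card_nsmul _ _ _ h4).trans ?_
  rw [smul_eq_mul, pow_succ]
  exact Nat.mul_le_mul_right _ h3

end Pool.Agent.Lib.MP_e960f8_co
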