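import Pool.Agent.Lib.MP_e960f8_co.Low

/-! Chains of points, and families without small members. -/

namespace Pool.Agent.Lib.MP_e960f8_co

open Module Finset Pool.Agent.Lib.MP_5499ac_co

universe u v

variable {K : Type u} [Field K] {V : Type v} [AddCommGroup V] [Module K V]

lemma deg_pts [Finite V] (W : Finset (Submodule K V)) (U G : Submodule K V)
    (h : ∀ A ∈ W, A ⊓ G ≠ ⊥) : deg W U ≤ ∑ X ∈ pts G, deg W (U ⊔ X) :=
  deg_le_sum W U (pts G) (fun A hA _ => by
    obtain ⟨X, hX1, hX⟩ := exists_point_le (h A hA)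
    exact ⟨X, mem_pts.2 ⟨hX1, hX.trans inf_le_right⟩, hX.trans inf_le_left⟩)

lemma down [Fintype K] [Finite V] (φ : Submodule K V → ℕ) (g hi D : ℕ) (P : Submodule K V)
    (hm : ∀ U : Submodule K V, P ≤ U → finrank K U < hi → φ U = 0 ∨
      ∃ G : Submodule K V, finrank K G ≤ g ∧ U ⊓ G = ⊥ ∧ φ U ≤ ∑ X ∈ pts G, φ (U ⊔ X))
    (hD : ∀ U : Submodule K V, P ≤ U → finrank K U = hi → φ U ≤ D) :
    ∀ (d : ℕ) (U : Submodule K V), P ≤ U → finrank K U + d = hi →
      φ U ≤ br (Fintype.card K) g ^ d * D := by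
  intro d
  induction d with
  | zero => intro U h1 h2; simpa using hD U h1 h2
  | succ d ih =>
    intro U h1 h2
    rcases hm U h1 (by omega) with h | ⟨G, hG, hUG, h⟩
    · omega
    refine h.trans ((sum_le_card_nsmul _ _ (br (Fintype.card K) g ^ d * D) fun X hX => ?_).trans ?_)
    · obtain ⟨a, b⟩ := mem_pts.1 hX
      exact ih _ (h1.trans le_sup_left) (by
        rw [finrank_sup_point a (not_le_of_inf a hUG b)]; omega)
    · rw [card_pts, smul_eq_mul, pow_succ', mul_assoc]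
      exact Nat.mul_le_mul_right _ (br_mono hG)

open Classical in
lemma card_between [Fintype K] [Finite V] (U Y : Submodule K V) (h : U ≤ Y) (k : ℕ)
    (hk : finrank K U ≤ k) :
    #((Gr K V k).filter (fun A => U ≤ A ∧ A ≤ Y)) =
      gauss K (finrank K Y - finrank K U) (k - finrank K U) := by
  have hU : finrank K (U.comap Y.subtype) = finrank K U :=
    (Submodule.comapSubtypeEquivOfLe h).finrank_eq
  have h1 := card_filter_ge (U.comap Y.subtype) k (by omega)
  rw [hU] at h1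
  rw [← h1]
  symm
  apply Finset.card_bij (fun A _ => A.map Y.subtype)
  · intro A hA
    rw [mem_filter, mem_Gr] at hA ⊢
    refine ⟨by rw [Submodule.finrank_map_subtype_eq, hA.1], ?_, Submodule.map_subtype_le Y A⟩
    have := Submodule.map_mono (f := Y.subtype) hA.2
    rwa [Submodule.map_comap_subtype, inf_eq_right.mpr h] at this
  · intro A _ B _ hAB
    exact Submodule.map_injective_of_injective Y.injective_subtype hAB
  · intro A hA
    rw [mem_filter, mem_Gr] at hA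
    refine ⟨A.comap Y.subtype, ?_, ?_⟩
    · rw [mem_filter, mem_Gr]
      exact ⟨by rw [(Submodule.comapSubtypeEquivOfLe hA.2.2).finrank_eq, hA.1],
        Submodule.comap_mono hA.2.1⟩
    · rw [Submodule.map_comap_subtype, inf_eq_right.mpr hA.2.2]

lemma deg_between [Fintype K] [Finite V] (W : Finset (Submodule K V)) (U Y : Submodule K V)
    (h : U ≤ Y) (k : ℕ) (hk : finrank K U ≤ k) (hd : ∀ A ∈ W, finrank K A = k)
    (hY : ∀ A ∈ W, U ≤ A → A ≤ Y) :
    deg W U ≤ gauss K (finrank K Y - finrank K U) (k - finrank K U) := by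
  classical
  rw [← card_between U Y h k hk]
  unfold deg
  apply card_le_card
  intro A hA
  simp only [mem_filter, mem_Gr] at hA ⊢
  exact ⟨hd A hA.1, hA.2, hY A hA.1 hA.2⟩

lemma finrank_sup_disj [Finite V] {A B : Submodule K V} (h : A ⊓ B = ⊥) :
    finrank K (A ⊔ B : Submodule K V) = finrank K A + finrank K B := by
  have := Submodule.finrank_sup_add_finrank_inf_eq A B
  rw [h, finrank_bot] at this
  omega

lemma disj_le [Finite V] {A B C : Submodule K V} (h : A ⊓ B = ⊥) (h1 : A ≤ C) (h2 : B ≤ C) :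
    finrank K A + finrank K B ≤ finrank K C := by
  rw [← finrank_sup_disj h]
  exact Submodule.finrank_mono (sup_le h1 h2)

lemma inf_bot_mono {A B A' B' : Submodule K V} (h : A ⊓ B = ⊥) (h1 : A' ≤ A) (h2 : B' ≤ B) :
    A' ⊓ B' = ⊥ := le_bot_iff.mp (h ▸ inf_le_inf h1 h2)

lemma swap_gen [Finite V] {U w x : Submodule K V} (hw : finrank K w = 1)
    (hx : finrank K x = 1) (hxU : ¬ x ≤ U) (h : x ≤ U ⊔ w) : w ≤ U ⊔ x := by
  have a1 := finrank_sup_point hx hxU
  have a2 := finrank_sup_pt_le (U := U) hw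
  have a3 : U ⊔ x = U ⊔ w := Submodule.eq_of_le_of_finrank_le (sup_le le_sup_left h) (by omega)
  rw [a3]
  exact le_sup_right

/-- a family of `k`-spaces in which every smaller space is missed by a member -/
structure FreeK (k : ℕ) (S : Finset (Submodule K V)) : Prop where
  int : MP_5499ac_co.Inter S
  dim : ∀ A ∈ S, finrank K A = k
  miss : ∀ U : Submodule K V, finrank K U < k → U ≠ ⊥ → ∃ G ∈ S, U ⊓ G = ⊥

lemma ne_bot_of_rank {U : Submodule K V} (h : 1 ≤ finrank K U) : U ≠ ⊥ := by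
  rintro rfl
  simp at h

lemma FreeK.last [Fintype K] [Finite V] {j : ℕ} {S : Finset (Submodule K V)} (h : FreeK (j + 3) S)
    (U : Submodule K V) (hU : finrank K U = j + 2) : deg S U ≤ br (Fintype.card K) (j + 3) := by
  obtain ⟨G, hG, hUG⟩ := h.miss U (by omega) (ne_bot_of_rank (by omega))
  have := deg_step S U G 1 (fun A hA => h.int A hA G hG) (fun X hX hXG => deg_le_one S _ h.dim _ (by
    rw [finrank_sup_point hX (not_le_of_inf hX hUG hXG), hU]))
  rwa [mul_one, h.dim G hG] at this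

lemma bad_num {q j a b e : ℕ} (hq : 2 ≤ q) (ha : a ≤ j + 2) (hb : b ≤ j + 2) (he : e ≤ j)
    (h : a + b ≤ j + 3 + e) : br q a + br q b + br q j ≤ br q (j + 2) + br q (j + 1) + br q e := by
  have t1 : 2 * br q j ≤ br q (j + 1) := by
    have := br_le_pow hq j
    rw [br_succ]; omega
  have t2 : 2 * br q (j + 1) ≤ br q (j + 2) := by
    have := br_le_pow hq (j + 1)
    rw [br_succ q (j + 1)]; omega
  have a1 : br q a ≤ br q (j + 2) := br_mono ha
  have b1 : br q b ≤ br q (j + 2) := br_mono hb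
  by_cases h1 : b ≤ j
  · have : br q b ≤ br q j := br_mono h1
    omega
  by_cases h2 : a ≤ j
  · have : br q a ≤ br q j := br_mono h2
    omega
  rcases (show (a = j + 1 ∧ b = j + 1) ∨ (a = j + 2 ∧ b = j + 1 ∧ e = j) ∨
    (a = j + 1 ∧ b = j + 2 ∧ e = j) by omega) with ⟨rfl, rfl⟩ | ⟨rfl, rfl, rfl⟩ | ⟨rfl, rfl, rfl⟩
  all_goals omega

lemma FreeK.three [Fintype K] [Finite V] {j : ℕ} {S : Finset (Submodule K V)} (h : FreeK (j + 3) S)
    {U G0 G1 : Submodule K V} (hU : finrank K U = j + 1) (h0 : G0 ∈ S) (h1 : G1 ∈ S)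
    (p0 : U ⊓ G0 = ⊥) (p1 : U ⊓ G1 = ⊥)
    (hs : finrank K ((G0 ⊔ U) ⊓ (G1 ⊔ U) : Submodule K V) ≤ 2 * j + 2) :
    deg S U ≤ br (Fintype.card K) (j + 3) * br (Fintype.card K) (j + 2) +
      (br (Fintype.card K) (j + 2) + br (Fintype.card K) (j + 1) - br (Fintype.card K) j) *
        Fintype.card K ^ (j + 2) := by
  classical
  have hq := two_le_card K
  set U0 := G0 ⊔ U with hU0
  set U1 := G1 ⊔ U with hU1
  have d0 : finrank K U0 = 2 * j + 4 := by
    rw [hU0, finrank_sup_disj (by rw [inf_comm]; exact p0), h.dim G0 h0, hU]; ring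
  have d1 : finrank K U1 = 2 * j + 4 := by
    rw [hU1, finrank_sup_disj (by rw [inf_comm]; exact p1), h.dim G1 h1, hU]; ring
  obtain ⟨z, hz, hzG⟩ := exists_point_le (h.int G0 h0 G1 h1)
  have dz := finrank_sup_point hz (not_le_of_inf hz p0 (hzG.trans inf_le_left))
  obtain ⟨G2, h2, hL⟩ := h.miss (U ⊔ z) (by omega) (ne_bot_of_rank (by omega))
  have z0 : U ⊔ z ≤ U0 := sup_le le_sup_right ((hzG.trans inf_le_left).trans le_sup_left)
  have z1 : U ⊔ z ≤ U1 := sup_le le_sup_right ((hzG.trans inf_le_right).trans le_sup_left)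
  have a0 := deg_pts S U G2 (fun A hA => h.int A hA G2 h2)
  have d10 : finrank K (G1 ⊓ U0 : Submodule K V) ≤ j + 1 := by
    have := disj_le (inf_bot_mono p1 le_rfl (inf_le_left : G1 ⊓ U0 ≤ G1))
      (le_inf le_sup_right le_sup_right : U ≤ U0 ⊓ U1)
      (le_inf inf_le_right (inf_le_left.trans le_sup_left))
    omega
  set bad := pts (G2 ⊓ U0) ∪ pts (G2 ⊓ U1) with hbad
  have a1 : ∀ w ∈ pts G2, deg S (U ⊔ w) ≤ br (Fintype.card K) (j + 2) +
      if w ∈ bad then Fintype.card K ^ (j + 2) else 0 := by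
    intro w hw
    obtain ⟨hw1, hw2⟩ := mem_pts.1 hw
    have wP : ¬ w ≤ U := fun h' => not_le_of_inf hw1 hL hw2 (h'.trans le_sup_left)
    have dl : finrank K (U ⊔ w : Submodule K V) = j + 2 := by rw [finrank_sup_point hw1 wP, hU]
    split_ifs with hb
    · have := h.last _ dl
      rwa [br_succ] at this
    · simp only [hbad, mem_union, mem_pts, hw1, true_and, le_inf_iff, hw2, not_or] at hb
      have b1 := deg_le_sum S (U ⊔ w) (pts (G1 ⊓ (U0 ⊔ w))) (fun A hA hle => by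
        obtain ⟨x, hx1, hx⟩ := exists_point_le (h.int A hA G0 h0)
        obtain ⟨y, hy1, hy⟩ := exists_point_le (h.int A hA G1 h1)
        have c1 : ¬ x ≤ U ⊔ w := fun h' => hb.1
          ((swap_gen hw1 hx1 (not_le_of_inf hx1 p0 (hx.trans inf_le_right)) h').trans
            (sup_le le_sup_right ((hx.trans inf_le_right).trans le_sup_left)))
        have c2 : U ⊔ w ⊔ x = A := Submodule.eq_of_le_of_finrank_le
          (sup_le hle (hx.trans inf_le_left)) (by rw [finrank_sup_point hx1 c1, dl, h.dim A hA])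
        have c3 : A ≤ U0 ⊔ w := by
          rw [← c2]
          exact sup_le (sup_le (le_sup_right.trans le_sup_left) le_sup_right)
            (((hx.trans inf_le_right).trans le_sup_left).trans le_sup_left)
        exact ⟨y, mem_pts.2 ⟨hy1, le_inf (hy.trans inf_le_right) ((hy.trans inf_le_left).trans c3)⟩,
          hy.trans inf_le_left⟩)
      have b2 : ∀ y ∈ pts (G1 ⊓ (U0 ⊔ w)), deg S (U ⊔ w ⊔ y) ≤ 1 := by
        intro y hy
        obtain ⟨hy1, hy2⟩ := mem_pts.1 hy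
        have c1 : ¬ y ≤ U ⊔ w := fun h' => hb.2
          ((swap_gen hw1 hy1 (not_le_of_inf hy1 p1 (hy2.trans inf_le_left)) h').trans
            (sup_le le_sup_right ((hy2.trans inf_le_left).trans le_sup_left)))
        exact deg_le_one S _ h.dim _ (by rw [finrank_sup_point hy1 c1, dl])
      have b3 := b1.trans (sum_le_card_nsmul _ _ 1 b2)
      rw [card_pts, smul_eq_mul, mul_one] at b3
      have b4 := inf_sup_pt G1 U0 w hw1
      have b5 : br (Fintype.card K) (finrank K (G1 ⊓ (U0 ⊔ w) : Submodule K V)) ≤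
          br (Fintype.card K) (j + 2) := br_mono (by omega)
      omega
  have a2 : bad.card ≤ br (Fintype.card K) (j + 2) + br (Fintype.card K) (j + 1) -
      br (Fintype.card K) j := by
    have c0 := card_union_add_card_inter (pts (G2 ⊓ U0)) (pts (G2 ⊓ U1))
    have c00 : pts (G2 ⊓ U0) ∩ pts (G2 ⊓ U1) = pts (G2 ⊓ U0 ⊓ (G2 ⊓ U1)) := by
      ext X
      simp only [mem_inter, mem_pts, le_inf_iff]
      tauto
    rw [c00, card_pts, card_pts, card_pts, ← hbad] at c0
    have c1 := Submodule.finrank_sup_add_finrank_inf_eq (G2 ⊓ U0) (G2 ⊓ U1)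
    have c3 : finrank K (G2 ⊓ U0 ⊔ G2 ⊓ U1 : Submodule K V) ≤ j + 3 :=
      h.dim G2 h2 ▸ Submodule.finrank_mono (sup_le inf_le_left inf_le_left)
    have c4 := disj_le (inf_bot_mono hL le_rfl (inf_le_left : G2 ⊓ U0 ≤ G2)) z0 inf_le_right
    have c5 := disj_le (inf_bot_mono hL le_rfl (inf_le_left : G2 ⊓ U1 ≤ G2)) z1 inf_le_right
    have c6 := disj_le (inf_bot_mono hL le_rfl
      (inf_le_left.trans inf_le_left : G2 ⊓ U0 ⊓ (G2 ⊓ U1) ≤ G2)) (le_inf z0 z1)
      (inf_le_inf inf_le_right inf_le_right)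
    have c7 := bad_num (j := j) (a := finrank K (G2 ⊓ U0 : Submodule K V))
      (b := finrank K (G2 ⊓ U1 : Submodule K V))
      (e := finrank K (G2 ⊓ U0 ⊓ (G2 ⊓ U1) : Submodule K V)) hq (by omega) (by omega) (by omega)
      (by omega)
    omega
  refine a0.trans ((sum_le_sum a1).trans ?_)
  rw [sum_add_distrib, sum_const, card_pts, h.dim G2 h2, smul_eq_mul, ← sum_filter, sum_const,
    smul_eq_mul]
  refine Nat.add_le_add_left (Nat.mul_le_mul_right _ (le_trans (card_le_card ?_) a2)) _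
  intro w hw
  exact (mem_filter.mp hw).2

lemma supd [Finite V] {d : ℕ} {U X1 X2 Y : Submodule K V} (hU : finrank K U = d + 2) (h1 : X1 ≤ U)
    (h2 : X2 ≤ U) (d1 : d + 1 ≤ finrank K X1) (d2 : d + 1 ≤ finrank K X2)
    (d3 : finrank K (X1 ⊓ X2 : Submodule K V) ≤ d) (y1 : X1 ≤ Y) (y2 : X2 ≤ Y) : U ≤ Y := by
  have a1 := Submodule.finrank_sup_add_finrank_inf_eq X1 X2
  have a2 : X1 ⊔ X2 = U := Submodule.eq_of_le_of_finrank_le (sup_le h1 h2) (by omega)
  rw [← a2]
  exact sup_le y1 y2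

lemma FreeK.five [Fintype K] [Finite V] {j : ℕ} {S : Finset (Submodule K V)} (h : FreeK (j + 3) S)
    {U : Submodule K V} (hU : finrank K U = j + 1)
    (hb : ∀ G0 ∈ S, ∀ G1 ∈ S, U ⊓ G0 = ⊥ → U ⊓ G1 = ⊥ →
      2 * j + 3 ≤ finrank K ((G0 ⊔ U) ⊓ (G1 ⊔ U) : Submodule K V)) :
    deg S U ≤ gauss K (j + 4) 2 := by
  have d4 : ∀ G ∈ S, U ⊓ G = ⊥ → finrank K (G ⊔ U : Submodule K V) = 2 * j + 2 + 2 :=
    fun G hG hPG => by
      rw [finrank_sup_disj (by rw [inf_comm]; exact hPG), h.dim G hG, hU]; ring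
  have out : ∀ M : Submodule K V, U ≤ M → j + 2 ≤ finrank K M →
      ∃ G ∈ S, U ⊓ G = ⊥ ∧ ¬ M ≤ G ⊔ U := by
    intro M hPM hM
    obtain ⟨x, x1, hx, x2⟩ := exists_pt_out M U (by omega)
    have dl := finrank_sup_point x1 x2
    obtain ⟨G, hG, hLG⟩ := h.miss (U ⊔ x) (by omega) (ne_bot_of_rank (by omega))
    have hPG : U ⊓ G = ⊥ := inf_bot_mono hLG le_sup_left le_rfl
    refine ⟨G, hG, hPG, fun hle => ?_⟩
    have a1 := disj_le hLG (sup_le le_sup_right (hx.trans hle)) (le_sup_left : G ≤ G ⊔ U)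
    rw [d4 G hG hPG, h.dim G hG] at a1
    omega
  obtain ⟨G0, h0, p0⟩ := h.miss U (by omega) (ne_bot_of_rank (by omega))
  obtain ⟨G1, h1, p1, n1⟩ := out (G0 ⊔ U) le_sup_right (by rw [d4 G0 h0 p0]; omega)
  set U0 := G0 ⊔ U with hU0
  set U1 := G1 ⊔ U with hU1
  have e0 : finrank K U0 = 2 * j + 2 + 2 := d4 G0 h0 p0
  have e1 : finrank K U1 = 2 * j + 2 + 2 := d4 G1 h1 p1
  have m1 : 2 * j + 3 ≤ finrank K (U0 ⊓ U1 : Submodule K V) := hb G0 h0 G1 h1 p0 p1
  have m2 : finrank K (U0 ⊓ U1 : Submodule K V) ≤ 2 * j + 3 := by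
    have : U0 ⊓ U1 < U0 := lt_of_le_of_ne inf_le_left fun h' => n1 (inf_eq_left.mp h')
    have := Submodule.finrank_lt_finrank_of_lt this
    omega
  have small : ∀ Z : Submodule K V, ¬ U0 ⊓ U1 ≤ Z →
      finrank K (U0 ⊓ U1 ⊓ Z : Submodule K V) ≤ 2 * j + 2 := by
    intro Z hZ
    have : U0 ⊓ U1 ⊓ Z < U0 ⊓ U1 := lt_of_le_of_ne inf_le_left fun h' => hZ (inf_eq_left.mp h')
    have := Submodule.finrank_lt_finrank_of_lt this
    omega
  have first : ∀ G ∈ S, U ⊓ G = ⊥ → ¬ U0 ⊓ U1 ≤ G ⊔ U → G ⊔ U ≤ U0 ⊔ U1 := by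
    intro G hG hPG hM
    refine supd (X1 := (G ⊔ U) ⊓ U0) (X2 := (G ⊔ U) ⊓ U1) (d4 G hG hPG) inf_le_left inf_le_left
      (hb G hG G0 h0 hPG p0) (hb G hG G1 h1 hPG p1)
      (le_trans (Submodule.finrank_mono ?_) (small _ hM))
      (inf_le_right.trans le_sup_left) (inf_le_right.trans le_sup_right)
    exact le_inf (inf_le_inf inf_le_right inf_le_right) (inf_le_left.trans inf_le_left)
  obtain ⟨G2, h2, p2, n2⟩ := out (U0 ⊓ U1) (le_inf le_sup_right le_sup_right) (by omega)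
  have off : ∀ G ∈ S, U ⊓ G = ⊥ → G ⊔ U ≤ U0 ⊔ U1 := by
    intro G hG hPG
    by_cases hM : U0 ⊓ U1 ≤ G ⊔ U
    · refine supd (X1 := U0 ⊓ U1) (X2 := (G ⊔ U) ⊓ (G2 ⊔ U)) (d4 G hG hPG) hM inf_le_left m1
        (hb G hG G2 h2 hPG p2) (le_trans (Submodule.finrank_mono ?_) (small _ n2))
        (inf_le_left.trans le_sup_left) (inf_le_right.trans (first G2 h2 p2 n2))
      exact inf_le_inf_left _ inf_le_right
    · exact first G hG hPG hM
  have dY : finrank K (U0 ⊔ U1 : Submodule K V) = 2 * j + 5 := by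
    have a1 := Submodule.finrank_sup_add_finrank_inf_eq U0 U1
    omega
  have := deg_between S U (U0 ⊔ U1) (le_sup_right.trans le_sup_left) (j + 3) (by omega) h.dim
    (fun A hA hPA => by
      by_contra hAY
      have a1 : A ⊓ (U0 ⊔ U1) < A := lt_of_le_of_ne inf_le_left fun h' => hAY (inf_eq_left.mp h')
      have a2 := Submodule.finrank_lt_finrank_of_lt a1
      rw [h.dim A hA] at a2
      have a3 : U ≤ A ⊓ (U0 ⊔ U1) := le_inf hPA (le_sup_right.trans le_sup_left)
      have a4 := Submodule.finrank_mono a3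
      obtain ⟨G, hG, hLG⟩ := h.miss (A ⊓ (U0 ⊔ U1)) a2 (ne_bot_of_rank (by omega))
      refine h.int A hA G hG (le_bot_iff.mp (hLG ▸ le_inf (le_inf inf_le_left ?_) inf_le_right))
      exact inf_le_right.trans (le_sup_left.trans (off G hG (inf_bot_mono hLG a3 le_rfl))))
  rwa [dY, hU, show 2 * j + 5 - (j + 1) = j + 4 by omega, show j + 3 - (j + 1) = 2 by omega] at this

/-- point degrees in a family without small covers -/
theorem FreeK.point [Fintype K] [Finite V] {j : ℕ} {S : Finset (Submodule K V)}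
    (h : FreeK (j + 3) S) (D : ℕ)
    (h1 : br (Fintype.card K) (j + 3) * br (Fintype.card K) (j + 2) +
      (br (Fintype.card K) (j + 2) + br (Fintype.card K) (j + 1) - br (Fintype.card K) j) *
        Fintype.card K ^ (j + 2) ≤ D)
    (h2 : br (Fintype.card K) (j + 4) * br (Fintype.card K) (j + 3) ≤ D * br (Fintype.card K) 2)
    (P : Submodule K V) (hP : finrank K P = 1) :
    deg S P ≤ br (Fintype.card K) (j + 3) ^ j * D := by
  refine down (deg S) (j + 3) (j + 1) D P (fun U hPU hU => ?_) (fun U _ hU => ?_) j P le_rfl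
    (by omega)
  · have := Submodule.finrank_mono hPU
    obtain ⟨G, hG, hUG⟩ := h.miss U (by omega) (ne_bot_of_rank (by omega))
    exact Or.inr ⟨G, (h.dim G hG).le, hUG, deg_pts S U G fun A hA => h.int A hA G hG⟩
  by_cases hb : ∀ G0 ∈ S, ∀ G1 ∈ S, U ⊓ G0 = ⊥ → U ⊓ G1 = ⊥ →
      2 * j + 3 ≤ finrank K ((G0 ⊔ U) ⊓ (G1 ⊔ U) : Submodule K V)
  · refine (h.five hU hb).trans ?_
    have a2 := gauss_succ (K := K) (j + 3) 1
    rw [gauss_one] at a2
    exact Nat.le_of_mul_le_mul_right (a2.trans_le h2) (br_pos (by norm_num))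
  · push Not at hb
    obtain ⟨G0, a0, G1, a1, p0, p1, hs⟩ := hb
    exact (h.three hU a0 a1 p0 p1 (by omega)).trans h1

end Pool.Agent.Lib.MP_e960f8_co
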