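import Pool.Agent.Lib.MP_e960f8_co.G1

/-! One maximal family: chains, covers and layers. -/

namespace Pool.Agent.Lib.MP_e960f8_co

open Module Finset Pool.Agent.Lib.MP_5499ac_co

universe u v

variable {K : Type u} [Field K] {V : Type v} [AddCommGroup V] [Module K V]

/-- a maximal intersecting family of spaces of dimension at most `k` -/
structure Mx (k : ℕ) (S : Finset (Submodule K V)) : Prop where
  int : MP_5499ac_co.Inter S
  dim : ∀ A ∈ S, finrank K A ≤ k
  mx : ∀ U : Submodule K V, finrank K U ≤ k → U ≠ ⊥ → U ∉ S → ∃ G ∈ S, U ⊓ G = ⊥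

/-- at most `N` chains lead from `P` to the level `r` -/
def Nodes [Finite V] (S : Finset (Submodule K V)) (P : Submodule K V) (r N : ℕ) : Prop :=
  ∀ φ : Submodule K V → ℕ, (∀ U, ∀ G ∈ S, φ U ≤ ∑ X ∈ pts G, φ (U ⊔ X)) → ∀ D : ℕ,
    (∀ U : Submodule K V, P ≤ U → finrank K U = r → φ U ≤ D) → φ P ≤ N * D

lemma nodes_two [Fintype K] [Finite V] (S : Finset (Submodule K V)) (P : Submodule K V)
    (hP : finrank K P = 1) (g1 g2 a b : ℕ)
    (h1 : ∀ U : Submodule K V, P ≤ U → finrank K U < 1 + a → ∃ G ∈ S, finrank K G ≤ g1 ∧ U ⊓ G = ⊥)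
    (h2 : ∀ U : Submodule K V, P ≤ U → finrank K U < 1 + a + b →
      ∃ G ∈ S, finrank K G ≤ g2 ∧ U ⊓ G = ⊥) :
    Nodes S P (1 + a + b) (br (Fintype.card K) g1 ^ a * br (Fintype.card K) g2 ^ b) := by
  intro φ hφ D hD
  rw [mul_assoc]
  refine down φ g1 (1 + a) _ P (fun U a1 a2 => ?_) (fun U a1 a2 => ?_) a P le_rfl (by omega)
  · obtain ⟨G, b1, b2, b3⟩ := h1 U a1 a2
    exact Or.inr ⟨G, b2, b3, hφ U G b1⟩
  · refine down φ g2 (1 + a + b) D P (fun U a1 a2 => ?_) hD b U a1 (by omega)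
    obtain ⟨G, b1, b2, b3⟩ := h2 U a1 a2
    exact Or.inr ⟨G, b2, b3, hφ U G b1⟩

lemma first_step [Finite V] {S : Finset (Submodule K V)} {P G : Submodule K V} {g : ℕ}
    (hP : finrank K P = 1) (hG : G ∈ S) (hg : finrank K G ≤ g) (h : ¬ P ≤ G) :
    ∀ U : Submodule K V, P ≤ U → finrank K U < 1 + 1 → ∃ G ∈ S, finrank K G ≤ g ∧ U ⊓ G = ⊥ := by
  intro U h1 h2
  have : P = U := Submodule.eq_of_le_of_finrank_le h1 (by omega)
  exact ⟨G, hG, hg, this ▸ pt_inf_bot hP h⟩

open Classical in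
/-- members of dimension `r` -/
noncomputable def lev (S : Finset (Submodule K V)) (r : ℕ) : Finset (Submodule K V) :=
  S.filter (fun A => finrank K A = r)

lemma mem_lev {S : Finset (Submodule K V)} {r : ℕ} {A : Submodule K V} :
    A ∈ lev S r ↔ A ∈ S ∧ finrank K A = r := by
  classical
  simp [lev]

lemma deg_above [Finite V] (F T : Finset (Submodule K V)) (P : Submodule K V) (c : ℕ)
    (hc : ∀ B ∈ T, deg F B ≤ c) (F1 : Finset (Submodule K V)) (h1 : F1 ⊆ F)
    (h : ∀ A ∈ F1, ∃ B ∈ T, P ≤ B ∧ B ≤ A) : deg F1 P ≤ deg T P * c := by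
  classical
  have a1 := deg_le_sum F1 P (T.filter (P ≤ ·)) (fun A hA _ => by
    obtain ⟨B, b1, b2, b3⟩ := h A hA
    exact ⟨B, mem_filter.mpr ⟨b1, b2⟩, b3⟩)
  refine a1.trans ((sum_le_card_nsmul _ _ c fun B hB => ?_).trans ?_)
  · rw [sup_eq_right.mpr (mem_filter.mp hB).2]
    exact (deg_mono h1 B).trans (hc B (mem_filter.mp hB).1)
  · rw [smul_eq_mul]
    unfold deg
    apply le_of_eq
    congr

lemma deg_split (F : Finset (Submodule K V)) (p : Submodule K V → Prop) [DecidablePred p]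
    (P : Submodule K V) : deg F P ≤ deg (F.filter p) P + deg (F.filter (fun A => ¬ p A)) P := by
  classical
  unfold deg
  refine le_trans (card_le_card ?_) (card_union_le _ _)
  intro A hA
  simp only [mem_filter, mem_union] at hA ⊢
  tauto

lemma deg_zero {W : Finset (Submodule K V)} {U : Submodule K V} (h : ∀ A ∈ W, ¬ U ≤ A) :
    deg W U = 0 := by
  classical
  unfold deg
  rw [card_eq_zero, filter_eq_empty_iff]
  exact h

lemma core [Fintype K] [Finite V] {S F : Finset (Submodule K V)} (hS : MP_5499ac_co.Inter S)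
    (hF : F ⊆ S) {P : Submodule K V} {r N : ℕ} (hN : Nodes S P r N) (a c : ℕ)
    (ha : ∀ U : Submodule K V, P ≤ U → finrank K U = r → U ∉ S → deg F U ≤ a)
    (hc : ∀ U : Submodule K V, finrank K U = r → deg F U ≤ c) :
    deg F P + deg (lev S r) P * a ≤ deg (lev S r) P * c + N * a := by
  classical
  have a1 := deg_split F (fun A => ∃ B ∈ lev S r, P ≤ B ∧ B ≤ A) P
  have a2 := deg_above F (lev S r) P c (fun B hB => hc B (mem_lev.1 hB).2) _ (filter_subset _ _)
    (fun A hA => (mem_filter.mp hA).2 :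
      ∀ A ∈ F.filter (fun A => ∃ B ∈ lev S r, P ≤ B ∧ B ≤ A), ∃ B ∈ lev S r, P ≤ B ∧ B ≤ A)
  set F2 := F.filter (fun A => ¬ ∃ B ∈ lev S r, P ≤ B ∧ B ≤ A) with hF2
  have a3 := hN (fun U => deg F2 U + deg (lev S r) U * a) (fun U G hG => by
    rw [sum_add_distrib, ← sum_mul]
    exact Nat.add_le_add (deg_pts _ U G fun A hA => hS A (hF (mem_filter.mp hA).1) G hG)
      (Nat.mul_le_mul_right _ (deg_pts _ U G fun A hA => hS A (mem_lev.1 hA).1 G hG))) a
    (fun U hPU hU => by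
      by_cases h : U ∈ S
      · have b1 : deg F2 U = 0 := deg_zero fun A hA hUA =>
          (mem_filter.mp hA).2 ⟨U, mem_lev.2 ⟨h, hU⟩, hPU, hUA⟩
        have b2 := deg_le_one (lev S r) r (fun A hA => (mem_lev.1 hA).2) U hU.ge
        have b3 := Nat.mul_le_mul_right a b2
        omega
      · have b1 : deg (lev S r) U = 0 := deg_zero fun A hA hUA => h (by
          rw [Submodule.eq_of_le_of_finrank_le hUA (by rw [(mem_lev.1 hA).2, hU])]
          exact (mem_lev.1 hA).1)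
        have b2 : deg F2 U ≤ a := (deg_mono (filter_subset _ _) U).trans (ha U hPU hU h)
        rw [b1]
        omega)
  omega

lemma Mx.out [Fintype K] [Finite V] {k : ℕ} {S W : Finset (Submodule K V)} (h : Mx k S) (hW : W ⊆ S)
    {U : Submodule K V} (h1 : 1 ≤ finrank K U) (h2 : finrank K U ≤ k) (hU : U ∉ S) (D : ℕ)
    (hD : ∀ U' : Submodule K V, finrank K U' = finrank K U + 1 → deg W U' ≤ D) :
    deg W U ≤ br (Fintype.card K) k * D := by
  obtain ⟨G, hG, hUG⟩ := h.mx U h2 (ne_bot_of_rank h1) hU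
  exact (deg_step W U G D (fun A hA => h.int A (hW hA) G hG) fun X hX hXG =>
    hD _ (finrank_sup_point hX (not_le_of_inf hX hUG hXG))).trans
    (Nat.mul_le_mul_right _ (br_mono (h.dim G hG)))

lemma cover_bound [Fintype K] [Finite V] (T : Finset (Submodule K V)) (hT : MP_5499ac_co.Inter T)
    (r g t0 : ℕ) (hr : 2 ≤ r) (hd : ∀ A ∈ T, finrank K A = r) (hne : T.Nonempty)
    (ho : ∀ U : Submodule K V, 1 ≤ finrank K U → finrank K U < r →
      ∃ G : Submodule K V, finrank K G ≤ g ∧ U ⊓ G = ⊥ ∧ ∀ A ∈ T, A ⊓ G ≠ ⊥)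
    (h1 : br (Fintype.card K) g ^ (r - 2) ≤ t0)
    (h2 : ∀ τ < r + 1, 2 ≤ τ → br (Fintype.card K) τ *
      (br (Fintype.card K) r ^ (τ - 2) * br (Fintype.card K) g ^ (r - τ)) ≤ t0) :
    ∃ C : Submodule K V, finrank K C ≤ r ∧
      ∀ P : Submodule K V, finrank K P = 1 → ¬ P ≤ C → deg T P ≤ t0 := by
  classical
  obtain ⟨A0, hA0⟩ := hne
  have ex : ∃ τ, ∃ C : Submodule K V, finrank K C = τ ∧ ∀ A ∈ T, A ⊓ C ≠ ⊥ :=
    ⟨r, A0, hd A0 hA0, fun A hA => hT A hA A0 hA0⟩
  obtain ⟨C, hC, hcov⟩ := Nat.find_spec ex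
  have hle : Nat.find ex ≤ r := Nat.find_min' ex ⟨A0, hd A0 hA0, fun A hA => hT A hA A0 hA0⟩
  have hmin : ∀ U : Submodule K V, finrank K U < Nat.find ex → ∃ A ∈ T, A ⊓ U = ⊥ := by
    intro U hU
    have := Nat.find_min ex hU
    push Not at this
    exact this U rfl
  set τ := Nat.find ex
  refine ⟨C, by omega, fun P hP hPC => ?_⟩
  have up : ∀ (d : ℕ) (U : Submodule K V), P ≤ U → finrank K U + d = r →
      deg T U ≤ br (Fintype.card K) g ^ d := by
    intro d U a1 a2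
    have := down (deg T) g r 1 P (fun U b1 b2 => by
      have := Submodule.finrank_mono b1
      obtain ⟨G, c1, c2, c3⟩ := ho U (by omega) b2
      exact Or.inr ⟨G, c1, c2, deg_pts T U G c3⟩) (fun U _ b2 => deg_le_one T r hd U b2.ge) d U a1 a2
    rwa [mul_one] at this
  have dl : ∀ X : Submodule K V, finrank K X = 1 → X ≤ C →
      finrank K (P ⊔ X : Submodule K V) = 2 := fun X hX hXC => by
    rw [finrank_sup_point hX (fun h => hPC (pt_eq hX hP h ▸ hXC)), hP]
  by_cases h : 2 ≤ τ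
  · refine le_trans ?_ (h2 τ (by omega) h)
    have := deg_step T P C (br (Fintype.card K) r ^ (τ - 2) * br (Fintype.card K) g ^ (r - τ)) hcov
      (fun X hX hXC => down (deg T) r τ _ P (fun U _ b2 => by
        obtain ⟨G, c1, c2⟩ := hmin U b2
        exact Or.inr ⟨G, (hd G c1).le, by rw [inf_comm]; exact c2,
          deg_pts T U G fun A hA => hT A hA G c1⟩) (fun U b1 b2 => up _ U b1 (by omega)) (τ - 2) _
        le_sup_left (by rw [dl X hX hXC]; omega))
    rwa [hC] at this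
  · have := deg_step T P C (br (Fintype.card K) g ^ (r - 2)) hcov
      (fun X hX hXC => up _ _ le_sup_left (by rw [dl X hX hXC]; omega))
    have b1 : br (Fintype.card K) (finrank K C) ≤ 1 := (br_mono (by omega)).trans_eq (br_one _)
    exact this.trans ((Nat.mul_le_mul_right _ b1).trans (by omega))

lemma trick [Fintype K] [Finite V] (T : Finset (Submodule K V)) (hT : MP_5499ac_co.Inter T)
    (g : ℕ) (hg : 2 ≤ g) (hd : ∀ A ∈ T, finrank K A ≤ g)
    (hp : ∀ E : Submodule K V, finrank K E = 1 → ∃ A ∈ T, ¬ E ≤ A)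
    (L : Submodule K V) (hL : finrank K L = 2) (hc : ∀ A ∈ T, A ⊓ L ≠ ⊥) :
    ∃ Y : Submodule K V, finrank K Y ≤ g + 1 ∧ ∀ P : Submodule K V, finrank K P = 1 → ¬ P ≤ Y →
      ∀ X : Submodule K V, finrank K X = 1 → X ≤ L → finrank K (P ⊔ X : Submodule K V) = 2 ∧
        ∃ G : Submodule K V, finrank K G ≤ g ∧ (P ⊔ X) ⊓ G = ⊥ ∧ ∀ A ∈ T, A ⊓ G ≠ ⊥ := by
  classical
  obtain ⟨S, hTS, hS, hSd, hmax⟩ := exists_max g (insert L T) (fun A hA B hB => by
    rcases mem_insert.mp hA with hA' | hA'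
    · rcases mem_insert.mp hB with hB' | hB'
      · rw [hA', hB', inf_idem]; exact ne_bot_of_rank (by omega)
      · rw [hA', inf_comm]; exact hc B hB'
    · rcases mem_insert.mp hB with hB' | hB'
      · rw [hB']; exact hc A hA'
      · exact hT A hA' B hB') (fun A hA => by
    rcases mem_insert.mp hA with hA' | hA'
    · rw [hA']; omega
    · exact hd A hA')
  have sub : ∀ A ∈ T, A ∈ S := fun A hA => hTS (mem_insert_of_mem hA)
  obtain ⟨Y, hY, hTY⟩ := lines_in (lev S 2)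
    (fun A hA B hB => hS A (mem_lev.1 hA).1 B (mem_lev.1 hB).1)
    (fun A hA => (mem_lev.1 hA).2) g (by omega) (fun E hE => by
      obtain ⟨G, hG, hEG⟩ := hp E hE
      exact ⟨G, hd G hG, hEG, fun A hA => hS A (mem_lev.1 hA).1 G (sub G hG)⟩)
  refine ⟨Y, hY, fun P hP hPY X hX hXL => ?_⟩
  have b1 : ¬ X ≤ P := fun h => hPY
    (pt_eq hX hP h ▸ hXL.trans (hTY L (mem_lev.2 ⟨hTS (mem_insert_self _ _), hL⟩)))
  have b2 : finrank K (P ⊔ X : Submodule K V) = 2 := by rw [finrank_sup_point hX b1, hP]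
  obtain ⟨G, hG, hUG⟩ := hmax (P ⊔ X) (by omega) (ne_bot_of_rank (by omega))
    (fun h => hPY (le_sup_left.trans (hTY _ (mem_lev.2 ⟨h, b2⟩))))
  exact ⟨b2, G, hSd G hG, hUG, fun A hA => hS A (sub A hA) G hG⟩

lemma high_two [Fintype K] [Finite V] (F : Finset (Submodule K V)) (c a b : ℕ) (A B : Submodule K V)
    (hA : finrank K A ≤ a) (hB : finrank K B ≤ b)
    (h : ∀ P : Submodule K V, finrank K P = 1 → ¬ P ≤ A → ¬ P ≤ B → deg F P ≤ c) :
    #(high F c) ≤ br (Fintype.card K) a + br (Fintype.card K) b := by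
  classical
  have hsub : high F c ⊆ pts A ∪ pts B := by
    intro P hP
    rw [mem_high] at hP
    by_contra hc
    simp only [mem_union, mem_pts, hP.1, true_and, not_or] at hc
    have := h P hP.1 hc.1 hc.2
    omega
  refine (card_le_card hsub).trans ((card_union_le _ _).trans ?_)
  rw [card_pts, card_pts]
  exact Nat.add_le_add (br_mono hA) (br_mono hB)

/-- the least dimension in `S` is `k - 1` -/
theorem near_top [Fintype K] [Finite V] {j : ℕ} {S F : Finset (Submodule K V)} (hS : Mx (j + 3) S)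
    (hF : F ⊆ S) (hd : ∀ A ∈ F, finrank K A = j + 3) (hm : ∀ A ∈ S, j + 2 ≤ finrank K A)
    (G : Submodule K V) (hG : G ∈ S) (hGd : finrank K G = j + 2) (hj : 1 ≤ j) (t0 κ B : ℕ)
    (h1 : br (Fintype.card K) (j + 3) ^ j ≤ t0)
    (h2 : ∀ τ < j + 2 + 1, 2 ≤ τ → br (Fintype.card K) τ * (br (Fintype.card K) (j + 2) ^ (τ - 2) *
      br (Fintype.card K) (j + 3) ^ (j + 2 - τ)) ≤ t0)
    (h3 : cc K (finrank K V) (j + 3) (j + 2) ≤ br (Fintype.card K) (j + 3) + κ)
    (h4 : t0 * κ + br (Fintype.card K) (j + 2) * br (Fintype.card K) (j + 3) ^ (j + 1) ≤ B) :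
    #(high F B) ≤ br (Fintype.card K) (j + 4) := by
  have hq := two_le_card K
  have ho : ∀ U : Submodule K V, 1 ≤ finrank K U → finrank K U < j + 2 →
      ∃ G ∈ S, finrank K G ≤ j + 3 ∧ U ⊓ G = ⊥ := fun U a1 a2 => by
    obtain ⟨G, b1, b2⟩ := hS.mx U (by omega) (ne_bot_of_rank a1) (fun h => by
      have := hm U h
      omega)
    exact ⟨G, b1, hS.dim G b1, b2⟩
  obtain ⟨C, hC, hCP⟩ := cover_bound (lev S (j + 2))
    (fun A hA B hB => hS.int A (mem_lev.1 hA).1 B (mem_lev.1 hB).1) (j + 2) (j + 3) t0 (by omega)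
    (fun A hA => (mem_lev.1 hA).2) ⟨G, mem_lev.2 ⟨hG, hGd⟩⟩ (fun U a1 a2 => by
      obtain ⟨G, b1, b2, b3⟩ := ho U a1 a2
      exact ⟨G, b2, b3, fun A hA => hS.int A (mem_lev.1 hA).1 G b1⟩) h1 h2
  refine (high_two F B (j + 2) (j + 2) G C hGd.le hC fun P hP a1 a2 => ?_).trans ?_
  · obtain ⟨i, rfl⟩ : ∃ i, j = i + 1 := ⟨j - 1, by omega⟩
    have hN := nodes_two S P hP (i + 1 + 2) (i + 1 + 3) 1 (i + 1) (first_step hP hG hGd.le a1)
      (fun U b1 b2 => ho U (hP ▸ Submodule.finrank_mono b1) (by omega))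
    rw [show 1 + 1 + (i + 1) = i + 1 + 2 by omega] at hN
    have b := core hS.int hF hN (br (Fintype.card K) (i + 1 + 3))
      (br (Fintype.card K) (i + 1 + 3) + κ) (fun U _ b2 b3 => by
        have := hS.out hF (U := U) (by omega) (by omega) b3 1
          (fun U' hU' => deg_le_one F _ hd U' (by omega))
        rwa [mul_one] at this) (fun U hU => by
        have := deg_le_cc _ F hd U
        rw [hU] at this
        exact this.trans h3)
    have b4 := Nat.mul_le_mul_right κ (hCP P hP a2)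
    rw [mul_add, pow_one, mul_assoc, ← pow_succ] at b
    omega
  · have := br_le_pow hq (j + 2)
    rw [br_succ _ (j + 3), br_succ _ (j + 2)]
    omega

end Pool.Agent.Lib.MP_e960f8_co
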