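import Pool.Agent.Lib.MP_e960f8_co.G2

/-! Layers below a maximal family with a small member. -/

namespace Pool.Agent.Lib.MP_e960f8_co

open Module Finset Pool.Agent.Lib.MP_5499ac_co

universe u v

variable {K : Type u} [Field K] {V : Type v} [AddCommGroup V] [Module K V]

lemma peel3 [Fintype K] [Finite V] (i : ℕ) (T : Finset (Submodule K V)) (hT : MP_5499ac_co.Inter T)
    (hd : ∀ A ∈ T, finrank K A ≤ i) :
    ∃ T' W : Finset (Submodule K V), MP_5499ac_co.Inter T' ∧ (∀ A ∈ T', finrank K A < i) ∧ Layer i W ∧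
      (∀ A ∈ W, ∀ B ∈ T', A ⊓ B ≠ ⊥) ∧ (∀ A ∈ T, A ∈ W ∨ ∃ B ∈ T', B ≤ A) ∧
      ∀ B ∈ T, finrank K B < i → B ∈ T' := by
  classical
  obtain ⟨S, hTS, hSI, hSd, hmax⟩ := exists_max i T hT hd
  let W := S.filter (fun A : Submodule K V => finrank K A = i ∧ ∀ U : Submodule K V, U < A → U ∉ S)
  have hWS : W ⊆ S := filter_subset _ _
  refine ⟨S.filter (fun A : Submodule K V => finrank K A < i), W, ?_, ?_, ⟨?_, ?_, ?_⟩, ?_, ?_, ?_⟩
  · intro A hA B hB
    exact hSI A (mem_filter.mp hA).1 B (mem_filter.mp hB).1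
  · intro A hA
    exact (mem_filter.mp hA).2
  · intro A hA B hB
    exact hSI A (hWS hA) B (hWS hB)
  · intro A hA
    exact (mem_filter.mp hA).2.1
  · intro U
    refine deg_spread i S W hSd (fun A hA => (mem_filter.mp hA).2.1)
      (fun A hA G hG => hSI A (hWS hA) G hG) ?_ _ U rfl
    intro A hA U hU
    by_cases hU0 : U = ⊥
    · exact ⟨A, hWS hA, by rw [hU0]; simp⟩
    have h1 := (mem_filter.mp hA).2
    refine hmax U ?_ hU0 (h1.2 U hU)
    have := Submodule.finrank_lt_finrank_of_lt hU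
    omega
  · intro A hA B hB
    exact hSI A (hWS hA) B (mem_filter.mp hB).1
  · intro A hA
    have hAS := hTS hA
    by_cases h1 : finrank K A < i
    · exact Or.inr ⟨A, mem_filter.mpr ⟨hAS, h1⟩, le_rfl⟩
    have h2 : finrank K A = i := by have := hSd A hAS; omega
    by_cases h3 : ∀ U : Submodule K V, U < A → U ∉ S
    · exact Or.inl (mem_filter.mpr ⟨hAS, h2, h3⟩)
    push Not at h3
    obtain ⟨U, hU, hUS⟩ := h3
    refine Or.inr ⟨U, mem_filter.mpr ⟨hUS, ?_⟩, hU.le⟩
    have := Submodule.finrank_lt_finrank_of_lt hU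
    omega
  · intro B hB h
    exact mem_filter.mpr ⟨hTS hB, h⟩

lemma peel_all2 [Fintype K] [Finite V] (k : ℕ) (S : Finset (Submodule K V))
    (hS : MP_5499ac_co.Inter S) (hd : ∀ A ∈ S, finrank K A ≤ k) (d : ℕ) (hdk : d ≤ k) :
    ∃ (T : Finset (Submodule K V)) (W : ℕ → Finset (Submodule K V)), MP_5499ac_co.Inter T ∧
      (∀ A ∈ T, finrank K A ≤ k - d) ∧ (∀ i, Layer i (W i)) ∧
      (∀ A ∈ S, (∃ B ∈ T, B ≤ A) ∨ ∃ i, k - d < i ∧ i ≤ k ∧ ∃ B ∈ W i, B ≤ A) ∧
      (∀ B ∈ S, finrank K B ≤ k - d → B ∈ T) ∧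
      ∀ i, ∀ A ∈ W i, ∀ B ∈ S, finrank K B < i → A ⊓ B ≠ ⊥ := by
  classical
  induction d with
  | zero =>
    exact ⟨S, fun _ => ∅, hS, hd, fun i => layer_empty i,
      fun A hA => Or.inl ⟨A, hA, le_rfl⟩, fun B hB _ => hB, by simp⟩
  | succ d ih =>
    obtain ⟨T, W, hT, hTd, hW, hcov, hper, hmeet⟩ := ih (by omega)
    obtain ⟨T', W', hT', hT'd, hW', hm', hcov', hper'⟩ := peel3 (k - d) T hT hTd
    refine ⟨T', Function.update W (k - d) W', hT', ?_, ?_, ?_, ?_, ?_⟩
    · intro A hA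
      have := hT'd A hA
      omega
    · intro i
      by_cases hi : i = k - d
      · subst hi; simpa using hW'
      · rw [Function.update_of_ne hi]; exact hW i
    · intro A hA
      rcases hcov A hA with ⟨B, hB, hBA⟩ | ⟨i, hi1, hi2, B, hB, hBA⟩
      · rcases hcov' B hB with h | ⟨C, hC, hCB⟩
        · exact Or.inr ⟨k - d, by omega, by omega, B, by simpa using h, hBA⟩
        · exact Or.inl ⟨C, hC, hCB.trans hBA⟩
      · refine Or.inr ⟨i, by omega, hi2, B, ?_, hBA⟩
        rw [Function.update_of_ne (by omega)]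
        exact hB
    · intro B hB h
      exact hper' B (hper B hB (by omega)) (by omega)
    · intro i
      by_cases hi : i = k - d
      · subst hi
        rw [Function.update_self]
        exact fun A hA B hB h => hm' A hA B (hper' B (hper B hB h.le) h)
      · rw [Function.update_of_ne hi]; exact hmeet i

open Classical in
/-- members above a member of `W` -/
noncomputable def ab (F W : Finset (Submodule K V)) : Finset (Submodule K V) :=
  F.filter (fun A => ∃ B ∈ W, B ≤ A)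

lemma mem_ab {F W : Finset (Submodule K V)} {A : Submodule K V} :
    A ∈ ab F W ↔ A ∈ F ∧ ∃ B ∈ W, B ≤ A := by
  classical
  simp [ab]

lemma deg_ab [Finite V] (F W : Finset (Submodule K V)) (i : ℕ) (hi : 2 ≤ i)
    (hW : ∀ A ∈ W, finrank K A = i) (e : ℕ → ℕ)
    (he : ∀ U : Submodule K V, 2 ≤ finrank K U → deg F U ≤ e (finrank K U))
    (P : Submodule K V) (hP : finrank K P = 1) (a b : ℕ) (ha : deg W P ≤ a) (hb : W.card ≤ b) :
    deg (ab F W) P ≤ a * e i + b * e (i + 1) := by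
  classical
  have h1 := deg_le_sum (ab F W) P W (fun A hA _ => (mem_ab.1 hA).2)
  have h2 : ∀ B ∈ W, deg (ab F W) (P ⊔ B) ≤ (if P ≤ B then e i else 0) + e (i + 1) := by
    intro B hB
    refine (deg_mono (fun A hA => (mem_ab.1 hA).1) _).trans ?_
    split_ifs with h
    · rw [sup_eq_right.mpr h]
      have := he B (by rw [hW B hB]; exact hi)
      rw [hW B hB] at this
      omega
    · have d := finrank_sup_point hP h
      rw [hW B hB] at d
      have := he (B ⊔ P) (by omega)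
      rw [d] at this
      rw [sup_comm]
      omega
  refine h1.trans ((sum_le_sum h2).trans ?_)
  rw [sum_add_distrib, sum_const, smul_eq_mul, ← sum_filter, sum_const, smul_eq_mul]
  refine Nat.add_le_add (Nat.mul_le_mul_right _ (le_trans ?_ ha)) (Nat.mul_le_mul_right _ hb)
  unfold deg
  apply le_of_eq
  congr

lemma deg_sum (F : Finset (Submodule K V)) (X : ℕ → Finset (Submodule K V)) (I : Finset ℕ)
    (h : ∀ A ∈ F, ∃ i ∈ I, A ∈ X i) (P : Submodule K V) : deg F P ≤ ∑ i ∈ I, deg (X i) P := by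
  classical
  unfold deg
  refine le_trans (card_le_card ?_) card_biUnion_le
  intro A hA
  simp only [mem_filter] at hA
  obtain ⟨i, hi, hB⟩ := h A hA.1
  exact mem_biUnion.mpr ⟨i, hi, mem_filter.mpr ⟨hB, hA.2⟩⟩

lemma deg_or (F X Y : Finset (Submodule K V)) (h : ∀ A ∈ F, A ∈ X ∨ A ∈ Y) (P : Submodule K V) :
    deg F P ≤ deg X P + deg Y P := by
  classical
  unfold deg
  refine le_trans (card_le_card ?_) (card_union_le _ _)
  intro A hA
  simp only [mem_filter, mem_union] at hA ⊢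
  have := h A hA.1
  tauto

/-- the contribution of the layers above three -/
def RR (k g : ℕ) (e : ℕ → ℕ) : ℕ := ∑ j ∈ range (k - 3), br 2 (min (j + 4) g) *
  (br 2 (j + 4) ^ (j + 2) * e (j + 4) + br 2 (j + 4) ^ (j + 3) * e (j + 5))

theorem layered [Fintype K] [Finite V] (hq : Fintype.card K = 2) {k g : ℕ} (hk : 5 ≤ k)
    (hn : 2 * k + 1 ≤ finrank K V) {S F : Finset (Submodule K V)} (hS : Mx k S) (hF : F ⊆ S)
    (hd : ∀ A ∈ F, finrank K A = k) (G : Submodule K V) (hG : G ∈ S) (hg : finrank K G ≤ g)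
    (hgk : g + 2 ≤ k) (e : ℕ → ℕ)
    (he : ∀ U : Submodule K V, 2 ≤ finrank K U → deg F U ≤ e (finrank K U))
    (nA : 3 ≤ g → RR k g e + 49 * e 3 + 343 * e 4 ≤ cc K (finrank K V) k 2)
    (nB : RR k g e + 30 * e 3 + 147 * e 4 ≤ cc K (finrank K V) k 2)
    (nC : RR k g e + 21 * e 3 + 147 * e 4 + br 2 k * cc K (finrank K V) k 3 ≤ cc K (finrank K V) k 2 ∨
      RR k g e + 21 * e 3 + 147 * e 4 + e 2 ≤ cc K (finrank K V) k 2) :
    #(high F (cc K (finrank K V) k 2)) ≤ br (Fintype.card K) (k + 1) := by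
  classical
  have hI : MP_5499ac_co.Inter F := fun A hA B hB => hS.int A (hF hA) B (hF hB)
  obtain ⟨T3, W, i3, d3, hW, cv, per, meet⟩ := peel_all2 k S hS.int hS.dim (k - 3) (by omega)
  rw [show k - (k - 3) = 3 by omega] at d3 cv per
  obtain ⟨T2, W3, i2, d2, l3, m3, c3, p3⟩ := peel3 3 T3 i3 d3
  obtain ⟨T1, W2, i1, d1, l2, m2, c2⟩ := peel2 2 T2 i2 (fun A hA => by have := d2 A hA; omega)
  have b2 : br 2 2 = 3 := by decide
  have b3 : br 2 3 = 7 := by decide
  have top : ∀ F' ⊆ F, ∀ X : Finset (Submodule K V), (∀ A ∈ F', ∀ B ∈ T3, B ≤ A → A ∈ X) →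
      ∀ P : Submodule K V, finrank K P = 1 → ¬ P ≤ G → deg F' P ≤ RR k g e + deg X P := by
    intro F' hF' X hT P hP hPG
    have a1 := deg_or F' (F'.filter (fun A => ∃ j ∈ range (k - 3), A ∈ ab F (W (j + 4))))
      X (fun A hA => by
        rcases cv A (hF (hF' hA)) with ⟨B, hB, hBA⟩ | ⟨i, a, b, hB⟩
        · exact Or.inr (hT A hA B hB hBA)
        · refine Or.inl (mem_filter.mpr ⟨hA, i - 4, mem_range.mpr (by omega), ?_⟩)
          rw [show i - 4 + 4 = i by omega]
          exact mem_ab.2 ⟨hF' hA, hB⟩) P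
    refine a1.trans (Nat.add_le_add_right ?_ _)
    refine (deg_sum _ (fun j => ab F (W (j + 4))) (range (k - 3))
      (fun A hA => (mem_filter.mp hA).2) P).trans (sum_le_sum fun j _ => ?_)
    rw [mul_add, ← mul_assoc, ← mul_assoc]
    by_cases h : j + 4 ≤ g
    · have h4 := (hW (j + 4)).2.2 P
      have h5 := (hW (j + 4)).2.2 ⊥
      rw [← card_eq_deg_bot, finrank_bot, Nat.sub_zero, hq] at h5
      rw [hP, hq] at h4
      rw [min_eq_left h, ← pow_succ', ← pow_succ']
      exact deg_ab F _ (j + 4) (by omega) (hW (j + 4)).2.1 e he P hP _ _ h4 h5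
    · obtain ⟨h5, h4⟩ := layer_ref (j + 4) g _ (hW (j + 4)) G hg
        (fun A hA => meet _ A hA G hG (by omega))
      rw [hq] at h4 h5
      rw [min_eq_right (by omega)]
      exact deg_ab F _ (j + 4) (by omega) (hW (j + 4)).2.1 e he P hP _ _ (h4 P hP hPG) h5
  have main : ∀ F' ⊆ F, (∀ A ∈ F', ∀ B ∈ T1, ¬ B ≤ A) → ∀ P : Submodule K V, finrank K P = 1 →
      ¬ P ≤ G → deg F' P ≤ RR k g e + (deg (ab F W3) P + deg (ab F W2) P) := by
    intro F' hF' hT P hP hPG
    refine (top F' hF' (ab F W3 ∪ ab F W2) (fun A hA B hB hBA => ?_) P hP hPG).trans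
      (Nat.add_le_add_left (deg_or _ _ _ (fun A hA => mem_union.mp hA) P) _)
    rcases c3 B hB with h | ⟨C, hC, hCB⟩
    · exact mem_union_left _ (mem_ab.2 ⟨hF' hA, B, h, hBA⟩)
    rcases c2 C hC with h | ⟨D, hD, hDC⟩
    · exact mem_union_right _ (mem_ab.2 ⟨hF' hA, C, h, hCB.trans hBA⟩)
    · exact (hT A hA D hD (hDC.trans (hCB.trans hBA))).elim
  have pG : #(pts G) ≤ br 2 (k - 2) := by rw [card_pts, hq]; exact br_mono (by omega)
  obtain ⟨j, rfl⟩ : ∃ j, k = j + 5 := ⟨k - 5, by omega⟩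
  have q1 := br_lt_pow (q := 2) le_rfl (j + 3)
  have q2 : 8 ≤ 2 ^ (j + 3) := Nat.pow_le_pow_right (n := 2) (by norm_num) (show 3 ≤ j + 3 by omega)
  have q3 : 2 ^ (j + 5) = 4 * 2 ^ (j + 3) := by ring
  have q4 : br 2 (j + 5 + 1) = br 2 (j + 3) + 7 * 2 ^ (j + 3) := by
    rw [br_succ, br_succ, br_succ]; ring
  rw [show j + 5 - 2 = j + 3 by omega] at pG
  have z2 : ∀ P : Submodule K V, deg (ab F (∅ : Finset (Submodule K V))) P = 0 :=
    fun P => deg_zero fun A hA => by simpa using (mem_ab.1 hA).2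
  rcases T2.eq_empty_or_nonempty with rfl | ⟨G3, hG3⟩
  · have hsub : high F (cc K (finrank K V) (j + 5) 2) ⊆ pts G := by
      intro P hP
      rw [mem_high] at hP
      refine mem_pts.2 ⟨hP.1, ?_⟩
      by_contra hPG
      have g3 : 3 ≤ g := by
        by_contra hc
        simpa using p3 G (per G hG (by omega)) (by omega)
      have a1 := top F (Subset.refl _) (ab F W3) (fun A hA B hB hBA =>
        mem_ab.2 ⟨hA, B, by simpa using c3 B hB, hBA⟩) P hP.1 hPG
      have a3 := l3.2.2 P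
      have a4 := l3.2.2 ⊥
      rw [← card_eq_deg_bot, finrank_bot, hq, b3] at a4
      rw [hP.1, hq, b3] at a3
      have a5 := deg_ab F W3 3 (by omega) l3.2.1 e he P hP.1 _ _ a3 a4
      have := nA g3
      have := hP.2
      norm_num at a5
      omega
    rw [hq]
    have := card_le_card hsub
    omega
  have g3 : finrank K G3 ≤ 2 := by have := d2 G3 hG3; omega
  obtain ⟨s3, r3⟩ := layer_ref 3 2 W3 l3 G3 g3 (fun A hA => m3 A hA G3 hG3)
  have p3 : #(pts G3) ≤ 3 := by rw [card_pts, hq, ← b2]; exact br_mono g3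
  rw [hq, b2, b3] at s3 r3
  have u3 : ∀ P : Submodule K V, finrank K P = 1 → ¬ P ≤ G3 →
      deg (ab F W3) P ≤ 21 * e 3 + 147 * e 4 := fun P hP h =>
    deg_ab F W3 3 (by omega) l3.2.1 e he P hP _ _ (r3 P hP h) s3
  rcases T1.eq_empty_or_nonempty with rfl | ⟨E, hE⟩
  · have hsub : high F (cc K (finrank K V) (j + 5) 2) ⊆ cov W2 ∪ pts G3 ∪ pts G := by
      intro P hP
      rw [mem_high] at hP
      by_contra hc
      simp only [mem_union, not_or, mem_pts, mem_cov, hP.1, true_and, not_not] at hc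
      have a1 := main F (Subset.refl _) (by simp) P hP.1 hc.2
      have a2 := u3 P hP.1 hc.1.2
      have a4 := l2.2.2 ⊥
      rw [← card_eq_deg_bot, finrank_bot, hq, b2] at a4
      have a5 := deg_ab F W2 2 le_rfl l2.2.1 e he P hP.1 0 _ hc.1.1.le a4
      have := hP.2
      norm_num at a5
      omega
    have a1 := (card_le_card hsub).trans (card_union_le _ _)
    have a2 := card_union_le (cov W2) (pts G3)
    have a3 := card_cov W2 l2
    rw [hq, b2] at a3
    rw [hq]
    omega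
  have hpt : ∀ B ∈ T1, finrank K B = 1 := by
    intro B hB
    have h1 := d1 B hB
    have h2 : B ≠ ⊥ := by simpa using i1 B hB B hB
    have h3 : finrank K B ≠ 0 := fun h => h2 (Submodule.finrank_eq_zero.mp h)
    omega
  have hW2 : W2 = ∅ := by
    rw [eq_empty_iff_forall_notMem]
    intro A hA
    have := m2 A hA E hE
    exact this.2 (pt_le_of_inf (hpt E hE) (by rw [inf_comm]; exact this.1))
  have key : ∀ P : Submodule K V, finrank K P = 1 → P ∉ pts G3 ∪ pts G →
      deg (F.filter (fun A => ¬ E ≤ A)) P ≤ RR (j + 5) g e + 21 * e 3 + 147 * e 4 := by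
    intro P hP hZ
    simp only [mem_union, not_or, mem_pts, hP, true_and] at hZ
    have a1 := main (F.filter (fun A => ¬ E ≤ A)) (filter_subset _ _) (fun A hA B hB hBA =>
      (mem_filter.mp hA).2 ((pt_le_of_inf (hpt E hE) (i1 E hE B hB)).trans hBA)) P hP hZ.2
    have a2 := u3 P hP hZ.1
    rw [hW2, z2] at a1
    omega
  have cZ := card_union_le (pts G3) (pts G)
  rcases nC with nC | nC
  · refine final_exact (j + 5) hn F hI hd E (hpt E hE) (pts G3 ∪ pts G) (by rw [hq]; omega) ?_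
    intro P hP hZ
    rw [hq]
    exact (Nat.add_le_add_right (key P hP hZ) _).trans nC
  · have hsub : high F (cc K (finrank K V) (j + 5) 2) ⊆ insert E (pts G3 ∪ pts G) := by
      intro P hP
      rw [mem_high] at hP
      by_contra hc
      rw [mem_insert, not_or] at hc
      have a1 := key P hP.1 hc.2
      have a2 := deg_le_split F E P
      have a3 := finrank_sup_point hP.1 (fun h => hc.1 (pt_eq hP.1 (hpt E hE) h))
      rw [hpt E hE] at a3
      have a4 := he (E ⊔ P) (by omega)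
      rw [a3] at a4
      have := hP.2
      norm_num at a4
      omega
    have a1 := (card_le_card hsub).trans (card_insert_le _ _)
    rw [hq]
    omega

end Pool.Agent.Lib.MP_e960f8_co
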