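import Pool.Agent.Lib.MP_e960f8_co.G3

/-! The small cases over the field with two elements. -/

namespace Pool.Agent.Lib.MP_e960f8_co

open Module Finset Pool.Agent.Lib.MP_5499ac_co

universe u v

variable {K : Type u} [Field K] {V : Type v} [AddCommGroup V] [Module K V]

lemma Mx.small [Finite V] {k m : ℕ} {S : Finset (Submodule K V)} (h : Mx k S)
    (hm : ∀ A ∈ S, m ≤ finrank K A) (hmk : m ≤ k + 1) (U : Submodule K V) (h1 : 1 ≤ finrank K U)
    (h2 : finrank K U < m) : ∃ G ∈ S, finrank K G ≤ k ∧ U ⊓ G = ⊥ := by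
  obtain ⟨G, b1, b2⟩ := h.mx U (by omega) (ne_bot_of_rank h1) (fun hU => by
    have := hm U hU
    omega)
  exact ⟨G, b1, h.dim G b1, b2⟩

lemma deg_outside [Fintype K] [Finite V] (W : Finset (Submodule K V)) (U Y : Submodule K V)
    (h : U ≤ Y) (k : ℕ) (hk : finrank K U ≤ k) (hd : ∀ A ∈ W, finrank K A = k)
    (hY : ∀ A ∈ W, ¬ A ≤ Y) :
    deg W U + gauss K (finrank K Y - finrank K U) (k - finrank K U) ≤
      cc K (finrank K V) k (finrank K U) := by
  classical
  rw [← card_between U Y h k hk, ← card_filter_ge']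
  unfold deg
  rw [← card_union_of_disjoint]
  · apply card_le_card
    intro A hA
    simp only [mem_filter, mem_Gr, mem_union] at hA ⊢
    rcases hA with hA | hA
    · exact ⟨hd A hA.1, hA.2⟩
    · exact ⟨hA.1, hA.2.1⟩
  · rw [disjoint_left]
    intro A h1 h2
    exact hY A (mem_filter.mp h1).1 (mem_filter.mp h2).2.2

/-- the three kinds of covers of a family -/
lemma cover_cases [Finite V] (T : Finset (Submodule K V)) :
    (∃ E : Submodule K V, finrank K E = 1 ∧ ∀ A ∈ T, E ≤ A) ∨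
    ((∀ E : Submodule K V, finrank K E = 1 → ∃ A ∈ T, ¬ E ≤ A) ∧
      ∃ L : Submodule K V, finrank K L = 2 ∧ ∀ A ∈ T, A ⊓ L ≠ ⊥) ∨
    ∀ U : Submodule K V, 1 ≤ finrank K U → finrank K U < 3 → ∃ A ∈ T, U ⊓ A = ⊥ := by
  by_cases h1 : ∃ E : Submodule K V, finrank K E = 1 ∧ ∀ A ∈ T, E ≤ A
  · exact Or.inl h1
  push Not at h1
  by_cases h2 : ∃ L : Submodule K V, finrank K L = 2 ∧ ∀ A ∈ T, A ⊓ L ≠ ⊥
  · exact Or.inr (Or.inl ⟨h1, h2⟩)
  push Not at h2
  refine Or.inr (Or.inr fun U a1 a2 => ?_)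
  by_cases h : finrank K U = 1
  · obtain ⟨A, hA, hUA⟩ := h1 U h
    exact ⟨A, hA, pt_inf_bot h hUA⟩
  · obtain ⟨A, hA, hUA⟩ := h2 U (by omega)
    exact ⟨A, hA, by rw [inf_comm]; exact hUA⟩

theorem four_two [Fintype K] [Finite V] (hq : Fintype.card K = 2) (hn : finrank K V = 9)
    (c2 : cc K 9 4 2 = 2667) (c3 : cc K 9 4 3 = 63)
    {S F : Finset (Submodule K V)} (hS : Mx 4 S) (hF : F ⊆ S) (hd : ∀ A ∈ F, finrank K A = 4)
    (hm : ∀ A ∈ S, 2 ≤ finrank K A) (L : Submodule K V) (hL : L ∈ S) (hL2 : finrank K L = 2) :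
    #(high F (cc K (finrank K V) 4 2)) ≤ br (Fintype.card K) 5 := by
  classical
  have b2 : br 2 2 = 3 := by decide
  have b3 : br 2 3 = 7 := by decide
  have b4 : br 2 4 = 15 := by decide
  obtain ⟨Y, hY, hTY⟩ := lines_in (lev S 2)
    (fun A hA B hB => hS.int A (mem_lev.1 hA).1 B (mem_lev.1 hB).1)
    (fun A hA => (mem_lev.1 hA).2) 4 (by norm_num) (fun E hE => by
      obtain ⟨G, hG, g1, g2⟩ := hS.small hm (by norm_num) E (by omega) (by omega)
      exact ⟨G, g1, fun h => not_le_of_inf hE g2 h le_rfl,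
        fun A hA => hS.int A (mem_lev.1 hA).1 G hG⟩)
  have hsub : high F (cc K (finrank K V) 4 2) ⊆ pts Y := by
    intro P hP
    rw [mem_high, hn, c2] at hP
    refine mem_pts.2 ⟨hP.1, ?_⟩
    by_contra hPY
    have a1 := deg_step F P L 875 (fun A hA => hS.int A (hF hA) L hL) (fun X hX hXL => by
      have d1 : ¬ X ≤ P := fun h => hPY
        (pt_eq hX hP.1 h ▸ hXL.trans (hTY L (mem_lev.2 ⟨hL, hL2⟩)))
      have d2 : finrank K (P ⊔ X : Submodule K V) = 2 := by rw [finrank_sup_point hX d1, hP.1]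
      obtain ⟨G, hG, hUG⟩ := hS.mx (P ⊔ X) (by omega) (ne_bot_of_rank (by omega))
        (fun h => hPY (le_sup_left.trans (hTY _ (mem_lev.2 ⟨h, d2⟩))))
      set U := P ⊔ X
      have d3 : ∀ Z : Submodule K V, finrank K Z = 1 → Z ≤ G →
          finrank K (U ⊔ Z : Submodule K V) = 3 := fun Z hZ hZG => by
        rw [finrank_sup_point hZ (not_le_of_inf hZ hUG hZG), d2]
      by_cases hg : finrank K G ≤ 3
      · have e1 := deg_step F U G 63 (fun A hA => hS.int A (hF hA) G hG) (fun Z hZ hZG => by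
          have := deg_le_cc 4 F hd (U ⊔ Z)
          rwa [d3 Z hZ hZG, hn, c3] at this)
        have e2 : br (Fintype.card K) (finrank K G) ≤ br 2 3 := by rw [hq]; exact br_mono hg
        omega
      have g4 : finrank K G = 4 := by have := hS.dim G hG; omega
      have d6 : finrank K (U ⊔ G : Submodule K V) = 6 := by rw [finrank_sup_disj hUG, d2, g4]
      have e1 := deg_split F (fun A => A ≤ U ⊔ G) U
      have e2 := deg_between (F.filter (fun A => A ≤ U ⊔ G)) U (U ⊔ G) le_sup_left 4 (by omega)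
        (fun A hA => hd A (mem_filter.mp hA).1) (fun A hA _ => (mem_filter.mp hA).2)
      have e3 := gauss_succ (K := K) 3 1
      rw [gauss_one, hq, b2, b3, b4] at e3
      rw [d6, d2] at e2
      have e4 := deg_step (F.filter (fun A => ¬ A ≤ U ⊔ G)) U G 56
        (fun A hA => hS.int A (hF (mem_filter.mp hA).1) G hG) (fun Z hZ hZG => by
          have := deg_outside (F.filter (fun A => ¬ A ≤ U ⊔ G)) (U ⊔ Z) (U ⊔ G)
            (sup_le_sup_left hZG U) 4 (by rw [d3 Z hZ hZG]; norm_num)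
            (fun A hA => hd A (mem_filter.mp hA).1) (fun A hA => (mem_filter.mp hA).2)
          rw [d3 Z hZ hZG, d6, hn, c3, show 4 - 3 = 1 from rfl, gauss_one, hq,
            show 6 - 3 = 3 from rfl, b3] at this
          omega)
      rw [g4, hq, b4] at e4
      norm_num at e2 e3
      omega)
    rw [hL2, hq, b2] at a1
    omega
  refine (card_le_card hsub).trans ?_
  rw [card_pts]
  exact br_mono hY

theorem four_three [Fintype K] [Finite V] (hq : Fintype.card K = 2) (hn : finrank K V = 9)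
    (c2 : cc K 9 4 2 = 2667) (c3 : cc K 9 4 3 = 63)
    {S F : Finset (Submodule K V)} (hS : Mx 4 S) (hF : F ⊆ S) (hd : ∀ A ∈ F, finrank K A = 4)
    (hm : ∀ A ∈ S, 3 ≤ finrank K A) (G : Submodule K V) (hG : G ∈ S) (hG3 : finrank K G = 3) :
    #(high F (cc K (finrank K V) 4 2)) ≤ br (Fintype.card K) 5 := by
  classical
  have b0 : br 2 0 = 0 := by decide
  have b1 : br 2 1 = 1 := by decide
  have b2 : br 2 2 = 3 := by decide
  have b3 : br 2 3 = 7 := by decide
  have b4 : br 2 4 = 15 := by decide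
  have b5 : br 2 5 = 31 := by decide
  have hT : MP_5499ac_co.Inter (lev S 3) :=
    fun A hA B hB => hS.int A (mem_lev.1 hA).1 B (mem_lev.1 hB).1
  have dT : ∀ A ∈ lev S 3, finrank K A = 3 := fun A hA => (mem_lev.1 hA).2
  have co : ∀ (P : Submodule K V) (g : ℕ), finrank K P = 1 → ¬ P ≤ G →
      (∀ U : Submodule K V, 1 ≤ finrank K U → finrank K U < 3 →
        ∃ G ∈ S, finrank K G ≤ g ∧ U ⊓ G = ⊥) →
      deg F P ≤ deg (lev S 3) P * 48 + 7 * br 2 g * 15 := by
    intro P g hP hPG ho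
    have hN := nodes_two S P hP 3 g 1 1 (first_step hP hG hG3.le hPG)
      (fun U a1 a2 => ho U (hP ▸ Submodule.finrank_mono a1) a2)
    have a := core hS.int hF hN 15 63 (fun U _ a2 a3 => by
      have := hS.out hF (U := U) (by omega) (by omega) a3 1
        (fun U' hU' => deg_le_one F _ hd U' (by omega))
      rwa [hq, b4] at this) (fun U hU => by
      have := deg_le_cc _ F hd U
      rwa [hU, hn, c3] at this)
    rw [hq, b3, pow_one, pow_one, show 1 + 1 + 1 = 3 from rfl] at a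
    omega
  have sm := hS.small hm (by norm_num)
  rw [hn, c2]
  rcases cover_cases (lev S 3) with ⟨E, hE, h⟩ | ⟨h, L, hL, hc⟩ | h
  · refine (high_two F _ 3 3 G G hG3.le hG3.le fun P hP a1 _ => ?_).trans (by rw [hq]; omega)
    have a2 := co P 4 hP a1 sm
    have a3 := deg_le_sum (lev S 3) P {E} (fun A hA _ => ⟨E, mem_singleton_self E, h A hA⟩)
    rw [sum_singleton] at a3
    have a4 := finrank_sup_point hE
      (fun h' : E ≤ P => a1 (pt_eq hE hP h' ▸ h G (mem_lev.2 ⟨hG, hG3⟩)))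
    have a5 := hS.out (W := lev S 3) (fun A hA => (mem_lev.1 hA).1) (U := P ⊔ E) (by omega)
      (by omega) (fun h' => by have := hm _ h'; omega) 1
      (fun U' hU' => deg_le_one _ 3 dT U' (by omega))
    rw [hq] at a5
    omega
  · obtain ⟨Y, hY, hP'⟩ := trick (lev S 3) hT 3 (by norm_num) (fun A hA => (dT A hA).le) h L hL hc
    refine (high_two F _ 3 4 G Y hG3.le hY fun P hP a1 a0 => ?_).trans (by rw [hq]; omega)
    have a2 := co P 4 hP a1 sm
    have a3 := deg_step (lev S 3) P L 7 hc (fun X hX hXL => by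
      obtain ⟨d1, G', d2, d3, d4⟩ := hP' P hP a0 X hX hXL
      have := line_deg _ dT _ G' d1 d2 d3 d4
      rwa [hq, b3] at this)
    rw [hL, hq] at a3
    omega
  · refine (high_two F _ 3 3 G G hG3.le hG3.le fun P hP a1 _ => ?_).trans (by rw [hq]; omega)
    have a2 := co P 3 hP a1 (fun U d1 d2 => by
      obtain ⟨A, hA, hUA⟩ := h U d1 d2
      exact ⟨A, (mem_lev.1 hA).1, (dT A hA).le, hUA⟩)
    have fr : FreeK (0 + 3) (lev S 3) := ⟨hT, dT, fun U d1 d2 => h U (by
      have : finrank K U ≠ 0 := fun h0 => d2 (Submodule.finrank_eq_zero.mp h0)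
      omega) d1⟩
    have a3 := fr.point 37 (by rw [hq]; decide) (by rw [hq]; decide) P hP
    rw [pow_zero] at a3
    omega

theorem five_three [Fintype K] [Finite V] (hq : Fintype.card K = 2) (hn : finrank K V = 11)
    (c2 : cc K 11 5 2 = 788035) (c3 : cc K 11 5 3 = 10795) (c4 : cc K 11 5 4 = 127)
    {S F : Finset (Submodule K V)} (hS : Mx 5 S) (hF : F ⊆ S) (hd : ∀ A ∈ F, finrank K A = 5)
    (hm : ∀ A ∈ S, 3 ≤ finrank K A) (G : Submodule K V) (hG : G ∈ S) (hG3 : finrank K G = 3) :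
    #(high F (cc K (finrank K V) 5 2)) ≤ br (Fintype.card K) 6 := by
  classical
  have b2 : br 2 2 = 3 := by decide
  have b3 : br 2 3 = 7 := by decide
  have b4 : br 2 4 = 15 := by decide
  have b5 : br 2 5 = 31 := by decide
  have b6 : br 2 6 = 63 := by decide
  set T := S.filter (fun A : Submodule K V => finrank K A ≤ 4) with hTdef
  have hT : MP_5499ac_co.Inter T := fun A hA B hB =>
    hS.int A (mem_filter.mp hA).1 B (mem_filter.mp hB).1
  have mini : ∀ W ⊆ F, (∀ A ∈ W, ∀ B ∈ T, ¬ B ≤ A) → ∀ P : Submodule K V, finrank K P = 1 →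
      ¬ P ≤ G → deg W P ≤ 208537 := by
    intro W hW h P hP hPG
    have a := deg_step W P G (br (Fintype.card K) 5 ^ 3 * 1)
      (fun A hA => hS.int A (hF (hW hA)) G hG) (fun X hX hXG =>
      down (deg W) 5 5 1 P (fun U d1 d2 => by
        by_cases hU : U ∈ S
        · exact Or.inl (deg_zero fun A hA => h A hA U (mem_filter.mpr ⟨hU, by omega⟩))
        · have := Submodule.finrank_mono d1
          obtain ⟨G', g1, g2⟩ := hS.mx U (by omega) (ne_bot_of_rank (by omega)) hU
          exact Or.inr ⟨G', hS.dim G' g1, g2,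
            deg_pts W U G' fun A hA => hS.int A (hF (hW hA)) G' g1⟩)
        (fun U _ d2 => deg_le_one W 5 (fun A hA => hd A (hW hA)) U d2.ge) 3 _ le_sup_left (by
          rw [finrank_sup_point hX (fun h' => hPG (pt_eq hX hP h' ▸ hXG)), hP]))
    rw [hG3, hq, b3, b5] at a
    omega
  rcases cover_cases T with ⟨E, hE, h⟩ | ⟨h, L, hL, hc⟩ | h
  · refine final_exact 5 (by omega) F (fun A hA B hB => hS.int A (hF hA) B (hF hB)) hd E hE (pts G)
      (by rw [card_pts, hq, hG3, b3]; norm_num) fun P hP hZ => ?_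
    have a := mini (F.filter (fun A => ¬ E ≤ A)) (filter_subset _ _)
      (fun A hA B hB hBA => (mem_filter.mp hA).2 ((h B hB).trans hBA)) P hP
      (fun h' => hZ (mem_pts.2 ⟨hP, h'⟩))
    rw [hn, c2, c3, hq, b5]
    omega
  · obtain ⟨Y, hY, hP'⟩ := trick T hT 4 (by norm_num) (fun A hA => (mem_filter.mp hA).2) h L hL hc
    rw [hn, c2]
    refine (high_two F _ 3 5 G Y hG3.le hY fun P hP a1 a0 => ?_).trans (by rw [hq]; omega)
    have a2 := deg_or F (ab F T) (F.filter (fun A => A ∉ ab F T)) (fun A hA => by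
      by_cases h' : A ∈ ab F T
      · exact Or.inl h'
      · exact Or.inr (mem_filter.mpr ⟨hA, h'⟩)) P
    have a3 := mini (F.filter (fun A => A ∉ ab F T)) (filter_subset _ _) (fun A hA B hB hBA =>
      (mem_filter.mp hA).2 (mem_ab.2 ⟨(mem_filter.mp hA).1, B, hB, hBA⟩)) P hP a1
    have up : ∀ Z : Submodule K V, (∀ B ∈ T, B ⊓ Z ≠ ⊥) → ∀ A ∈ ab F T, A ⊓ Z ≠ ⊥ := by
      intro Z hZ A hA h0
      obtain ⟨B, hB, hBA⟩ := (mem_ab.1 hA).2
      exact hZ B hB (inf_bot_mono h0 hBA le_rfl)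
    have a4 := deg_step (ab F T) P L (15 * 10795) (up L hc) (fun X hX hXL => by
      obtain ⟨d1, G', d2, d3, d4⟩ := hP' P hP a0 X hX hXL
      have e1 := deg_step (ab F T) (P ⊔ X) G' 10795 (up G' d4) (fun Z hZ hZG => by
        have := deg_le_cc 5 (ab F T) (fun A hA => hd A (mem_ab.1 hA).1) (P ⊔ X ⊔ Z)
        rwa [finrank_sup_point hZ (not_le_of_inf hZ d3 hZG), d1, hn, c3] at this)
      have e2 : br (Fintype.card K) (finrank K G') ≤ 15 := by rw [hq, ← b4]; exact br_mono d2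
      exact e1.trans (Nat.mul_le_mul_right _ e2))
    rw [hL, hq, b2] at a4
    omega
  · have ho : ∀ U : Submodule K V, 1 ≤ finrank K U → finrank K U < 3 →
        ∃ G ∈ S, finrank K G ≤ 4 ∧ U ⊓ G = ⊥ := fun U d1 d2 => by
      obtain ⟨A, hA, hUA⟩ := h U d1 d2
      exact ⟨A, (mem_filter.mp hA).1, (mem_filter.mp hA).2, hUA⟩
    obtain ⟨C, hC, hCP⟩ := cover_bound (lev S 3)
      (fun A hA B hB => hS.int A (mem_lev.1 hA).1 B (mem_lev.1 hB).1) 3 4 49 (by norm_num)
      (fun A hA => (mem_lev.1 hA).2) ⟨G, mem_lev.2 ⟨hG, hG3⟩⟩ (fun U a1 a2 => by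
        obtain ⟨G, d1, d2, d3⟩ := ho U a1 a2
        exact ⟨G, d2, d3, fun A hA => hS.int A (mem_lev.1 hA).1 G d1⟩) (by rw [hq]; decide)
      (by rw [hq]; decide)
    rw [hn, c2]
    refine (high_two F _ 3 3 G C hG3.le hC fun P hP a1 a0 => ?_).trans (by rw [hq]; omega)
    have hN := nodes_two S P hP 3 4 1 1 (first_step hP hG hG3.le a1)
      (fun U a1 a2 => ho U (hP ▸ Submodule.finrank_mono a1) a2)
    have a := core hS.int hF hN 3937 10795 (fun U _ a2 a3 => by
      have := hS.out hF (U := U) (by omega) (by omega) a3 127 (fun U' hU' => by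
        have := deg_le_cc _ F hd U'
        rwa [hU', a2, hn, c4] at this)
      rwa [hq, b5] at this) (fun U hU => by
      have := deg_le_cc _ F hd U
      rwa [hU, hn, c3] at this)
    have a2 := hCP P hP a0
    rw [hq, b3, b4, pow_one, pow_one, show 1 + 1 + 1 = 3 from rfl] at a
    omega

end Pool.Agent.Lib.MP_e960f8_co
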