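import Pool.Agent.Lib.MP_e960f8_co.G2

/-! Planes in dimension seven over the field with two elements. -/

namespace Pool.Agent.Lib.MP_e960f8_co

open Module Finset Pool.Agent.Lib.MP_5499ac_co

universe u v

variable {K : Type u} [Field K] {V : Type v} [AddCommGroup V] [Module K V]

lemma Free3.one [Fintype K] [Finite V] (hq : Fintype.card K = 2) {S : Finset (Submodule K V)}
    (h : Free3 S) {P G0 G1 G2 : Submodule K V} (hP : finrank K P = 1) (h0 : G0 ∈ S) (h1 : G1 ∈ S)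
    (h2 : G2 ∈ S) (p0 : ¬ P ≤ G0) (p1 : ¬ P ≤ G1)
    (hs : finrank K ((G0 ⊔ P) ⊓ (G1 ⊔ P) : Submodule K V) ≤ 2)
    (hL : (G0 ⊔ P) ⊓ (G1 ⊔ P) ⊓ G2 = ⊥)
    (d1 : finrank K (G2 ⊓ (G1 ⊔ P) : Submodule K V) ≤ 1) : deg S P ≤ 31 := by
  classical
  have b1 : br 2 1 = 1 := by decide
  have b2 : br 2 2 = 3 := by decide
  have b3 : br 2 3 = 7 := by decide
  set U0 := G0 ⊔ P with hU0
  set U1 := G1 ⊔ P with hU1
  have hPL : P ≤ U0 ⊓ U1 := le_inf le_sup_right le_sup_right
  obtain ⟨y0, y01, hy0⟩ := exists_point_le (h.int G2 h2 G1 h1)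
  have y02 : y0 ≤ G2 := hy0.trans inf_le_left
  have e0 : y0 = G2 ⊓ U1 := Submodule.eq_of_le_of_finrank_le
    (le_inf y02 ((hy0.trans inf_le_right).trans le_sup_left)) (by omega)
  have y0U : ¬ y0 ≤ U0 := fun h' => not_le_of_inf y01 hL y02
    (le_inf h' ((hy0.trans inf_le_right).trans le_sup_left))
  have dl0 : finrank K (P ⊔ y0 : Submodule K V) = 2 := by
    rw [finrank_sup_point y01 (fun h' => y0U (h'.trans le_sup_right)), hP]
  have d10 : finrank K (G1 ⊓ U0 : Submodule K V) ≤ 1 := by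
    have : G1 ⊓ U0 < U0 ⊓ U1 := by
      refine lt_of_le_of_ne (le_inf inf_le_right (inf_le_left.trans le_sup_left)) fun h' => ?_
      exact p1 ((h' ▸ hPL : P ≤ G1 ⊓ U0).trans inf_le_left)
    have := Submodule.finrank_lt_finrank_of_lt this
    omega
  have d20 : finrank K (G2 ⊓ U0 : Submodule K V) ≤ 2 := by
    have : G2 ⊓ U0 < G2 := lt_of_le_of_ne inf_le_left fun h' => y0U (y02.trans (inf_eq_left.mp h'))
    have := Submodule.finrank_lt_finrank_of_lt this
    rw [h.dim G2 h2] at this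
    omega
  set W := S.filter (fun A => ¬ y0 ≤ A) with hW
  have a0 := deg_le_split S y0 P
  rw [← hW, sup_comm] at a0
  have a00 := h.line _ dl0
  rw [hq, b3] at a00
  have a1 := deg_le_sum W P ((pts G2).erase y0) (fun A hA _ => by
    obtain ⟨X, hX1, hX⟩ := exists_point_le (h.int A (mem_filter.mp hA).1 G2 h2)
    refine ⟨X, mem_erase.mpr ⟨fun h' => (mem_filter.mp hA).2 (h' ▸ hX.trans inf_le_left),
      mem_pts.2 ⟨hX1, hX.trans inf_le_right⟩⟩, hX.trans inf_le_left⟩)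
  have gen : ∀ w ∈ (pts G2).erase y0, ∀ Z : Submodule K V, Z ≤ G1 →
      (∀ A ∈ W, P ⊔ w ≤ A → A ⊓ G1 ≤ Z) → deg W (P ⊔ w) ≤ ((pts Z).erase y0).card := by
    intro w hw Z hZ hA
    obtain ⟨hne, hw⟩ := mem_erase.mp hw
    obtain ⟨hw1, hw2⟩ := mem_pts.1 hw
    have wU : ¬ w ≤ U1 := fun h' => hne (pt_eq hw1 y01 (e0 ▸ le_inf hw2 h'))
    have dl : finrank K (P ⊔ w : Submodule K V) = 2 := by
      rw [finrank_sup_point hw1 (fun h' => wU (h'.trans le_sup_right)), hP]
    have c1 := deg_le_sum W (P ⊔ w) ((pts Z).erase y0) (fun A hAW hle => by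
      obtain ⟨y, hy1, hy⟩ := exists_point_le (h.int A (mem_filter.mp hAW).1 G1 h1)
      exact ⟨y, mem_erase.mpr ⟨fun h' => (mem_filter.mp hAW).2 (h' ▸ hy.trans inf_le_left),
        mem_pts.2 ⟨hy1, hy.trans (hA A hAW hle)⟩⟩, hy.trans inf_le_left⟩)
    have c2 : ∀ y ∈ (pts Z).erase y0, deg W (P ⊔ w ⊔ y) ≤ 1 := by
      intro y hy
      obtain ⟨hy1, hy2⟩ := mem_pts.1 (mem_erase.mp hy).2
      have c3 : ¬ y ≤ P ⊔ w := fun h' => wU
        ((swap_pt hP hw1 hy1 (fun h'' => p1 (h''.trans (hy2.trans hZ))) h').trans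
          (sup_le le_sup_right ((hy2.trans hZ).trans le_sup_left)))
      exact deg_le_one W 3 (fun A hA => h.dim A (mem_filter.mp hA).1) _
        (by rw [finrank_sup_point hy1 c3, dl])
    have c4 := c1.trans (sum_le_card_nsmul _ _ 1 c2)
    rwa [smul_eq_mul, mul_one] at c4
  have a2 : ∀ w ∈ (pts G2).erase y0, deg W (P ⊔ w) ≤
      (if finrank K (G2 ⊓ U0 : Submodule K V) = 2 then 2 else 3) +
        if w ∈ pts (G2 ⊓ U0) then 4 else 0 := by
    intro w hw
    obtain ⟨hw1, hw2⟩ := mem_pts.1 (mem_erase.mp hw).2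
    by_cases hb : w ∈ pts (G2 ⊓ U0)
    · have c1 := gen w hw G1 le_rfl (fun A _ _ => inf_le_right)
      rw [card_erase_of_mem (mem_pts.2 ⟨y01, hy0.trans inf_le_right⟩), card_pts, hq,
        h.dim G1 h1, b3] at c1
      rw [if_pos hb]
      split_ifs <;> omega
    rw [if_neg hb]
    have wU : ¬ w ≤ U0 := fun h' => hb (mem_pts.2 ⟨hw1, le_inf hw2 h'⟩)
    have dl : finrank K (P ⊔ w : Submodule K V) = 2 := by
      rw [finrank_sup_point hw1 (fun h' => wU (h'.trans le_sup_right)), hP]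
    have c1 := gen w hw (G1 ⊓ (U0 ⊔ w)) inf_le_left (fun A hA hle => by
      obtain ⟨x, hx1, hx⟩ := exists_point_le (h.int A (mem_filter.mp hA).1 G0 h0)
      have c1 : ¬ x ≤ P ⊔ w := fun h' => wU
        ((swap_pt hP hw1 hx1 (fun h'' => p0 (h''.trans (hx.trans inf_le_right))) h').trans
          (sup_le le_sup_right ((hx.trans inf_le_right).trans le_sup_left)))
      have c2 : P ⊔ w ⊔ x = A := Submodule.eq_of_le_of_finrank_le
        (sup_le hle (hx.trans inf_le_left))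
        (by rw [finrank_sup_point hx1 c1, dl, h.dim A (mem_filter.mp hA).1])
      have c3 : A ≤ U0 ⊔ w := by
        rw [← c2]
        exact sup_le (sup_le (le_sup_right.trans le_sup_left) le_sup_right)
          (((hx.trans inf_le_right).trans le_sup_left).trans le_sup_left)
      exact le_inf inf_le_right (inf_le_left.trans c3))
    have b4 := inf_sup_pt G1 U0 w hw1
    have b5 : #(pts (G1 ⊓ (U0 ⊔ w))) ≤ 3 := by
      rw [card_pts, hq, ← b2]; exact br_mono (by omega)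
    split_ifs with h2'
    · have c5 := finrank_sup_point (U := G2 ⊓ U0) hw1 (fun h' => wU (h'.trans inf_le_right))
      have c6 : G2 ⊓ U0 ⊔ w = G2 := Submodule.eq_of_le_of_finrank_le (sup_le inf_le_left hw2)
        (by rw [h.dim G2 h2]; omega)
      have c7 : y0 ≤ U0 ⊔ w := (y02.trans c6.ge).trans (sup_le_sup_right inf_le_right w)
      rw [card_erase_of_mem (mem_pts.2 ⟨y01, le_inf (hy0.trans inf_le_right) c7⟩)] at c1
      omega
    · have := card_erase_le (s := pts (G1 ⊓ (U0 ⊔ w))) (a := y0)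
      omega
  have a3 := a1.trans (sum_le_sum a2)
  rw [sum_add_distrib, sum_const, card_erase_of_mem (mem_pts.2 ⟨y01, y02⟩), card_pts, hq,
    h.dim G2 h2, b3, smul_eq_mul, ← sum_filter, sum_const, smul_eq_mul] at a3
  have a4 : #(((pts G2).erase y0).filter (fun w => w ∈ pts (G2 ⊓ U0))) ≤ #(pts (G2 ⊓ U0)) :=
    card_le_card fun w hw => (mem_filter.mp hw).2
  rw [card_pts, hq] at a4
  split_ifs at a3 with h2'
  · rw [h2', b2] at a4
    omega
  · have : br 2 (finrank K (G2 ⊓ U0 : Submodule K V)) ≤ br 2 1 := br_mono (by omega)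
    omega

theorem upper_seven2 [Fintype K] [Finite V] (hq : Fintype.card K = 2) (hn : finrank K V = 7)
    (F : Finset (Submodule K V)) (hF : MP_5499ac_co.Inter F) (hd : ∀ A ∈ F, finrank K A = 3) :
    #(high F (cc K (finrank K V) 3 2)) ≤ br (Fintype.card K) 5 := by
  rcases three_split (by omega) F hF hd with h | ⟨S, hFS, hS⟩
  · exact h.trans (br_mono (by norm_num))
  rcases (high F (cc K (finrank K V) 3 2)).eq_empty_or_nonempty with h | ⟨P, hP⟩
  · simp [h]
  rw [mem_high, cc_three (by omega), hn, hq, show br 2 (7 - 2) = 31 by decide] at hP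
  obtain ⟨Y, hY, hSY⟩ := hS.five hP.1 (fun G0 h0 G1 h1 p0 p1 => by
    by_contra hc
    have hPL : P ≤ (G0 ⊔ P) ⊓ (G1 ⊔ P) := le_inf le_sup_right le_sup_right
    obtain ⟨G2, h2, hL⟩ := hS.miss ((G0 ⊔ P) ⊓ (G1 ⊔ P)) (by omega)
      (fun h' => pt_ne_bot hP.1 (le_bot_iff.mp (h' ▸ hPL)))
    have c1 := disj_le (A := G2 ⊓ (G0 ⊔ P)) (B := G2 ⊓ (G1 ⊔ P)) (C := G2)
      (le_bot_iff.mp (hL ▸ le_inf (inf_le_inf inf_le_right inf_le_right)
        (inf_le_left.trans inf_le_left))) inf_le_left inf_le_left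
    rw [hS.dim G2 h2] at c1
    have a0 := deg_mono hFS P
    have := hP.2
    by_cases d1 : finrank K (G2 ⊓ (G1 ⊔ P) : Submodule K V) ≤ 1
    · have := hS.one hq hP.1 h0 h1 h2 p0 p1 (by omega) hL d1
      omega
    · have := hS.one hq hP.1 h1 h0 h2 p1 p0 (by rw [inf_comm]; omega)
        (by rw [inf_comm (G1 ⊔ P)]; exact hL) (by omega)
      omega)
  refine (card_le_card (high_sub F _ Y fun A hA => hSY A (hFS hA))).trans ?_
  rw [card_pts]
  exact br_mono hY

end Pool.Agent.Lib.MP_e960f8_co
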