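import Pool.Agent.Lib.MP_e960f8_co.G4
import Pool.Agent.Lib.MP_e960f8_co.G5

/-! The numbers for the field with two elements, and the full upper bound. -/

namespace Pool.Agent.Lib.MP_e960f8_co

open Module Finset Pool.Agent.Lib.MP_5499ac_co

universe u v

variable {K : Type u} [Field K] {V : Type v} [AddCommGroup V] [Module K V]

/-- number of points -/
def bb (m : ℕ) : ℕ := 2 ^ m - 1

lemma br_bb (m : ℕ) : br 2 m = bb m := by
  have := br_eq_div (q := 2) le_rfl m
  rw [← this, bb]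
  simp

/-- Gaussian coefficients, from the top -/
def cj (k : ℕ) : ℕ → ℕ
  | 0 => 1
  | j + 1 => bb (k + 2 + j) * cj k j / bb (j + 1)

/-- the star numbers -/
def cu (k u : ℕ) : ℕ := if u ≤ k then cj k (k - u) else 0

lemma cc_cu [Fintype K] (hq : Fintype.card K = 2) (k u : ℕ) : cc K (2 * k + 1) k u = cu k u := by
  have key : ∀ j u, u + j = k → cc K (2 * k + 1) k u = cj k j := by
    intro j
    induction j with
    | zero => intro u h; rw [← h, add_zero, cc_self, cj]
    | succ j ih =>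
      intro u h
      have e := cc_exact (K := K) (n := 2 * k + 1) (k := k) (u := u) (by omega) (by omega)
      rw [ih (u + 1) (by omega), hq, show k - u = j + 1 by omega,
        show 2 * k + 1 - u = k + 2 + j by omega] at e
      rw [cj, ← br_bb, ← br_bb, ← e, Nat.mul_div_cancel _ (br_pos (by omega))]
  unfold cu
  split_ifs with h
  · exact key _ u (by omega)
  · rw [cc, if_neg h]

/-- degree bounds when no member has dimension below `m` -/
def ee (k m u : ℕ) : ℕ := if u ≤ m then bb k ^ (m - u) * cu k m else cu k u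

/-- the contribution of the upper layers -/
def R2 (k g m : ℕ) : ℕ := ∑ j ∈ range (k - 3), bb (min (j + 4) g) *
  (bb (j + 4) ^ (j + 2) * ee k m (j + 4) + bb (j + 4) ^ (j + 3) * ee k m (j + 5))

/-- the numerical conditions for the layers -/
def OK (k g m : ℕ) : Prop :=
  (3 ≤ g → R2 k g m + 49 * ee k m 3 + 343 * ee k m 4 ≤ cu k 2) ∧
  R2 k g m + 30 * ee k m 3 + 147 * ee k m 4 ≤ cu k 2 ∧
  (R2 k g m + 21 * ee k m 3 + 147 * ee k m 4 + bb k * cu k 3 ≤ cu k 2 ∨
    R2 k g m + 21 * ee k m 3 + 147 * ee k m 4 + ee k m 2 ≤ cu k 2)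

instance (k g m : ℕ) : Decidable (OK k g m) := by unfold OK; infer_instance

theorem lay_case [Fintype K] [Finite V] (hq : Fintype.card K = 2) {k g m : ℕ} (hk : 5 ≤ k)
    (hn : finrank K V = 2 * k + 1) {S F : Finset (Submodule K V)} (hS : Mx k S) (hF : F ⊆ S)
    (hd : ∀ A ∈ F, finrank K A = k) (G : Submodule K V) (hG : G ∈ S) (hg : finrank K G ≤ g)
    (hgk : g + 2 ≤ k) (hmk : m ≤ k) (hm : ∀ A ∈ S, m ≤ finrank K A) (h : OK k g m) :
    #(high F (cc K (finrank K V) k 2)) ≤ br (Fintype.card K) (k + 1) := by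
  have hc : ∀ U : Submodule K V, deg F U ≤ cu k (finrank K U) := fun U => by
    rw [← cc_cu hq, ← hn]; exact deg_le_cc k F hd U
  have hR : RR k g (ee k m) = R2 k g m := by simp only [RR, R2, br_bb]
  obtain ⟨h1, h2, h3⟩ := h
  refine layered hq hk hn.ge hS hF hd G hG hg hgk (ee k m) (fun U hU => ?_) ?_ ?_ ?_
  · unfold ee
    split_ifs with hu
    · have := down (deg F) k m (cu k m) U (fun U' a1 a2 => by
        have := Submodule.finrank_mono a1
        obtain ⟨G', b1, b2, b3⟩ := hS.small hm (by omega) U' (by omega) a2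
        exact Or.inr ⟨G', b2, b3, deg_pts F U' G' fun A hA => hS.int A (hF hA) G' b1⟩)
        (fun U' _ a2 => a2 ▸ hc U') (m - finrank K U) U le_rfl (by omega)
      rwa [hq, br_bb] at this
    · exact hc U
  · rwa [hn, cc_cu hq, hR]
  · rwa [hn, cc_cu hq, hR]
  · rwa [hn, cc_cu hq, cc_cu hq, hR, br_bb]

/-- the numerical conditions for the two top cases -/
def Top (j : ℕ) : Prop :=
  bb (j + 4) * bb (j + 3) ≤ (bb (j + 3) * bb (j + 2) + (bb (j + 2) + bb (j + 1) - bb j) * 2 ^ (j + 2)) *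
    bb 2 ∧
  bb (j + 3) ^ j * (bb (j + 3) * bb (j + 2) + (bb (j + 2) + bb (j + 1) - bb j) * 2 ^ (j + 2)) ≤
    cu (j + 3) 2

instance (j : ℕ) : Decidable (Top j) := by unfold Top; infer_instance

/-- bound for the number of small members through a point -/
def t0 (j : ℕ) : ℕ := if j = 2 then 3375 else 4 * bb (j + 3) ^ j

/-- the numerical conditions for least dimension `k - 1` -/
def Near (j : ℕ) : Prop :=
  bb (j + 3) ^ j ≤ t0 j ∧
  (∀ τ < j + 2 + 1, 2 ≤ τ → bb τ * (bb (j + 2) ^ (τ - 2) * bb (j + 3) ^ (j + 2 - τ)) ≤ t0 j) ∧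
  cu (j + 3) (j + 2) ≤ bb (j + 3) + 3 * 2 ^ (j + 3) ∧
  t0 j * (3 * 2 ^ (j + 3)) + bb (j + 2) * bb (j + 3) ^ (j + 1) ≤ cu (j + 3) 2

instance (j : ℕ) : Decidable (Near j) := by unfold Near; infer_instance

lemma top_ok : ∀ j < 111, 1 ≤ j → Top j := by decide +kernel

lemma near_ok : ∀ j < 111, 2 ≤ j → Near j := by decide +kernel

lemma lay_ok : ∀ j < 111, 5 ≤ j → OK (j + 3) (j + 1) 2 := by decide +kernel

lemma lay_small : OK 5 2 2 ∧ OK 6 3 2 ∧ OK 6 4 4 ∧ OK 7 3 2 ∧ OK 7 5 4 := by decide +kernel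

theorem upper_hex [Fintype K] [Finite V] (hq : Fintype.card K = 2) (j : ℕ) (h1 : 1 ≤ j)
    (h2 : j < 111) (hn : finrank K V = 2 * (j + 3) + 1)
    (F : Finset (Submodule K V)) (hF : MP_5499ac_co.Inter F) (hd : ∀ A ∈ F, finrank K A = j + 3) :
    #(high F (cc K (finrank K V) (j + 3) 2)) ≤ br (Fintype.card K) (j + 3 + 1) := by
  classical
  obtain ⟨S, hFS, i1, i2, i3⟩ := exists_max (j + 3) F hF (fun A hA => (hd A hA).le)
  have hS : Mx (j + 3) S := ⟨i1, i2, i3⟩
  by_cases hA : ∃ E ∈ S, finrank K E = 1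
  · obtain ⟨E, hE, hE1⟩ := hA
    exact (high_star _ F hd E hE1 fun A hA =>
      pt_le_of_inf hE1 (i1 E hE A (hFS hA))).trans (br_pos (by omega))
  push Not at hA
  have m2 : ∀ A ∈ S, 2 ≤ finrank K A := by
    intro A hAS
    have a2 := hA A hAS
    have a4 : A ≠ ⊥ := by simpa using i1 A hAS A hAS
    have a5 : finrank K A ≠ 0 := fun h => a4 (Submodule.finrank_eq_zero.mp h)
    omega
  have cases : ∀ g : ℕ, (∃ G ∈ S, finrank K G ≤ g) ∨ ∀ A ∈ S, g + 1 ≤ finrank K A := fun g => by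
    by_cases h : ∃ G ∈ S, finrank K G ≤ g
    · exact Or.inl h
    · push Not at h
      exact Or.inr h
  rcases cases (j + 2) with ⟨G, hG, g1⟩ | hm
  swap
  · have fr : FreeK (j + 3) S := ⟨i1, fun A hA => le_antisymm (i2 A hA) (hm A hA),
      fun U a1 a2 => i3 U a1.le a2 fun h => by have := hm U h; omega⟩
    obtain ⟨n1, n2⟩ := top_ok j h2 h1
    have : high F (cc K (finrank K V) (j + 3) 2) = ∅ := by
      rw [eq_empty_iff_forall_notMem]
      intro P hP
      rw [mem_high, hn, cc_cu hq] at hP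
      have a := (deg_mono hFS P).trans (fr.point _ le_rfl (by
        simpa only [hq, br_bb] using n1) P hP.1)
      simp only [hq, br_bb] at a
      omega
    simp [this]
  have c9 : ∀ u, cc K 9 4 u = cu 4 u := cc_cu hq 4
  have c11 : ∀ u, cc K 11 5 u = cu 5 u := cc_cu hq 5
  rcases cases (j + 1) with ⟨G, hG, g2⟩ | hm
  swap
  · have g2 : finrank K G = j + 2 := le_antisymm g1 (hm G hG)
    by_cases hj : j = 1
    · subst hj
      exact four_three hq hn (by rw [c9]; decide +kernel) (by rw [c9]; decide +kernel) hS hFS hd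
        hm G hG g2
    obtain ⟨n1, n2, n3, n4⟩ := near_ok j h2 (by omega)
    refine near_top hS hFS hd hm G hG g2 h1 (t0 j) (3 * 2 ^ (j + 3)) _ ?_ ?_ ?_ ?_
    · simpa only [hq, br_bb] using n1
    · simpa only [hq, br_bb] using n2
    · simpa only [hq, br_bb, hn, cc_cu hq] using n3
    · simpa only [hq, br_bb, hn, cc_cu hq] using n4
  obtain ⟨l1, l2, l3, l4, l5⟩ := lay_small
  rcases (show j = 1 ∨ j = 2 ∨ j = 3 ∨ j = 4 ∨ 5 ≤ j by omega) with rfl | rfl | rfl | rfl | hj
  · exact four_two hq hn (by rw [c9]; decide +kernel) (by rw [c9]; decide +kernel) hS hFS hd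
      m2 G hG (le_antisymm g2 (m2 G hG))
  · rcases cases 2 with ⟨L, hL, g3⟩ | hm
    · exact lay_case hq (by norm_num) hn hS hFS hd L hL g3 (by norm_num) (by norm_num) m2 l1
    · exact five_three hq hn (by rw [c11]; decide +kernel) (by rw [c11]; decide +kernel)
        (by rw [c11]; decide +kernel) hS hFS hd hm G hG (le_antisymm g2 (hm G hG))
  · rcases cases 3 with ⟨L, hL, g3⟩ | hm
    · exact lay_case hq (by norm_num) hn hS hFS hd L hL g3 (by norm_num) (by norm_num) m2 l2
    · exact lay_case hq (by norm_num) hn hS hFS hd G hG g2 (by norm_num) (by norm_num) hm l3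
  · rcases cases 3 with ⟨L, hL, g3⟩ | hm
    · exact lay_case hq (by norm_num) hn hS hFS hd L hL g3 (by norm_num) (by norm_num) m2 l4
    · exact lay_case hq (by norm_num) hn hS hFS hd G hG g2 (by norm_num) (by norm_num) hm l5
  · exact lay_case hq (by omega) hn hS hFS hd G hG g2 (by omega) (by omega) m2 (lay_ok j h2 hj)

theorem upper_full [Fintype K] [Finite V] (k : ℕ) (hk : 2 ≤ k) (hn : 2 * k + 1 ≤ finrank K V)
    (F : Finset (Submodule K V)) (hF : MP_5499ac_co.Inter F) (hd : ∀ A ∈ F, finrank K A = k) :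
    #(high F (cc K (finrank K V) k 2)) ≤
      br (Fintype.card K) (if finrank K V = 7 ∧ k = 3 then 5 else k + 1) := by
  by_cases hex : Fintype.card K = 2 ∧ finrank K V = 2 * k + 1 ∧ 3 ≤ k ∧ k ≤ 113
  swap
  · exact upper_all k hk hn hex F hF hd
  obtain ⟨hq, h1, h2, h3⟩ := hex
  split_ifs with h7
  · obtain ⟨h7, rfl⟩ := h7
    exact upper_seven2 hq h7 F hF hd
  · obtain ⟨j, rfl⟩ : ∃ j, k = j + 3 := ⟨k - 3, by omega⟩
    exact upper_hex hq j (by omega) (by omega) h1 F hF hd

end Pool.Agent.Lib.MP_e960f8_co
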