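import Pool.Agent.Lib.MP_e960f8_co.K4

/-! The cases `k = 2` and `k = 3`. -/

namespace Pool.Agent.Lib.MP_e960f8_co

open Module Finset Pool.Agent.Lib.MP_5499ac_co

universe u v

variable {K : Type u} [Field K] {V : Type v} [AddCommGroup V] [Module K V]

lemma line_le [Finite V] {L X Z Y : Submodule K V} (hL : finrank K L = 2) (hX : finrank K X = 1)
    (hZ : finrank K Z = 1) (hne : ¬ Z ≤ X) (h1 : X ≤ L) (h2 : Z ≤ L) (h3 : X ≤ Y) (h4 : Z ≤ Y) :
    L ≤ Y := by
  have a1 := finrank_sup_point hZ hne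
  have a2 : X ⊔ Z = L := Submodule.eq_of_le_of_finrank_le (sup_le h1 h2) (by omega)
  rw [← a2]
  exact sup_le h3 h4

lemma high_sub [Finite V] (F : Finset (Submodule K V)) (c : ℕ) (Y : Submodule K V)
    (h : ∀ A ∈ F, A ≤ Y) : high F c ⊆ pts Y := by
  classical
  intro P hP
  rw [mem_high] at hP
  have h0 : deg F P ≠ 0 := by omega
  obtain ⟨A, hA⟩ := card_ne_zero.mp h0
  rw [mem_filter] at hA
  exact mem_pts.2 ⟨hP.1, hA.2.trans (h A hA.1)⟩

lemma finrank_sup_pt_le [Finite V] {U P : Submodule K V} (hP : finrank K P = 1) :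
    finrank K (U ⊔ P : Submodule K V) ≤ finrank K U + 1 := by
  have := Submodule.finrank_sup_add_finrank_inf_eq U P
  omega

lemma lines_in [Finite V] (T : Finset (Submodule K V)) (hT : MP_5499ac_co.Inter T)
    (hd : ∀ A ∈ T, finrank K A = 2) (g : ℕ) (hg : 1 ≤ g)
    (hG : ∀ E : Submodule K V, finrank K E = 1 →
      ∃ G : Submodule K V, finrank K G ≤ g ∧ ¬ E ≤ G ∧ ∀ A ∈ T, A ⊓ G ≠ ⊥) :
    ∃ Y : Submodule K V, finrank K Y ≤ g + 1 ∧ ∀ A ∈ T, A ≤ Y := by
  rcases T.eq_empty_or_nonempty with rfl | ⟨L0, h0⟩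
  · exact ⟨⊥, by simp, by simp⟩
  by_cases hall : ∀ A ∈ T, A = L0
  · exact ⟨L0, by rw [hd L0 h0]; omega, fun A hA => (hall A hA).le⟩
  push Not at hall
  obtain ⟨L1, h1, hne⟩ := hall
  obtain ⟨E, hE, hEL⟩ := exists_point_le (hT L0 h0 L1 h1)
  obtain ⟨G, hG1, hG2, hG3⟩ := hG E hE
  have thru : ∀ A ∈ T, E ≤ A → A ≤ G ⊔ E := by
    intro A hA hEA
    obtain ⟨X, hX, hXA⟩ := exists_point_le (hG3 A hA)
    exact line_le (hd A hA) hX hE (fun h => hG2 (h.trans (hXA.trans inf_le_right)))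
      (hXA.trans inf_le_left) hEA ((hXA.trans inf_le_right).trans le_sup_left) le_sup_right
  refine ⟨G ⊔ E, (finrank_sup_pt_le hE).trans (by omega), fun A hA => ?_⟩
  by_cases hEA : E ≤ A
  · exact thru A hA hEA
  obtain ⟨X0, hX0, hXA0⟩ := exists_point_le (hT A hA L0 h0)
  obtain ⟨X1, hX1, hXA1⟩ := exists_point_le (hT A hA L1 h1)
  refine line_le (hd A hA) hX0 hX1 (fun h => ?_) (hXA0.trans inf_le_left) (hXA1.trans inf_le_left)
    ((hXA0.trans inf_le_right).trans (thru L0 h0 (hEL.trans inf_le_left)))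
    ((hXA1.trans inf_le_right).trans (thru L1 h1 (hEL.trans inf_le_right)))
  have a1 : L1 ≤ L0 := line_le (hd L1 h1) hX1 hE (fun h' => hEA (h'.trans (hXA1.trans inf_le_left)))
    (hXA1.trans inf_le_right) (hEL.trans inf_le_right) (h.trans (hXA0.trans inf_le_right))
    (hEL.trans inf_le_left)
  exact hne (Submodule.eq_of_le_of_finrank_le a1 (by rw [hd L0 h0, hd L1 h1]))

theorem upper_two [Fintype K] [Finite V] (F : Finset (Submodule K V))
    (hF : MP_5499ac_co.Inter F) (hd : ∀ A ∈ F, finrank K A = 2) :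
    #(high F (cc K (finrank K V) 2 2)) ≤ br (Fintype.card K) 3 := by
  by_cases hs : ∃ E : Submodule K V, finrank K E = 1 ∧ ∀ A ∈ F, E ≤ A
  · obtain ⟨E, hE, h⟩ := hs
    exact (high_star 2 F hd E hE h).trans (br_pos (by norm_num))
  push Not at hs
  obtain ⟨Y, hY, h⟩ := lines_in F hF hd 2 (by norm_num) (fun E hE => by
    obtain ⟨G, hG, hEG⟩ := hs E hE
    exact ⟨G, (hd G hG).le, hEG, fun A hA => hF A hA G hG⟩)
  refine (card_le_card (high_sub F _ Y h)).trans ?_
  rw [card_pts]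
  exact br_mono hY

lemma not_le_of_inf {X U G : Submodule K V} (hX : finrank K X = 1) (hUG : U ⊓ G = ⊥)
    (h : X ≤ G) : ¬ X ≤ U := fun h' => pt_ne_bot hX (le_bot_iff.mp (hUG ▸ le_inf h' h))

lemma line_deg [Fintype K] [Finite V] (F : Finset (Submodule K V)) (hd : ∀ A ∈ F, finrank K A = 3)
    (U G : Submodule K V) (hU : finrank K U = 2) (hG : finrank K G ≤ 3) (hUG : U ⊓ G = ⊥)
    (hFG : ∀ A ∈ F, A ⊓ G ≠ ⊥) : deg F U ≤ br (Fintype.card K) 3 := by
  have := deg_step F U G 1 hFG (fun X hX hXG => deg_le_one F 3 hd _ (by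
    rw [finrank_sup_point hX (not_le_of_inf hX hUG hXG), hU]))
  rw [mul_one] at this
  exact this.trans (br_mono hG)

lemma inf_sup_pt [Finite V] (G U w : Submodule K V) (hw : finrank K w = 1) :
    finrank K (G ⊓ (U ⊔ w) : Submodule K V) ≤ finrank K (G ⊓ U : Submodule K V) + 1 := by
  have a1 := Submodule.finrank_sup_add_finrank_inf_eq G (U ⊔ w)
  have a2 := Submodule.finrank_sup_add_finrank_inf_eq G U
  have a3 := finrank_sup_pt_le (U := U) hw
  have a4 : finrank K (G ⊔ U : Submodule K V) ≤ finrank K (G ⊔ (U ⊔ w) : Submodule K V) :=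
    Submodule.finrank_mono (sup_le_sup_left le_sup_left _)
  omega

lemma swap_pt [Finite V] {P w x : Submodule K V} (hP : finrank K P = 1) (hw : finrank K w = 1)
    (hx : finrank K x = 1) (hxP : ¬ P ≤ x) (h : x ≤ P ⊔ w) : w ≤ P ⊔ x := by
  have a1 := finrank_sup_point hP hxP
  have a2 := finrank_sup_pt_le (U := P) hw
  have a3 : x ⊔ P = P ⊔ w := Submodule.eq_of_le_of_finrank_le (sup_le h le_sup_left) (by omega)
  rw [sup_comm, a3]
  exact le_sup_right

/-- a family of 3-spaces in which every point and every line is missed by a member -/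
structure Free3 (S : Finset (Submodule K V)) : Prop where
  int : MP_5499ac_co.Inter S
  dim : ∀ A ∈ S, finrank K A = 3
  miss : ∀ U : Submodule K V, finrank K U ≤ 2 → U ≠ ⊥ → ∃ G ∈ S, U ⊓ G = ⊥

lemma Free3.line [Fintype K] [Finite V] {S : Finset (Submodule K V)} (h : Free3 S)
    (U : Submodule K V) (hU : finrank K U = 2) : deg S U ≤ br (Fintype.card K) 3 := by
  obtain ⟨G, hG, hUG⟩ := h.miss U hU.le (by rintro rfl; simp at hU)
  exact line_deg S h.dim U G hU (h.dim G hG).le hUG fun A hA => h.int A hA G hG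

lemma Free3.point [Fintype K] [Finite V] {S : Finset (Submodule K V)} (h : Free3 S)
    (P : Submodule K V) (hP : finrank K P = 1) :
    deg S P ≤ br (Fintype.card K) 3 * br (Fintype.card K) 3 := by
  obtain ⟨G, hG, hPG⟩ := h.miss P (by omega) (pt_ne_bot hP)
  have := deg_step S P G _ (fun A hA => h.int A hA G hG) (fun X hX hXG => h.line _ (by
    rw [finrank_sup_point hX (not_le_of_inf hX hPG hXG), hP]))
  rwa [h.dim G hG] at this

lemma Free3.three [Fintype K] [Finite V] {S : Finset (Submodule K V)} (h : Free3 S)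
    {P G0 G1 : Submodule K V} (hP : finrank K P = 1) (h0 : G0 ∈ S) (h1 : G1 ∈ S)
    (p0 : ¬ P ≤ G0) (p1 : ¬ P ≤ G1)
    (hs : finrank K ((G0 ⊔ P) ⊓ (G1 ⊔ P) : Submodule K V) ≤ 2) :
    deg S P ≤ br (Fintype.card K) 3 * (Fintype.card K + 1) +
      (Fintype.card K + 2) * Fintype.card K ^ 2 := by
  classical
  set U0 := G0 ⊔ P with hU0
  set U1 := G1 ⊔ P with hU1
  have hPL : P ≤ U0 ⊓ U1 := le_inf le_sup_right le_sup_right
  obtain ⟨G2, h2, hL⟩ := h.miss (U0 ⊓ U1) hs
    (fun h' => pt_ne_bot hP (le_bot_iff.mp (h' ▸ hPL)))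
  have a0 := deg_le_sum S P (pts G2) (fun A hA _ => by
    obtain ⟨X, hX1, hX⟩ := exists_point_le (h.int A hA G2 h2)
    exact ⟨X, mem_pts.2 ⟨hX1, hX.trans inf_le_right⟩, hX.trans inf_le_left⟩)
  have d10 : finrank K (G1 ⊓ U0 : Submodule K V) ≤ 1 := by
    have : G1 ⊓ U0 < U0 ⊓ U1 := by
      refine lt_of_le_of_ne (le_inf inf_le_right (inf_le_left.trans le_sup_left)) fun h' => ?_
      exact p1 ((h' ▸ hPL : P ≤ G1 ⊓ U0).trans inf_le_left)
    have := Submodule.finrank_lt_finrank_of_lt this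
    omega
  set bad := pts (G2 ⊓ U0) ∪ pts (G2 ⊓ U1) with hbad
  have a1 : ∀ w ∈ pts G2, deg S (P ⊔ w) ≤ (Fintype.card K + 1) +
      if w ∈ bad then Fintype.card K ^ 2 else 0 := by
    intro w hw
    obtain ⟨hw1, hw2⟩ := mem_pts.1 hw
    have wP : ¬ w ≤ P := fun h' => not_le_of_inf hw1 hL hw2 (h'.trans hPL)
    have dl : finrank K (P ⊔ w : Submodule K V) = 2 := by rw [finrank_sup_point hw1 wP, hP]
    split_ifs with hb
    · have := h.line _ dl
      rwa [br_succ, br_two] at this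
    · simp only [hbad, mem_union, mem_pts, hw1, true_and, le_inf_iff, hw2, not_or] at hb
      have b1 := deg_le_sum S (P ⊔ w) (pts (G1 ⊓ (U0 ⊔ w))) (fun A hA hle => by
        obtain ⟨x, hx1, hx⟩ := exists_point_le (h.int A hA G0 h0)
        obtain ⟨y, hy1, hy⟩ := exists_point_le (h.int A hA G1 h1)
        have c1 : ¬ x ≤ P ⊔ w := fun h' => hb.1
          ((swap_pt hP hw1 hx1 (fun h'' => p0 (h''.trans (hx.trans inf_le_right))) h').trans
            (sup_le le_sup_right ((hx.trans inf_le_right).trans le_sup_left)))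
        have c2 : P ⊔ w ⊔ x = A := Submodule.eq_of_le_of_finrank_le
          (sup_le hle (hx.trans inf_le_left)) (by rw [finrank_sup_point hx1 c1, dl, h.dim A hA])
        have c3 : A ≤ U0 ⊔ w := by
          rw [← c2]
          exact sup_le (sup_le (le_sup_right.trans le_sup_left) le_sup_right)
            (((hx.trans inf_le_right).trans le_sup_left).trans le_sup_left)
        exact ⟨y, mem_pts.2 ⟨hy1, le_inf (hy.trans inf_le_right) ((hy.trans inf_le_left).trans c3)⟩,
          hy.trans inf_le_left⟩)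
      have b2 : ∀ y ∈ pts (G1 ⊓ (U0 ⊔ w)), deg S (P ⊔ w ⊔ y) ≤ 1 := by
        intro y hy
        obtain ⟨hy1, hy2⟩ := mem_pts.1 hy
        have c1 : ¬ y ≤ P ⊔ w := fun h' => hb.2
          ((swap_pt hP hw1 hy1 (fun h'' => p1 (h''.trans (hy2.trans inf_le_left))) h').trans
            (sup_le le_sup_right ((hy2.trans inf_le_left).trans le_sup_left)))
        exact deg_le_one S 3 h.dim _ (by rw [finrank_sup_point hy1 c1, dl])
      have b3 := b1.trans (sum_le_card_nsmul _ _ 1 b2)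
      rw [card_pts, smul_eq_mul, mul_one] at b3
      have b4 := inf_sup_pt G1 U0 w hw1
      have b5 : br (Fintype.card K) (finrank K (G1 ⊓ (U0 ⊔ w) : Submodule K V)) ≤
          br (Fintype.card K) 2 := br_mono (by omega)
      rw [br_two] at b5
      omega
  have a2 : bad.card ≤ Fintype.card K + 2 := by
    refine (card_union_le _ _).trans ?_
    rw [card_pts, card_pts]
    have c1 := Submodule.finrank_sup_add_finrank_inf_eq (G2 ⊓ U0) (G2 ⊓ U1)
    have c2 : G2 ⊓ U0 ⊓ (G2 ⊓ U1) = ⊥ := le_bot_iff.mp (hL ▸ le_inf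
      (inf_le_inf inf_le_right inf_le_right) (inf_le_left.trans inf_le_left))
    have c3 : finrank K (G2 ⊓ U0 ⊔ G2 ⊓ U1 : Submodule K V) ≤ 3 :=
      h.dim G2 h2 ▸ Submodule.finrank_mono (sup_le inf_le_left inf_le_left)
    have c4 : finrank K (G2 ⊓ U0 : Submodule K V) ≠ 0 := fun h' => h.int G2 h2 G0 h0
      (le_bot_iff.mp (Submodule.finrank_eq_zero.mp h' ▸ inf_le_inf_left G2 le_sup_left))
    have c5 : finrank K (G2 ⊓ U1 : Submodule K V) ≠ 0 := fun h' => h.int G2 h2 G1 h1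
      (le_bot_iff.mp (Submodule.finrank_eq_zero.mp h' ▸ inf_le_inf_left G2 le_sup_left))
    rw [c2, finrank_bot] at c1
    have m1 : ∀ a, a ≤ 1 → br (Fintype.card K) a ≤ 1 := fun a ha => (br_mono ha).trans_eq (br_one _)
    have m2 : ∀ a, a ≤ 2 → br (Fintype.card K) a ≤ Fintype.card K + 1 :=
      fun a ha => (br_mono ha).trans_eq (br_two _)
    by_cases hc : finrank K (G2 ⊓ U0 : Submodule K V) ≤ 1
    · have := m1 _ hc
      have := m2 (finrank K (G2 ⊓ U1 : Submodule K V)) (by omega)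
      omega
    · have := m1 (finrank K (G2 ⊓ U1 : Submodule K V)) (by omega)
      have := m2 (finrank K (G2 ⊓ U0 : Submodule K V)) (by omega)
      omega
  refine a0.trans ((sum_le_sum a1).trans ?_)
  rw [sum_add_distrib, sum_const, card_pts, h.dim G2 h2, smul_eq_mul, ← sum_filter, sum_const,
    smul_eq_mul]
  refine Nat.add_le_add_left (Nat.mul_le_mul_right _ (le_trans (card_le_card ?_) a2)) _
  intro w hw
  exact (mem_filter.mp hw).2

lemma sup4 [Finite V] {U X1 X2 Y : Submodule K V} (hU : finrank K U = 4) (h1 : X1 ≤ U) (h2 : X2 ≤ U)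
    (d1 : 3 ≤ finrank K X1) (d2 : 3 ≤ finrank K X2)
    (d : finrank K (X1 ⊓ X2 : Submodule K V) ≤ 2) (y1 : X1 ≤ Y) (y2 : X2 ≤ Y) : U ≤ Y := by
  have a1 := Submodule.finrank_sup_add_finrank_inf_eq X1 X2
  have a2 : X1 ⊔ X2 = U := Submodule.eq_of_le_of_finrank_le (sup_le h1 h2) (by omega)
  rw [← a2]
  exact sup_le y1 y2

lemma Free3.five [Fintype K] [Finite V] {S : Finset (Submodule K V)} (h : Free3 S)
    {P : Submodule K V} (hP : finrank K P = 1)
    (hb : ∀ G0 ∈ S, ∀ G1 ∈ S, ¬ P ≤ G0 → ¬ P ≤ G1 →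
      3 ≤ finrank K ((G0 ⊔ P) ⊓ (G1 ⊔ P) : Submodule K V)) :
    ∃ Y : Submodule K V, finrank K Y ≤ 5 ∧ ∀ A ∈ S, A ≤ Y := by
  have d4 : ∀ G ∈ S, ¬ P ≤ G → finrank K (G ⊔ P : Submodule K V) = 4 := fun G hG hPG => by
    rw [finrank_sup_point hP hPG, h.dim G hG]
  have out : ∀ M : Submodule K V, P ≤ M → 2 ≤ finrank K M →
      ∃ G ∈ S, ¬ P ≤ G ∧ ¬ M ≤ G ⊔ P := by
    intro M hPM hM
    obtain ⟨x, hx, hxP⟩ : ∃ x ∈ M, x ∉ P := by
      by_contra hc
      push Not at hc
      have := Submodule.finrank_mono (show M ≤ P from hc)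
      omega
    have x0 : x ≠ 0 := by rintro rfl; exact hxP P.zero_mem
    have x1 : finrank K (K ∙ x) = 1 := finrank_span_singleton x0
    have x2 : ¬ (K ∙ x) ≤ P := fun h' => hxP ((Submodule.span_singleton_le_iff_mem x P).mp h')
    have dl := finrank_sup_point x1 x2
    obtain ⟨G, hG, hLG⟩ := h.miss (P ⊔ K ∙ x) (by omega) (by
      intro h'
      rw [h', finrank_bot] at dl
      omega)
    have hPG : ¬ P ≤ G := fun h' => not_le_of_inf hP hLG h' le_sup_left
    refine ⟨G, hG, hPG, fun hle => ?_⟩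
    have a1 := Submodule.finrank_sup_add_finrank_inf_eq (P ⊔ K ∙ x) G
    have a2 : finrank K (P ⊔ (K ∙ x) ⊔ G : Submodule K V) ≤ finrank K (G ⊔ P : Submodule K V) :=
      Submodule.finrank_mono (sup_le (sup_le le_sup_right
        (((Submodule.span_singleton_le_iff_mem x M).mpr hx).trans hle)) le_sup_left)
    rw [hLG, finrank_bot, h.dim G hG] at a1
    rw [d4 G hG hPG] at a2
    omega
  obtain ⟨G0, h0, hG0⟩ := h.miss P (by omega) (pt_ne_bot hP)
  have p0 : ¬ P ≤ G0 := fun h' => not_le_of_inf hP hG0 h' le_rfl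
  obtain ⟨G1, h1, p1, n1⟩ := out (G0 ⊔ P) le_sup_right (by rw [d4 G0 h0 p0]; norm_num)
  set U0 := G0 ⊔ P with hU0
  set U1 := G1 ⊔ P with hU1
  have m1 : 3 ≤ finrank K (U0 ⊓ U1 : Submodule K V) := hb G0 h0 G1 h1 p0 p1
  have m2 : finrank K (U0 ⊓ U1 : Submodule K V) ≤ 3 := by
    have : U0 ⊓ U1 < U0 := lt_of_le_of_ne inf_le_left fun h' => n1 (inf_eq_left.mp h')
    have := Submodule.finrank_lt_finrank_of_lt this
    have : finrank K U0 = 4 := d4 G0 h0 p0
    omega
  have small : ∀ U : Submodule K V, ¬ U0 ⊓ U1 ≤ U →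
      finrank K (U0 ⊓ U1 ⊓ U : Submodule K V) ≤ 2 := by
    intro U hU
    have : U0 ⊓ U1 ⊓ U < U0 ⊓ U1 := lt_of_le_of_ne inf_le_left fun h' => hU (inf_eq_left.mp h')
    have := Submodule.finrank_lt_finrank_of_lt this
    omega
  have first : ∀ G ∈ S, ¬ P ≤ G → ¬ U0 ⊓ U1 ≤ G ⊔ P → G ⊔ P ≤ U0 ⊔ U1 := by
    intro G hG hPG hM
    refine sup4 (X1 := (G ⊔ P) ⊓ U0) (X2 := (G ⊔ P) ⊓ U1) (d4 G hG hPG) inf_le_left inf_le_left
      (hb G hG G0 h0 hPG p0) (hb G hG G1 h1 hPG p1) (le_trans (Submodule.finrank_mono ?_) (small _ hM))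
      (inf_le_right.trans le_sup_left) (inf_le_right.trans le_sup_right)
    exact le_inf (inf_le_inf inf_le_right inf_le_right) (inf_le_left.trans inf_le_left)
  obtain ⟨G2, h2, p2, n2⟩ := out (U0 ⊓ U1) (le_inf le_sup_right le_sup_right) (by omega)
  have off : ∀ G ∈ S, ¬ P ≤ G → G ⊔ P ≤ U0 ⊔ U1 := by
    intro G hG hPG
    by_cases hM : U0 ⊓ U1 ≤ G ⊔ P
    · refine sup4 (X1 := U0 ⊓ U1) (X2 := (G ⊔ P) ⊓ (G2 ⊔ P)) (d4 G hG hPG) hM inf_le_left m1
        (hb G hG G2 h2 hPG p2) (le_trans (Submodule.finrank_mono ?_) (small _ n2))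
        (inf_le_left.trans le_sup_left) (inf_le_right.trans (first G2 h2 p2 n2))
      exact inf_le_inf_left _ inf_le_right
    · exact first G hG hPG hM
  refine ⟨U0 ⊔ U1, ?_, fun A hA => ?_⟩
  · have a1 := Submodule.finrank_sup_add_finrank_inf_eq U0 U1
    have : finrank K U0 = 4 := d4 G0 h0 p0
    have : finrank K U1 = 4 := d4 G1 h1 p1
    omega
  by_cases hPA : P ≤ A
  swap
  · exact le_sup_left.trans (off A hA hPA)
  by_contra hAY
  have a1 : A ⊓ (U0 ⊔ U1) < A := lt_of_le_of_ne inf_le_left fun h' => hAY (inf_eq_left.mp h')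
  have a2 := Submodule.finrank_lt_finrank_of_lt a1
  rw [h.dim A hA] at a2
  have a3 : P ≤ A ⊓ (U0 ⊔ U1) := le_inf hPA (le_sup_right.trans le_sup_left)
  obtain ⟨G, hG, hLG⟩ := h.miss (A ⊓ (U0 ⊔ U1)) (by omega)
    (fun h' => pt_ne_bot hP (le_bot_iff.mp (h' ▸ a3)))
  have hPG : ¬ P ≤ G := fun h' => not_le_of_inf hP hLG h' a3
  refine h.int A hA G hG (le_bot_iff.mp (hLG ▸ le_inf (le_inf inf_le_left ?_) inf_le_right))
  exact inf_le_right.trans (le_sup_left.trans (off G hG hPG))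

lemma cc_three [Fintype K] {n : ℕ} (hn : 3 ≤ n) : cc K n 3 2 = br (Fintype.card K) (n - 2) := by
  have e := cc_exact (K := K) (n := n) (k := 3) (u := 2) (by omega) hn
  rwa [show 2 + 1 = 3 from rfl, cc_self, show 3 - 2 = 1 from rfl, br_one, mul_one, mul_one] at e

/-- either at most `[4]` high points, or the family sits in a free one -/
theorem three_split [Fintype K] [Finite V] (hn : 7 ≤ finrank K V) (F : Finset (Submodule K V))
    (hF : MP_5499ac_co.Inter F) (hd : ∀ A ∈ F, finrank K A = 3) :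
    #(high F (cc K (finrank K V) 3 2)) ≤ br (Fintype.card K) 4 ∨
      ∃ S : Finset (Submodule K V), F ⊆ S ∧ Free3 S := by
  classical
  have hq := two_le_card K
  obtain ⟨S, hFS, hS, hSd, hmax⟩ := exists_max 3 F hF (fun A hA => (hd A hA).le)
  by_cases hA : ∃ E ∈ S, finrank K E = 1
  · obtain ⟨E, hE, hE1⟩ := hA
    exact Or.inl ((high_star 3 F hd E hE1 fun A hA =>
      pt_le_of_inf hE1 (hS E hE A (hFS hA))).trans (br_pos (by norm_num)))
  push Not at hA
  by_cases hB : ∃ L ∈ S, finrank K L = 2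
  swap
  · push Not at hB
    have hdim : ∀ A ∈ S, finrank K A = 3 := by
      intro A hAS
      have a1 := hSd A hAS
      have a2 := hA A hAS
      have a3 := hB A hAS
      have a4 : A ≠ ⊥ := by simpa using hS A hAS A hAS
      have a5 : finrank K A ≠ 0 := fun h => a4 (Submodule.finrank_eq_zero.mp h)
      omega
    refine Or.inr ⟨S, hFS, hS, hdim, fun U hU hU0 => hmax U (by omega) hU0 fun h => ?_⟩
    have := hdim U h
    omega
  left
  obtain ⟨L, hL, hL2⟩ := hB
  obtain ⟨Y, hY, hTY⟩ := lines_in (S.filter (fun A : Submodule K V => finrank K A = 2))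
    (fun A hA B hB => hS A (mem_filter.mp hA).1 B (mem_filter.mp hB).1)
    (fun A hA => (mem_filter.mp hA).2) 3 (by norm_num) (fun E hE => by
      obtain ⟨G, hG, hEG⟩ := hmax E (by omega) (pt_ne_bot hE) (fun h => hA E h hE)
      exact ⟨G, hSd G hG, fun h => not_le_of_inf hE hEG h le_rfl,
        fun A hA => hS A (mem_filter.mp hA).1 G hG⟩)
  have hsub : high F (cc K (finrank K V) 3 2) ⊆ pts Y := by
    intro P hP
    rw [mem_high] at hP
    refine mem_pts.2 ⟨hP.1, ?_⟩
    by_contra hPY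
    have a1 := deg_step F P L (br (Fintype.card K) 3) (fun A hA => hS A (hFS hA) L hL)
      (fun X hX hXL => by
        have b1 : ¬ X ≤ P := fun h => hPY
          (pt_eq hX hP.1 h ▸ hXL.trans (hTY L (mem_filter.mpr ⟨hL, hL2⟩)))
        have b2 : finrank K (P ⊔ X : Submodule K V) = 2 := by rw [finrank_sup_point hX b1, hP.1]
        obtain ⟨G, hG, hUG⟩ := hmax (P ⊔ X) (by omega) (by
          intro h
          rw [h, finrank_bot] at b2
          omega) (fun h => hPY (le_sup_left.trans (hTY _ (mem_filter.mpr ⟨h, b2⟩))))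
        exact line_deg F hd _ G b2 (hSd G hG) hUG fun A hA => hS A (hFS hA) G hG)
    have a2 : br (Fintype.card K) 2 * br (Fintype.card K) 3 ≤ br (Fintype.card K) 5 := by
      obtain ⟨t, ht⟩ : ∃ t, Fintype.card K = t + 2 := ⟨Fintype.card K - 2, by omega⟩
      rw [ht]
      simp only [br, sum_range_succ, range_zero, sum_empty]
      exact Nat.le.intro (k := 10 + 27 * t + 23 * t ^ 2 + 8 * t ^ 3 + t ^ 4) (by ring)
    have a3 : br (Fintype.card K) 5 ≤ br (Fintype.card K) (finrank K V - 2) := br_mono (by omega)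
    have a4 := hP.2
    rw [hL2] at a1
    rw [cc_three (by omega)] at a4
    omega
  refine (card_le_card hsub).trans ?_
  rw [card_pts]
  exact br_mono hY

theorem upper_three [Fintype K] [Finite V] (hn : 8 ≤ finrank K V) (F : Finset (Submodule K V))
    (hF : MP_5499ac_co.Inter F) (hd : ∀ A ∈ F, finrank K A = 3) :
    #(high F (cc K (finrank K V) 3 2)) ≤ br (Fintype.card K) 4 := by
  have hq := two_le_card K
  rcases three_split (by omega) F hF hd with h | ⟨S, hFS, hS⟩
  · exact h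
  have : high F (cc K (finrank K V) 3 2) = ∅ := by
    rw [eq_empty_iff_forall_notMem]
    intro P hP
    rw [mem_high] at hP
    have a1 := (deg_mono hFS P).trans (hS.point P hP.1)
    have a2 : br (Fintype.card K) 3 * br (Fintype.card K) 3 ≤ br (Fintype.card K) 6 := by
      obtain ⟨t, ht⟩ : ∃ t, Fintype.card K = t + 2 := ⟨Fintype.card K - 2, by omega⟩
      rw [ht]
      simp only [br, sum_range_succ, range_zero, sum_empty]
      exact Nat.le.intro (k := 14 + 59 * t + 72 * t ^ 2 + 39 * t ^ 3 + 10 * t ^ 4 + t ^ 5) (by ring)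
    have a3 : br (Fintype.card K) 6 ≤ br (Fintype.card K) (finrank K V - 2) := br_mono (by omega)
    have a4 := hP.2
    rw [cc_three (by omega)] at a4
    omega
  simp [this]

theorem upper_seven [Fintype K] [Finite V] (hq : 3 ≤ Fintype.card K) (hn : finrank K V = 7)
    (F : Finset (Submodule K V)) (hF : MP_5499ac_co.Inter F) (hd : ∀ A ∈ F, finrank K A = 3) :
    #(high F (cc K (finrank K V) 3 2)) ≤ br (Fintype.card K) 5 := by
  rcases three_split (by omega) F hF hd with h | ⟨S, hFS, hS⟩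
  · exact h.trans (br_mono (by norm_num))
  rcases (high F (cc K (finrank K V) 3 2)).eq_empty_or_nonempty with h | ⟨P, hP⟩
  · simp [h]
  rw [mem_high, cc_three (by omega), hn] at hP
  obtain ⟨Y, hY, hSY⟩ := hS.five hP.1 (fun G0 h0 G1 h1 p0 p1 => by
    by_contra hc
    have a1 := (deg_mono hFS P).trans (hS.three hP.1 h0 h1 p0 p1 (by omega))
    have a2 : br (Fintype.card K) 3 * (Fintype.card K + 1) +
        (Fintype.card K + 2) * Fintype.card K ^ 2 ≤ br (Fintype.card K) (7 - 2) := by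
      obtain ⟨t, ht⟩ : ∃ t, Fintype.card K = t + 3 := ⟨Fintype.card K - 3, by omega⟩
      rw [ht]
      simp only [br, sum_range_succ, range_zero, sum_empty]
      exact Nat.le.intro (k := 24 + 62 * t + 42 * t ^ 2 + 11 * t ^ 3 + t ^ 4) (by ring)
    have := hP.2
    omega)
  refine (card_le_card (high_sub F _ Y fun A hA => hSY A (hFS hA))).trans ?_
  rw [card_pts]
  exact br_mono hY

end Pool.Agent.Lib.MP_e960f8_co
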