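import Pool.Agent.Lib.MP_e960f8_co.K5

/-! The case `k = 4`: only the lowest layer is fully spread. -/

namespace Pool.Agent.Lib.MP_e960f8_co

open Module Finset Pool.Agent.Lib.MP_5499ac_co

universe u v

variable {K : Type u} [Field K] {V : Type v} [AddCommGroup V] [Module K V]

lemma deg_cover3 [Finite V] (k : ℕ) (F W1 W2 W3 : Finset (Submodule K V))
    (hd : ∀ A ∈ F, finrank K A = k)
    (hcov : ∀ A ∈ F, (∃ B ∈ W1, B ≤ A) ∨ (∃ B ∈ W2, B ≤ A) ∨ ∃ B ∈ W3, B ≤ A)
    (P : Submodule K V) : deg F P ≤ updeg k W1 P + updeg k W2 P + updeg k W3 P := by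
  have := deg_cover k F (fun i => if i = 0 then W1 else if i = 1 then W2 else W3) (range 3) hd
    (fun A hA => by
      rcases hcov A hA with h | h | h
      · exact ⟨0, by simp, by simpa using h⟩
      · exact ⟨1, by simp, by simpa using h⟩
      · exact ⟨2, by simp, by simpa using h⟩) P
  simpa [sum_range_succ] using this

lemma updeg_empty [Finite V] (k : ℕ) (P : Submodule K V) :
    updeg k (∅ : Finset (Submodule K V)) P = 0 := by
  simp [updeg]

lemma card_cov2 [Fintype K] [Finite V] (W : Finset (Submodule K V)) (hW : Layer 2 W) :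
    #(cov W) ≤ (Fintype.card K + 1) + (Fintype.card K + 1) ^ 2 * Fintype.card K := by
  classical
  have h3 := hW.2.2 ⊥
  rw [← card_eq_deg_bot, finrank_bot, Nat.sub_zero, br_two] at h3
  rcases W.eq_empty_or_nonempty with rfl | ⟨A0, hA0⟩
  · have : cov (∅ : Finset (Submodule K V)) = ∅ := by
      rw [eq_empty_iff_forall_notMem]
      intro P hP
      exact (mem_cov.1 hP).2 (by simp [deg])
    simp [this]
  have hsub : cov W ⊆ pts A0 ∪ W.biUnion (fun A => pts A \ pts A0) := by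
    intro P hP
    rw [mem_cov] at hP
    obtain ⟨A, hA⟩ := card_ne_zero.mp hP.2
    rw [mem_filter] at hA
    by_cases h : P ∈ pts A0
    · exact mem_union_left _ h
    · exact mem_union_right _ (mem_biUnion.mpr ⟨A, hA.1, mem_sdiff.mpr ⟨mem_pts.2 ⟨hP.1, hA.2⟩, h⟩⟩)
  refine ((card_le_card hsub).trans (card_union_le _ _)).trans (Nat.add_le_add ?_ ?_)
  · rw [card_pts, hW.2.1 A0 hA0, br_two]
  refine card_biUnion_le.trans ?_
  have h4 : ∀ A ∈ W, #(pts A \ pts A0) ≤ Fintype.card K := by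
    intro A hA
    obtain ⟨X, hX1, hX⟩ := exists_point_le (hW.1 A hA A0 hA0)
    have h5 : X ∈ pts A := mem_pts.2 ⟨hX1, hX.trans inf_le_left⟩
    have h6 : pts A \ pts A0 ⊆ (pts A).erase X := by
      intro P hP
      rw [mem_sdiff] at hP
      refine mem_erase.mpr ⟨?_, hP.1⟩
      rintro rfl
      exact hP.2 (mem_pts.2 ⟨hX1, hX.trans inf_le_right⟩)
    have h7 := card_le_card h6
    rw [card_erase_of_mem h5, card_pts, hW.2.1 A hA, br_two] at h7
    omega
  refine (sum_le_card_nsmul _ _ _ h4).trans ?_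
  rw [smul_eq_mul]
  exact Nat.mul_le_mul_right _ h3

lemma quad {q a b N0 N c : ℕ} (h : (q + 1) * (a * N0 + b) ≤ q * (N0 * N0)) (hN : N0 ≤ N)
    (h0 : 0 < N0) (hc : c * (q + 1) = (N * q + 1) * N) : a * N + b ≤ c := by
  apply Nat.le_of_mul_le_mul_right _ (show 0 < (q + 1) * N0 by positivity)
  calc (a * N + b) * ((q + 1) * N0) = (q + 1) * (a * N0 * N + b * N0) := by ring
    _ ≤ (q + 1) * (a * N0 * N + b * N) := by gcongr
    _ = (q + 1) * (a * N0 + b) * N := by ring
    _ ≤ q * (N0 * N0) * N := by gcongr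
    _ ≤ q * (N * N0) * N := by gcongr
    _ = N * q * N * N0 := by ring
    _ ≤ (N * q + 1) * N * N0 := by gcongr; omega
    _ = _ := by rw [← hc]; ring

lemma num4 [Fintype K] {n : ℕ} (hn : 9 ≤ n) (h : ¬ (Fintype.card K = 2 ∧ n = 9)) :
    br (Fintype.card K) 4 ^ 3 ≤ cc K n 4 2 ∧
    br (Fintype.card K) 3 ^ 2 * cc K n 4 3 +
      (br (Fintype.card K) 3 ^ 3 + br (Fintype.card K) 3 * br (Fintype.card K) 4 ^ 2) ≤
      cc K n 4 2 ∧
    (br (Fintype.card K) 4 + br (Fintype.card K) 2 ^ 2 +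
        br (Fintype.card K) 2 * br (Fintype.card K) 3) * cc K n 4 3 +
      (br (Fintype.card K) 2 * br (Fintype.card K) 3 ^ 2 +
        br (Fintype.card K) 3 * br (Fintype.card K) 4 ^ 2) ≤ cc K n 4 2 := by
  have hq := two_le_card K
  have e2 := cc_exact (K := K) (n := n) (k := 4) (u := 2) (by omega) (by omega)
  have e3 := cc_exact (K := K) (n := n) (k := 4) (u := 3) (by omega) (by omega)
  rw [show 3 + 1 = 4 from rfl, cc_self, show 4 - 3 = 1 from rfl, br_one, mul_one, mul_one] at e3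
  rw [show 4 - 2 = 2 from rfl, br_two, show n - 2 = n - 3 + 1 by omega, br_add, br_one, pow_one,
    show 2 + 1 = 3 from rfl, ← e3] at e2
  have key : ∀ N0, 0 < N0 → N0 ≤ cc K n 4 3 → ∀ a b,
      (Fintype.card K + 1) * (a * N0 + b) ≤ Fintype.card K * (N0 * N0) →
      a * cc K n 4 3 + b ≤ cc K n 4 2 := fun N0 h0 hN a b hab => quad hab hN h0 e2
  by_cases h2 : Fintype.card K = 2
  · have hN : 127 ≤ cc K n 4 3 := by
      have : n ≠ 9 := fun h' => h ⟨h2, h'⟩
      rw [e3, h2]
      exact le_of_eq_of_le (by norm_num [br, sum_range_succ]) (br_mono (show 7 ≤ n - 3 by omega))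
    have k0 := key 127 (by norm_num) hN
    refine ⟨?_, k0 _ _ ?_, k0 _ _ ?_⟩
    · have := k0 0 (br (Fintype.card K) 4 ^ 3) (by rw [h2]; norm_num [br, sum_range_succ])
      simpa using this
    · rw [h2]; norm_num [br, sum_range_succ]
    · rw [h2]; norm_num [br, sum_range_succ]
  · have hN : br (Fintype.card K) 6 ≤ cc K n 4 3 := by
      rw [e3]
      exact br_mono (by omega)
    have k0 := key _ (br_pos (by norm_num)) hN
    obtain ⟨t, ht⟩ : ∃ t, Fintype.card K = t + 3 := ⟨Fintype.card K - 3, by omega⟩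
    refine ⟨?_, k0 _ _ ?_, k0 _ _ ?_⟩
    · have := k0 0 (br (Fintype.card K) 4 ^ 3) (by
        rw [ht]
        simp only [br, sum_range_succ, range_zero, sum_empty]
        exact Nat.le.intro (k := 141488 + 610344 * t + 1115219 * t ^ 2 + 1173965 * t ^ 3 +
          802974 * t ^ 4 + 377882 * t ^ 5 + 125501 * t ^ 6 + 29515 * t ^ 7 + 4828 * t ^ 8 +
          524 * t ^ 9 + 34 * t ^ 10 + t ^ 11) (by ring))
      simpa using this
    · rw [ht]
      simp only [br, sum_range_succ, range_zero, sum_empty]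
      exact Nat.le.intro (k := 59436 + 407431 * t + 889355 * t ^ 2 + 1025727 * t ^ 3 +
        739869 * t ^ 4 + 359842 * t ^ 5 + 122043 * t ^ 6 + 29087 * t ^ 7 + 4797 * t ^ 8 +
        523 * t ^ 9 + 34 * t ^ 10 + t ^ 11) (by ring)
    · rw [ht]
      simp only [br, sum_range_succ, range_zero, sum_empty]
      exact Nat.le.intro (k := 154336 + 719376 * t + 1344430 * t ^ 2 + 1415346 * t ^ 3 +
        957219 * t ^ 4 + 442529 * t ^ 5 + 143794 * t ^ 6 + 32997 * t ^ 7 + 5257 * t ^ 8 +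
        555 * t ^ 9 + 35 * t ^ 10 + t ^ 11) (by ring)

theorem upper_four [Fintype K] [Finite V] (hn : 9 ≤ finrank K V)
    (h : ¬ (Fintype.card K = 2 ∧ finrank K V = 9)) (F : Finset (Submodule K V))
    (hF : MP_5499ac_co.Inter F) (hd : ∀ A ∈ F, finrank K A = 4) :
    #(high F (cc K (finrank K V) 4 2)) ≤ br (Fintype.card K) 5 := by
  classical
  have hq := two_le_card K
  obtain ⟨n1, n2, n3⟩ := num4 hn h
  obtain ⟨T3, W4, i3, d3, l4, m4, c4⟩ := peel2 4 F hF (fun A hA => (hd A hA).le)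
  obtain ⟨T2, W3, i2, d2, l3, m3, c3⟩ := peel2 3 T3 i3 (fun A hA => by have := d3 A hA; omega)
  obtain ⟨T1, W2, i1, d1, l2, m2, c2⟩ := peel2 2 T2 i2 (fun A hA => by have := d2 A hA; omega)
  have e4 : cc K (finrank K V) 4 4 = 1 := cc_self _ _
  have e5 : cc K (finrank K V) 4 (4 + 1) = 0 := by simp [cc]
  have u4 : ∀ P : Submodule K V, finrank K P = 1 → updeg 4 W4 P ≤ deg W4 P := by
    intro P hP
    have := updeg_le 4 4 W4 l4.2.1 P hP
    rwa [e4, e5, mul_one, mul_zero, add_zero] at this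
  have u3 : ∀ P : Submodule K V, finrank K P = 1 →
      updeg 4 W3 P ≤ deg W3 P * cc K (finrank K V) 4 3 + #W3 := by
    intro P hP
    have := updeg_le 4 3 W3 l3.2.1 P hP
    rwa [show 3 + 1 = 4 from rfl, e4, mul_one] at this
  rcases T3.eq_empty_or_nonempty with rfl | ⟨G4, hG4⟩
  · have : high F (cc K (finrank K V) 4 2) = ∅ := by
      rw [eq_empty_iff_forall_notMem]
      intro P hP
      rw [mem_high] at hP
      have a1 : deg F P ≤ deg W4 P := deg_mono (fun A hA => by simpa using c4 A hA) P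
      have a2 := l4.2.2 P
      rw [hP.1] at a2
      have := hP.2
      norm_num at a2
      omega
    simp [this]
  have g4 : finrank K G4 ≤ 3 := by have := d3 G4 hG4; omega
  have r4 := (layer_ref 4 3 W4 l4 G4 g4 (fun A hA => (m4 A hA G4 hG4).1)).2
  have p4 : #(pts G4) ≤ br (Fintype.card K) 3 := by rw [card_pts]; exact br_mono g4
  rcases T2.eq_empty_or_nonempty with rfl | ⟨G3, hG3⟩
  · have hsub : high F (cc K (finrank K V) 4 2) ⊆ pts G4 := by
      intro P hP
      rw [mem_high] at hP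
      refine mem_pts.2 ⟨hP.1, ?_⟩
      by_contra hPG
      have a1 := deg_cover3 4 F W4 W3 ∅ hd (fun A hA => by
        rcases c4 A hA with h1 | ⟨B, hB, hBA⟩
        · exact Or.inl ⟨A, h1, le_rfl⟩
        · exact Or.inr (Or.inl ⟨B, by simpa using c3 B hB, hBA⟩)) P
      have a2 := (u4 P hP.1).trans (r4 P hP.1 hPG)
      have a3 := l3.2.2 P
      have a4 := l3.2.2 ⊥
      rw [← card_eq_deg_bot, finrank_bot] at a4
      rw [hP.1] at a3
      have a5 := (u3 P hP.1).trans (Nat.add_le_add (Nat.mul_le_mul_right _ a3) a4)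
      rw [updeg_empty] at a1
      have := hP.2
      norm_num at a2 a5
      omega
    exact (card_le_card hsub).trans (p4.trans (br_mono (by norm_num)))
  have g3 : finrank K G3 ≤ 2 := by have := d2 G3 hG3; omega
  obtain ⟨s3, r3⟩ := layer_ref 3 2 W3 l3 G3 g3 (fun A hA => (m3 A hA G3 hG3).1)
  have p3 : #(pts G3) ≤ br (Fintype.card K) 2 := by rw [card_pts]; exact br_mono g3
  have main : ∀ F' ⊆ F, (∀ A ∈ F', ∀ B ∈ T1, ¬ B ≤ A) → ∀ P : Submodule K V, finrank K P = 1 →
      P ∉ pts G3 → P ∉ pts G4 → deg W2 P = 0 →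
      deg F' P + br (Fintype.card K) 4 * cc K (finrank K V) 4 3 ≤ cc K (finrank K V) 4 2 := by
    intro F' hF' hT P hP h3 h4 h0
    have a1 := deg_cover3 4 F' W4 W3 W2 (fun A hA => hd A (hF' hA)) (fun A hA => by
      rcases c4 A (hF' hA) with h1 | ⟨B, hB, hBA⟩
      · exact Or.inl ⟨A, h1, le_rfl⟩
      rcases c3 B hB with h1 | ⟨C, hC, hCB⟩
      · exact Or.inr (Or.inl ⟨B, h1, hBA⟩)
      rcases c2 C hC with h1 | ⟨D, hD, hDC⟩
      · exact Or.inr (Or.inr ⟨C, h1, hCB.trans hBA⟩)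
      · exact (hT A hA D hD (hDC.trans (hCB.trans hBA))).elim) P
    have a2 := (u4 P hP).trans (r4 P hP fun h => h4 (mem_pts.2 ⟨hP, h⟩))
    have a3 := r3 P hP fun h => h3 (mem_pts.2 ⟨hP, h⟩)
    have a5 := (u3 P hP).trans (Nat.add_le_add (Nat.mul_le_mul_right _ a3) s3)
    have a6 := updeg_le 4 2 W2 l2.2.1 P hP
    have a7 := l2.2.2 ⊥
    rw [← card_eq_deg_bot, finrank_bot] at a7
    rw [h0, zero_mul, zero_add] at a6
    have a8 := a6.trans (Nat.mul_le_mul_right _ a7)
    rw [add_mul, add_mul] at n3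
    norm_num at a2 a5 a8
    omega
  obtain ⟨t, ht⟩ : ∃ t, Fintype.card K = t + 2 := ⟨Fintype.card K - 2, by omega⟩
  rcases T1.eq_empty_or_nonempty with rfl | ⟨E, hE⟩
  · have hsub : high F (cc K (finrank K V) 4 2) ⊆ cov W2 ∪ pts G3 ∪ pts G4 := by
      intro P hP
      rw [mem_high] at hP
      by_contra hc
      simp only [mem_union, not_or] at hc
      have := main F (Subset.refl _) (by simp) P hP.1 hc.1.2 hc.2 (by
        by_contra h0
        exact hc.1.1 (mem_cov.2 ⟨hP.1, h0⟩))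
      have := hP.2
      omega
    refine (card_le_card hsub).trans ((card_union_le _ _).trans ?_)
    refine (Nat.add_le_add ((card_union_le _ _).trans
      (Nat.add_le_add (card_cov2 W2 l2) p3)) p4).trans ?_
    rw [ht]
    simp only [br, sum_range_succ, range_zero, sum_empty]
    exact Nat.le.intro (k := 21 * t + 22 * t ^ 2 + 8 * t ^ 3 + t ^ 4) (by ring)
  have hpt : ∀ B ∈ T1, finrank K B = 1 := by
    intro B hB
    have h1 := d1 B hB
    have h2 : B ≠ ⊥ := by simpa using i1 B hB B hB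
    have h3 : finrank K B ≠ 0 := fun h => h2 (Submodule.finrank_eq_zero.mp h)
    omega
  have hW2 : W2 = ∅ := by
    rw [eq_empty_iff_forall_notMem]
    intro A hA
    have := m2 A hA E hE
    exact this.2 (pt_le_of_inf (hpt E hE) (by rw [inf_comm]; exact this.1))
  refine final_exact 4 hn F hF hd E (hpt E hE) (pts G3 ∪ pts G4) ?_ ?_
  · refine (card_union_le _ _).trans ((Nat.add_le_add p3 p4).trans ?_)
    rw [ht]
    simp only [br, sum_range_succ, range_zero, sum_empty]
    exact Nat.le.intro (k := 6 + 26 * t + 23 * t ^ 2 + 8 * t ^ 3 + t ^ 4) (by ring)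
  · intro P hP hZ
    rw [mem_union, not_or] at hZ
    refine main _ (filter_subset _ _) (fun A hA B hB hBA => ?_) P hP hZ.1 hZ.2
      (by rw [hW2]; simp [deg])
    exact (mem_filter.mp hA).2 ((pt_le_of_inf (hpt E hE) (i1 E hE B hB)).trans hBA)

end Pool.Agent.Lib.MP_e960f8_co
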