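import Pool.Agent.Lib.MP_e960f8_co.Base

/-! The case `k ≥ 5`. -/

namespace Pool.Agent.Lib.MP_e960f8_co

open Module Finset Pool.Agent.Lib.MP_5499ac_co

universe u v

variable {K : Type u} [Field K] {V : Type v} [AddCommGroup V] [Module K V]

lemma deg_cover [Finite V] (k : ℕ) (F : Finset (Submodule K V)) (W : ℕ → Finset (Submodule K V))
    (I : Finset ℕ) (hd : ∀ A ∈ F, finrank K A = k) (hcov : ∀ A ∈ F, ∃ i ∈ I, ∃ B ∈ W i, B ≤ A)
    (P : Submodule K V) : deg F P ≤ ∑ i ∈ I, updeg k (W i) P := by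
  classical
  unfold deg updeg
  refine le_trans (card_le_card ?_) card_biUnion_le
  intro A hA
  simp only [mem_filter] at hA
  obtain ⟨i, hi, hB⟩ := hcov A hA.1
  exact mem_biUnion.mpr ⟨i, hi, mem_filter.mpr ⟨mem_Gr.mpr (hd A hA.1), hA.2, hB⟩⟩

/-- the numerical condition -/
def Num (K : Type u) [Field K] [Fintype K] (n k : ℕ) : Prop :=
  ∑ j ∈ range (k - 2), (br (Fintype.card K) (j + 3) ^ (j + 2) +
      br (Fintype.card K) (j + 2) ^ (j + 2)) * cc K n k (j + 3) +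
    br (Fintype.card K) k * cc K n k 3 ≤ cc K n k 2

lemma br_two (q : ℕ) : br q 2 = q + 1 := by
  simp [br, sum_range_succ, add_comm]

theorem upper_num [Fintype K] [Finite V] (k : ℕ) (hk : 5 ≤ k) (hn : 2 * k + 1 ≤ finrank K V)
    (hnum : Num K (finrank K V) k) (F : Finset (Submodule K V)) (hF : MP_5499ac_co.Inter F)
    (hd : ∀ A ∈ F, finrank K A = k) :
    #(high F (cc K (finrank K V) k 2)) ≤ br (Fintype.card K) (k + 1) := by
  classical
  have hq := two_le_card K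
  obtain ⟨E, W, hE, hW, hcov⟩ := structure_thm k (by omega) (by omega) F hF hd
  refine final_exact k hn F hF hd E hE (cov (W 2)) ?_ ?_
  · refine (card_cov (W 2) (hW 2)).trans ?_
    rw [br_two]
    refine le_trans ?_ (Nat.pow_le_pow_right (by omega) hk)
    obtain ⟨t, ht⟩ : ∃ t, Fintype.card K = t + 2 := ⟨Fintype.card K - 2, by omega⟩
    rw [ht]
    exact Nat.le.intro (k := t ^ 5 + 10 * t ^ 4 + 39 * t ^ 3 + 71 * t ^ 2 + 53 * t + 5) (by ring)
  · intro P hP hZ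
    have h0 : deg (W 2) P = 0 := by
      by_contra h
      exact hZ (mem_cov.2 ⟨hP, h⟩)
    refine le_trans (Nat.add_le_add_right ?_ _) hnum
    obtain ⟨m, rfl⟩ : ∃ m, k = m + 2 := ⟨k - 2, by omega⟩
    have h1 := deg_cover (m + 2) (F.filter (fun A => ¬ E ≤ A)) (fun j => W (j + 2))
      (range (m + 1)) (fun A hA => hd A (mem_filter.mp hA).1) (fun A hA => by
        obtain ⟨i, hi1, hi2, hB⟩ := hcov A (mem_filter.mp hA).1 (mem_filter.mp hA).2
        refine ⟨i - 2, mem_range.mpr (by omega), ?_⟩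
        rwa [show i - 2 + 2 = i by omega]) P
    have h2 : ∑ j ∈ range (m + 1), updeg (m + 2) (W (j + 2)) P ≤
        ∑ j ∈ range (m + 1), (deg (W (j + 2)) P * cc K (finrank K V) (m + 2) (j + 2) +
          #(W (j + 2)) * cc K (finrank K V) (m + 2) (j + 2 + 1)) :=
      sum_le_sum fun j _ => updeg_le (m + 2) (j + 2) _ (hW (j + 2)).2.1 P hP
    refine (le_of_eq_of_le (by congr) h1).trans (h2.trans ?_)
    have h3 : cc K (finrank K V) (m + 2) (m + 2 + 1) = 0 := by simp [cc]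
    rw [sum_add_distrib, sum_range_succ', sum_range_succ, h3, Nat.add_sub_cancel]
    simp only [zero_add, h0, zero_mul, mul_zero, add_zero]
    rw [← sum_add_distrib]
    refine sum_le_sum fun j _ => ?_
    have h4 := (hW (j + 1 + 2)).2.2 P
    have h5 := (hW (j + 2)).2.2 ⊥
    rw [← card_eq_deg_bot, finrank_bot, Nat.sub_zero] at h5
    rw [hP] at h4
    rw [add_mul]
    exact Nat.add_le_add (Nat.mul_le_mul_right _ h4) (Nat.mul_le_mul_right _ h5)

lemma cc_Q [Fintype K] {n k Q : ℕ} (h : k ≤ n) (hQ : Q ≤ Fintype.card K ^ (n - k)) (d : ℕ) :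
    cc K n k (d + 2) * Q ^ d ≤ cc K n k 2 := by
  have h1 := cc_steps (K := K) h 2 d
  rw [add_comm 2 d, pow_mul] at h1
  exact (Nat.mul_le_mul_left _ (Nat.pow_le_pow_left hQ d)).trans h1

lemma num_unif [Fintype K] {n k Q : ℕ} (h : k ≤ n) (hQ : Q ≤ Fintype.card K ^ (n - k)) (r R : ℕ)
    (hr : 0 < r)
    (ha : ∀ j < k - 2, br (Fintype.card K) (j + 3) ^ (j + 2) * r ^ (k - 1) ≤ R * Q ^ (j + 1))
    (hs : 4 * br (Fintype.card K) k ≤ Q) (hk : 5 * (k - 2) * R ≤ 3 * r ^ (k - 1)) : Num K n k := by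
  have hq := two_le_card K
  unfold Num
  set q := Fintype.card K
  have h1 : ∀ j ∈ range (k - 2), (br q (j + 3) ^ (j + 2) + br q (j + 2) ^ (j + 2)) *
      cc K n k (j + 3) * (4 * r ^ (k - 1)) ≤ 5 * R * cc K n k 2 := by
    intro j hj
    have a1 : 2 * br q (j + 2) ≤ br q (j + 3) := by
      have := br_le_pow hq (j + 2)
      rw [br_succ q (j + 2)]
      omega
    have a2 : 4 * br q (j + 2) ^ (j + 2) ≤ br q (j + 3) ^ (j + 2) := by
      calc 4 * br q (j + 2) ^ (j + 2) ≤ 2 ^ (j + 2) * br q (j + 2) ^ (j + 2) := by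
            gcongr
            exact Nat.pow_le_pow_right (n := 2) (by norm_num) (show 2 ≤ j + 2 by omega)
        _ = (2 * br q (j + 2)) ^ (j + 2) := (mul_pow _ _ _).symm
        _ ≤ _ := Nat.pow_le_pow_left a1 _
    have a3 := ha j (mem_range.mp hj)
    have a4 : cc K n k (j + 3) * Q ^ (j + 1) ≤ cc K n k 2 := cc_Q h hQ (j + 1)
    calc _ = (4 * br q (j + 3) ^ (j + 2) + 4 * br q (j + 2) ^ (j + 2)) * r ^ (k - 1) *
          cc K n k (j + 3) := by ring
      _ ≤ (4 * br q (j + 3) ^ (j + 2) + br q (j + 3) ^ (j + 2)) * r ^ (k - 1) *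
          cc K n k (j + 3) := by gcongr
      _ = 5 * (br q (j + 3) ^ (j + 2) * r ^ (k - 1)) * cc K n k (j + 3) := by ring
      _ ≤ 5 * (R * Q ^ (j + 1)) * cc K n k (j + 3) := by gcongr
      _ = 5 * R * (cc K n k (j + 3) * Q ^ (j + 1)) := by ring
      _ ≤ _ := by gcongr
  have h2 := sum_le_card_nsmul _ _ _ h1
  rw [← sum_mul, card_range, smul_eq_mul] at h2
  set s := ∑ j ∈ range (k - 2), (br q (j + 3) ^ (j + 2) + br q (j + 2) ^ (j + 2)) *
    cc K n k (j + 3)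
  have h3 : 4 * s ≤ 3 * cc K n k 2 := by
    apply Nat.le_of_mul_le_mul_right _ (pow_pos hr (k - 1))
    calc 4 * s * r ^ (k - 1) = s * (4 * r ^ (k - 1)) := by ring
      _ ≤ _ := h2
      _ = 5 * (k - 2) * R * cc K n k 2 := by ring
      _ ≤ 3 * r ^ (k - 1) * cc K n k 2 := by gcongr
      _ = _ := by ring
  have h4 : cc K n k 3 * Q ^ 1 ≤ cc K n k 2 := cc_Q h hQ 1
  have h5 : 4 * (br q k * cc K n k 3) ≤ cc K n k 2 := by
    calc 4 * (br q k * cc K n k 3) = cc K n k 3 * (4 * br q k) := by ring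
      _ ≤ cc K n k 3 * Q ^ 1 := by rw [pow_one]; gcongr
      _ ≤ _ := h4
  omega

lemma num_pow [Fintype K] {n k Q : ℕ} (h : k ≤ n) (hQ : Q ≤ Fintype.card K ^ (n - k)) (hQ0 : 0 < Q)
    (hk : 3 ≤ k)
    (hs : ∑ j ∈ range (k - 2), (br (Fintype.card K) (j + 3) ^ (j + 2) +
      br (Fintype.card K) (j + 2) ^ (j + 2)) * Q ^ (k - 3 - j) +
      br (Fintype.card K) k * Q ^ (k - 3) ≤ Q ^ (k - 2)) : Num K n k := by
  unfold Num
  set q := Fintype.card K
  apply Nat.le_of_mul_le_mul_right _ (pow_pos hQ0 (k - 2))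
  refine le_trans ?_ ((Nat.mul_le_mul_right (cc K n k 2) hs).trans_eq (mul_comm _ _))
  rw [add_mul, add_mul, sum_mul, sum_mul]
  refine Nat.add_le_add (sum_le_sum fun j hj => ?_) ?_
  · have a4 : cc K n k (j + 3) * Q ^ (j + 1) ≤ cc K n k 2 := cc_Q h hQ (j + 1)
    have e : Q ^ (k - 2) = Q ^ (k - 3 - j) * Q ^ (j + 1) := by
      rw [← pow_add]
      congr 1
      have := mem_range.mp hj
      omega
    rw [e]
    calc _ = (br q (j + 3) ^ (j + 2) + br q (j + 2) ^ (j + 2)) * Q ^ (k - 3 - j) *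
          (cc K n k (j + 3) * Q ^ (j + 1)) := by ring
      _ ≤ _ := by gcongr
  · have a4 : cc K n k 3 * Q ^ 1 ≤ cc K n k 2 := cc_Q h hQ 1
    have e : Q ^ (k - 2) = Q ^ (k - 3) * Q ^ 1 := by
      rw [← pow_add]
      congr 1
      omega
    rw [e]
    calc _ = br q k * Q ^ (k - 3) * (cc K n k 3 * Q ^ 1) := by ring
      _ ≤ _ := by gcongr

lemma mul_br_le {q r : ℕ} (h : r + 1 ≤ q) (m : ℕ) : r * br q m ≤ q ^ m := by
  induction m with
  | zero => simp [br]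
  | succ m ih =>
    rw [br_succ, pow_succ]
    calc r * (br q m + q ^ m) = r * br q m + r * q ^ m := by ring
      _ ≤ q ^ m + r * q ^ m := by gcongr
      _ = q ^ m * (r + 1) := by ring
      _ ≤ _ := by gcongr

lemma a_big {q r k j : ℕ} (hr : 0 < r) (h : r + 1 ≤ q) (hj : j < k - 2) :
    br q (j + 3) ^ (j + 2) * r ^ (k - 1) ≤ (r + 1) ^ 2 * (q ^ (k + 1)) ^ (j + 1) := by
  obtain ⟨b, rfl⟩ : ∃ b, k = j + b + 3 := ⟨k - (j + 3), by omega⟩
  have a1 : r * br q (j + 3) ≤ (r + 1) * q ^ (j + 2) := by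
    have := mul_br_le h (j + 2)
    rw [br_succ q (j + 2)]
    calc r * (br q (j + 2) + q ^ (j + 2)) = r * br q (j + 2) + r * q ^ (j + 2) := by ring
      _ ≤ q ^ (j + 2) + r * q ^ (j + 2) := by gcongr
      _ = _ := by ring
  have a2 := Nat.pow_le_pow_left a1 (j + 2)
  have a3 : r ^ b ≤ q ^ b := Nat.pow_le_pow_left (by omega) b
  have a4 : (r + 1) ^ j ≤ q ^ j := Nat.pow_le_pow_left h j
  have a5 : q ^ ((j + 2) * (j + 2) + j + b) ≤ q ^ ((j + b + 3 + 1) * (j + 1)) :=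
    Nat.pow_le_pow_right (by omega) (Nat.le.intro (k := j * b) (by ring))
  rw [show j + b + 3 - 1 = (j + 2) + b by omega, ← pow_mul]
  calc br q (j + 3) ^ (j + 2) * r ^ (j + 2 + b) = (r * br q (j + 3)) ^ (j + 2) * r ^ b := by
        rw [mul_pow, pow_add r (j + 2) b]; ring
    _ ≤ ((r + 1) * q ^ (j + 2)) ^ (j + 2) * q ^ b := by gcongr
    _ = (r + 1) ^ 2 * ((r + 1) ^ j * q ^ ((j + 2) * (j + 2)) * q ^ b) := by
        rw [mul_pow, ← pow_mul, pow_add (r + 1) j 2]; ring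
    _ ≤ (r + 1) ^ 2 * (q ^ j * q ^ ((j + 2) * (j + 2)) * q ^ b) := by gcongr
    _ = (r + 1) ^ 2 * q ^ ((j + 2) * (j + 2) + j + b) := by
        rw [pow_add, pow_add q _ j]; ring
    _ ≤ _ := by gcongr

lemma a_two {k j : ℕ} (hj : j < k - 2) :
    br 2 (j + 3) ^ (j + 2) * 2 ^ (k - 1) ≤ 9 * (2 ^ (k + 2)) ^ (j + 1) := by
  obtain ⟨b, rfl⟩ : ∃ b, k = j + b + 3 := ⟨k - (j + 3), by omega⟩
  have a1 := Nat.pow_le_pow_left (br_le_pow le_rfl (j + 3)) (j + 2)
  have a5 : 2 ^ ((j + 3) * (j + 2) + (j + 2 + b)) ≤ 2 ^ (3 + (j + b + 3 + 2) * (j + 1)) :=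
    Nat.pow_le_pow_right (by omega) (Nat.le.intro (k := j * b) (by ring))
  rw [show j + b + 3 - 1 = (j + 2) + b by omega, ← pow_mul]
  calc br 2 (j + 3) ^ (j + 2) * 2 ^ (j + 2 + b) ≤ (2 ^ (j + 3)) ^ (j + 2) * 2 ^ (j + 2 + b) := by
        gcongr
    _ = 2 ^ ((j + 3) * (j + 2) + (j + 2 + b)) := by rw [← pow_mul, ← pow_add]
    _ ≤ _ := a5
    _ = 8 * 2 ^ ((j + b + 3 + 2) * (j + 1)) := by rw [pow_add]; norm_num
    _ ≤ _ := by gcongr; norm_num

lemma lin_two {k : ℕ} (hk : 8 ≤ k) : 5 * (k - 2) * 9 ≤ 3 * 2 ^ (k - 1) := by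
  obtain ⟨j, rfl⟩ : ∃ j, k = j + 8 := ⟨k - 8, by omega⟩
  rw [show j + 8 - 1 = j + 7 by omega, pow_add]
  have : j < 2 ^ j := Nat.lt_two_pow_self
  omega

lemma lin_three {k : ℕ} (hk : 5 ≤ k) : 5 * (k - 2) * 16 ≤ 3 * 3 ^ (k - 1) := by
  obtain ⟨j, rfl⟩ : ∃ j, k = j + 5 := ⟨k - 5, by omega⟩
  rw [show j + 5 - 1 = j + 4 by omega, pow_add]
  have : j < 3 ^ j := Nat.lt_pow_self (by norm_num)
  omega

lemma cc_exact [Fintype K] {n k u : ℕ} (hu : u < k) (h : k ≤ n) :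
    cc K n k u * br (Fintype.card K) (k - u) = br (Fintype.card K) (n - u) * cc K n k (u + 1) := by
  have := gauss_succ (K := K) (n - (u + 1)) (k - (u + 1))
  rw [show n - (u + 1) + 1 = n - u by omega, show k - (u + 1) + 1 = k - u by omega] at this
  rw [cc, cc, if_pos hu.le, if_pos (by omega)]
  exact this

lemma num_all [Fintype K] {n k : ℕ} (hk : 5 ≤ k) (hn : 2 * k + 1 ≤ n)
    (h : ¬ (Fintype.card K = 2 ∧ n = 2 * k + 1)) : Num K n k := by
  have hq := two_le_card K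
  have hkn : k ≤ n := by omega
  have big : ∀ r, 2 ≤ r → r + 1 ≤ Fintype.card K → 5 * (k - 2) * (r + 1) ^ 2 ≤ 3 * r ^ (k - 1) →
      Num K n k := by
    intro r hr hrq hl
    refine num_unif (Q := Fintype.card K ^ (k + 1)) hkn
      (Nat.pow_le_pow_right (by omega) (by omega)) r _ (by omega)
      (fun j hj => a_big (by omega) hrq hj) ?_ hl
    have := two_mul_br_le_pow (q := Fintype.card K) (by omega) k
    rw [pow_succ]
    nlinarith
  have e2 := cc_exact (K := K) (n := n) (k := k) (u := 2) (by omega) hkn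
  have e3 := cc_exact (K := K) (n := n) (k := k) (u := 3) (by omega) hkn
  have e4 := cc_exact (K := K) (n := n) (k := k) (u := 4) (by omega) hkn
  have e5 := cc_self (K := K) n k
  rcases (show Fintype.card K = 2 ∨ Fintype.card K = 3 ∨ 4 ≤ Fintype.card K by omega)
    with h2 | h3 | h4
  · have hn2 : 2 * k + 2 ≤ n := by
      have : n ≠ 2 * k + 1 := fun h' => h ⟨h2, h'⟩
      omega
    have hQ : ∀ e, e ≤ n - k → 2 ^ e ≤ Fintype.card K ^ (n - k) := fun e he => by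
      rw [h2]; exact Nat.pow_le_pow_right (by norm_num) he
    by_cases h8 : 8 ≤ k
    · refine num_unif (Q := 2 ^ (k + 2)) hkn (hQ _ (by omega)) 2 9 (by norm_num)
        (fun j hj => by rw [h2]; exact a_two hj) ?_ (lin_two h8)
      have := br_le_pow (q := 2) le_rfl k
      rw [h2, pow_add]
      omega
    rcases (show k = 7 ∨ k = 6 ∨ (k = 5 ∧ 13 ≤ n) ∨ (k = 5 ∧ n = 12) by omega)
      with rfl | rfl | ⟨rfl, h13⟩ | ⟨rfl, rfl⟩
    · refine num_pow (Q := 2 ^ 9) hkn (hQ _ (by omega)) (by norm_num) (by norm_num) ?_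
      rw [h2]; norm_num [br, sum_range_succ]
    · refine num_pow (Q := 2 ^ 8) hkn (hQ _ (by omega)) (by norm_num) (by norm_num) ?_
      rw [h2]; norm_num [br, sum_range_succ]
    · refine num_pow (Q := 2 ^ 8) hkn (hQ _ (by omega)) (by norm_num) (by norm_num) ?_
      rw [h2]; norm_num [br, sum_range_succ]
    · unfold Num
      rw [h2] at e2 e3 e4 ⊢
      norm_num [br, sum_range_succ] at e2 e3 e4 ⊢
      omega
  · have hQ : ∀ e, e ≤ n - k → 3 ^ e ≤ Fintype.card K ^ (n - k) := fun e he => by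
      rw [h3]; exact Nat.pow_le_pow_right (by norm_num) he
    by_cases h8 : 8 ≤ k
    · exact big 2 le_rfl (by omega) (lin_two h8)
    rcases (show k = 7 ∨ k = 6 ∨ (k = 5 ∧ 12 ≤ n) ∨ (k = 5 ∧ n = 11) by omega)
      with rfl | rfl | ⟨rfl, h13⟩ | ⟨rfl, rfl⟩
    · refine num_pow (Q := 3 ^ 8) hkn (hQ _ (by omega)) (by norm_num) (by norm_num) ?_
      rw [h3]; norm_num [br, sum_range_succ]
    · refine num_pow (Q := 3 ^ 7) hkn (hQ _ (by omega)) (by norm_num) (by norm_num) ?_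
      rw [h3]; norm_num [br, sum_range_succ]
    · refine num_pow (Q := 3 ^ 7) hkn (hQ _ (by omega)) (by norm_num) (by norm_num) ?_
      rw [h3]; norm_num [br, sum_range_succ]
    · unfold Num
      rw [h3] at e2 e3 e4 ⊢
      norm_num [br, sum_range_succ] at e2 e3 e4 ⊢
      omega
  · exact big 3 (by norm_num) h4 (lin_three hk)

end Pool.Agent.Lib.MP_e960f8_co
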