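import Pool.Agent.Lib.MP_e960f8_co.K3

/-! Lower bounds and the exact value. -/

namespace Pool.Agent.Lib.MP_e960f8_co

open Module Finset Pool.Agent.Lib.MP_5499ac_co

universe u v

variable {K : Type u} [Field K] {V : Type v} [AddCommGroup V] [Module K V]

lemma exists_dim [Fintype K] [Finite V] (d : ℕ) (h : d ≤ finrank K V) :
    ∃ Y : Submodule K V, finrank K Y = d := by
  have h1 := card_Gr (K := K) (V := V) d
  have h2 := gauss_pos (K := K) d (finrank K V - d)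
  rw [Nat.add_sub_cancel' h, ← h1] at h2
  obtain ⟨Y, hY⟩ := card_pos.mp h2
  exact ⟨Y, mem_Gr.mp hY⟩

lemma exists_pt_out [Finite V] (M P : Submodule K V) (h : finrank K P < finrank K M) :
    ∃ X : Submodule K V, finrank K X = 1 ∧ X ≤ M ∧ ¬ X ≤ P := by
  obtain ⟨x, hx, hxP⟩ : ∃ x ∈ M, x ∉ P := by
    by_contra hc
    push Not at hc
    have := Submodule.finrank_mono (show M ≤ P from hc)
    omega
  have x0 : x ≠ 0 := by rintro rfl; exact hxP P.zero_mem
  exact ⟨K ∙ x, finrank_span_singleton x0, (Submodule.span_singleton_le_iff_mem x M).mpr hx,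
    fun h' => hxP ((Submodule.span_singleton_le_iff_mem x P).mp h')⟩

lemma exists_hyper [Finite V] (Y P Q : Submodule K V) (hQ : finrank K Q = 1) (hPY : P ≤ Y)
    (hQY : Q ≤ Y) (h : ¬ Q ≤ P) :
    ∃ A : Submodule K V, finrank K A + 1 = finrank K Y ∧ A ≤ Y ∧ P ≤ A ∧ ¬ Q ≤ A := by
  have hd : Disjoint P Q := disjoint_iff.mpr (by rw [inf_comm]; exact pt_inf_bot hQ h)
  obtain ⟨C, hPC, hC⟩ := hd.exists_isCompl
  have h1 : ¬ Q ≤ C ⊓ Y := fun h' => not_le_of_inf hQ hC.inf_eq_bot le_rfl (h'.trans inf_le_left)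
  refine ⟨C ⊓ Y, ?_, inf_le_right, le_inf hPC hPY, h1⟩
  rw [← finrank_sup_point hQ h1, sup_comm, ← sup_inf_assoc_of_le C hQY, sup_comm, hC.sup_eq_top,
    top_inf_eq]

theorem lower_hm [Fintype K] [Finite V] (k : ℕ) (hk : 2 ≤ k) (hn : k + 1 ≤ finrank K V) :
    ∃ F : Finset (Submodule K V), (∀ A ∈ F, finrank K A = k) ∧ MP_5499ac_co.Inter F ∧
      br (Fintype.card K) (k + 1) ≤ #(high F (cc K (finrank K V) k 2)) := by
  classical
  obtain ⟨Y, hY⟩ := exists_dim (K := K) (V := V) (k + 1) hn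
  obtain ⟨E, hE, hEY, -⟩ := exists_pt_out Y ⊥ (by rw [finrank_bot]; omega)
  set F := (Gr K V k).filter
    (fun A : Submodule K V => (E ≤ A ∧ 2 ≤ finrank K (A ⊓ Y : Submodule K V)) ∨ A ≤ Y) with hF
  have hd : ∀ A ∈ F, finrank K A = k := fun A hA => mem_Gr.mp (mem_filter.mp hA).1
  have two : ∀ A ∈ F, 2 ≤ finrank K (A ⊓ Y : Submodule K V) := by
    intro A hA
    rcases (mem_filter.mp hA).2 with h | h
    · exact h.2
    · rw [inf_eq_left.mpr h, hd A hA]; exact hk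
  have meet : ∀ A ∈ F, ∀ B ∈ F, A ≤ Y → A ⊓ B ≠ ⊥ := by
    intro A hA B hB hAY h0
    have a1 := Submodule.finrank_sup_add_finrank_inf_eq A (B ⊓ Y)
    have a2 := Submodule.finrank_mono (sup_le hAY (inf_le_right : B ⊓ Y ≤ Y))
    have a3 : A ⊓ (B ⊓ Y) = ⊥ := le_bot_iff.mp (h0 ▸ inf_le_inf_left A inf_le_left)
    have a4 := two B hB
    rw [a3, finrank_bot, hd A hA] at a1
    omega
  refine ⟨F, hd, fun A hA B hB => ?_, ?_⟩
  · rcases (mem_filter.mp hA).2 with h | h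
    · rcases (mem_filter.mp hB).2 with h' | h'
      · exact fun h0 => pt_ne_bot hE (le_bot_iff.mp (h0 ▸ le_inf h.1 h'.1))
      · rw [inf_comm]; exact meet B hB A hA h'
    · exact meet A hA B hB h
  rw [← hY, ← card_pts]
  refine card_le_card fun P hP => ?_
  obtain ⟨hP1, hPY⟩ := mem_pts.1 hP
  refine mem_high.2 ⟨hP1, ?_⟩
  obtain ⟨Q, hQ, hQY, hQP, hEL⟩ : ∃ Q : Submodule K V, finrank K Q = 1 ∧ Q ≤ Y ∧ ¬ Q ≤ P ∧
      E ≤ P ⊔ Q := by
    by_cases h : E ≤ P
    · obtain ⟨Q, h1, h2, h3⟩ := exists_pt_out Y P (by omega)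
      exact ⟨Q, h1, h2, h3, h.trans le_sup_left⟩
    · exact ⟨E, hE, hEY, h, le_sup_right⟩
  obtain ⟨A0, a1, a2, a3, a4⟩ := exists_hyper Y P Q hQ hPY hQY hQP
  have dl : finrank K (P ⊔ Q : Submodule K V) = 2 := by rw [finrank_sup_point hQ hQP, hP1]
  have hsub : insert A0 ((Gr K V k).filter (P ⊔ Q ≤ ·)) ⊆ F.filter (P ≤ ·) := by
    intro A hA
    rcases mem_insert.mp hA with rfl | hA
    · exact mem_filter.mpr ⟨mem_filter.mpr ⟨mem_Gr.mpr (by omega), Or.inr a2⟩, a3⟩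
    · obtain ⟨b1, b2⟩ := mem_filter.mp hA
      refine mem_filter.mpr ⟨mem_filter.mpr ⟨b1, Or.inl ⟨hEL.trans b2, ?_⟩⟩, le_sup_left.trans b2⟩
      rw [← dl]
      exact Submodule.finrank_mono (le_inf b2 (sup_le hPY hQY))
  have c1 := card_le_card hsub
  rw [card_insert_of_notMem (fun h => a4 (le_sup_right.trans (mem_filter.mp h).2))] at c1
  have c2 := card_filter_ge' (P ⊔ Q) k
  rw [dl] at c2
  have c3 : #((Gr K V k).filter (P ⊔ Q ≤ ·)) = cc K (finrank K V) k 2 := by convert c2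
  have c4 : deg F P = #(F.filter (P ≤ ·)) := by unfold deg; congr
  rw [c4, ← c3]
  exact c1

theorem lower_five [Fintype K] [Finite V] (hn : finrank K V = 7) :
    ∃ F : Finset (Submodule K V), (∀ A ∈ F, finrank K A = 3) ∧ MP_5499ac_co.Inter F ∧
      br (Fintype.card K) 5 ≤ #(high F (cc K (finrank K V) 3 2)) := by
  have hq := two_le_card K
  obtain ⟨Y, hY⟩ := exists_dim (K := K) (V := V) 5 (by omega)
  refine ⟨(Set.toFinite {A : Submodule K V | finrank K A = 3 ∧ A ≤ Y}).toFinset, ?_, ?_, ?_⟩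
  · intro A hA
    exact ((Set.Finite.mem_toFinset _).mp hA).1
  · intro A hA B hB h0
    rw [Set.Finite.mem_toFinset] at hA hB
    have h2 := Submodule.finrank_sup_add_finrank_inf_eq A B
    have h3 := Submodule.finrank_mono (sup_le hA.2 hB.2)
    rw [hA.1, hB.1, h0, finrank_bot] at h2
    omega
  rw [← hY, ← card_pts]
  refine card_le_card fun P hP => ?_
  obtain ⟨hP1, hPY⟩ := mem_pts.1 hP
  refine mem_high.2 ⟨hP1, ?_⟩
  have a1 := deg_hyper 3 (by norm_num) Y P hP1 hPY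
  rw [ncard_eq_deg, hY] at a1
  refine lt_of_lt_of_le ?_ a1
  have a2 := gauss_succ (K := K) 3 1
  rw [gauss_one] at a2
  rw [cc_three (by omega), hn]
  apply Nat.lt_of_mul_lt_mul_right (a := br (Fintype.card K) (1 + 1))
  refine lt_of_lt_of_eq ?_ a2.symm
  obtain ⟨t, ht⟩ : ∃ t, Fintype.card K = t + 1 := ⟨Fintype.card K - 1, by omega⟩
  rw [ht]
  simp only [br, sum_range_succ, range_zero, sum_empty]
  exact Nat.le.intro (k := t ^ 3 + 4 * t ^ 2 + 5 * t + 1) (by rw [Nat.succ_eq_add_one]; ring)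

theorem upper_all [Fintype K] [Finite V] (k : ℕ) (hk : 2 ≤ k) (hn : 2 * k + 1 ≤ finrank K V)
    (hex : ¬ (Fintype.card K = 2 ∧ finrank K V = 2 * k + 1 ∧ 3 ≤ k ∧ k ≤ 113))
    (F : Finset (Submodule K V)) (hF : MP_5499ac_co.Inter F) (hd : ∀ A ∈ F, finrank K A = k) :
    #(high F (cc K (finrank K V) k 2)) ≤
      br (Fintype.card K) (if finrank K V = 7 ∧ k = 3 then 5 else k + 1) := by
  have hq := two_le_card K
  split_ifs with h7
  · obtain ⟨h7, rfl⟩ := h7
    exact upper_seven (by omega) h7 F hF hd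
  rcases (show k = 2 ∨ k = 3 ∨ k = 4 ∨ 114 ≤ k ∨ (5 ≤ k ∧ k ≤ 113) by omega)
    with rfl | rfl | rfl | h | h
  · exact upper_two F hF hd
  · exact upper_three (by omega) F hF hd
  · exact upper_four hn (by omega) F hF hd
  · exact upper k h hn F hF hd
  · exact upper_num k h.1 hn (num_all h.1 hn (by omega)) F hF hd

theorem lower_all [Fintype K] [Finite V] (k : ℕ) (hk : 2 ≤ k) (hn : 2 * k + 1 ≤ finrank K V) :
    ∃ F : Finset (Submodule K V), (∀ A ∈ F, finrank K A = k) ∧ MP_5499ac_co.Inter F ∧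
      br (Fintype.card K) (if finrank K V = 7 ∧ k = 3 then 5 else k + 1) ≤
        #(high F (cc K (finrank K V) k 2)) := by
  split_ifs with h7
  · obtain ⟨h7, rfl⟩ := h7
    exact lower_five h7
  · exact lower_hm k hk (by omega)

end Pool.Agent.Lib.MP_e960f8_co
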